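import Pool.Agent.TM.Defs
import Mathlib.RingTheory.Polynomial.Resultant.Basic

/-!
# TM Rs: the resultant of two binary forms
-/

set_option autoImplicit false

open Topology Filter Metric

namespace Pool.Agent.TM

open Polynomial
open Pool.Agent.H36.BP (EN)
open Pool.Agent.AD (Vd)
open Pool.Agent.PX (Fo dt)

variable {k d n m n' : ℕ}

/-- the point `(t, 1)` -/
private noncomputable def qv (t : ℂ) : EN 1 := WithLp.toLp 2 ![t, 1]

/-- the point `(1, 0)` -/
private noncomputable def iv : EN 1 := WithLp.toLp 2 ![1, 0]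

private theorem qv_ne (t : ℂ) : qv t ≠ 0 := fun h => by
  have := congrArg (fun x : EN 1 => x 1) h
  simp [qv] at this

private theorem iv_ne : iv ≠ 0 := fun h => by
  have := congrArg (fun x : EN 1 => x 0) h
  simp [iv] at this

private theorem pl_coeff (f : EN n) (i : ℕ) : (pl f).coeff i = if h : i < n + 1 then f ⟨i, h⟩ else 0 := by
  simp only [pl, finsetSum_coeff, coeff_C_mul, coeff_X_pow, mul_ite, mul_one, mul_zero]
  split_ifs with h
  · rw [Finset.sum_eq_single (⟨i, h⟩ : Fin (n + 1))]
    · simp
    · intro i _ hi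
      rw [if_neg]
      rintro rfl
      exact hi rfl
    · intro h1
      exact absurd (Finset.mem_univ _) h1
  · refine Finset.sum_eq_zero fun i _ => ?_
    rw [if_neg]
    rintro rfl
    exact h i.2

private theorem pl_coeff_fin (f : EN n) (i : Fin (n + 1)) : (pl f).coeff (i : ℕ) = f i := by
  rw [pl_coeff, dif_pos i.2]

private theorem pl_deg (f : EN n) : (pl f).natDegree ≤ n := by
  rw [natDegree_le_iff_coeff_eq_zero]
  intro i hn
  rw [pl_coeff, dif_neg (by omega)]

private theorem pl_smul (t : ℂ) (f : EN n) : pl (t • f) = C t * pl f := by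
  ext i
  rw [coeff_C_mul, pl_coeff, pl_coeff]
  split_ifs
  · rfl
  · simp

private theorem bf_qv (f : EN n) (t : ℂ) : bf f (qv t) = (pl f).eval t := by
  simp [bf, pl, eval_finsetSum, qv]

private theorem bf_iv (f : EN n) : bf f iv = f (Fin.last n) := by
  rw [bf, Finset.sum_eq_single (Fin.last n)]
  · simp [iv]
  · intro i _ hi
    have h1 : n - (i : ℕ) ≠ 0 := by
      have := Fin.val_lt_last hi
      omega
    simp [iv, h1]
  · intro h
    exact absurd (Finset.mem_univ _) h

private theorem bf_sm (f : EN n) (t : ℂ) (x : EN 1) : bf f (t • x) = t ^ n * bf f x := by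
  rw [bf, bf, Finset.mul_sum]
  refine Finset.sum_congr rfl fun i _ => ?_
  have h1 : t ^ n = t ^ (i : ℕ) * t ^ (n - (i : ℕ)) := by
    rw [← pow_add]
    congr 1
    omega
  simp only [PiLp.smul_apply, smul_eq_mul, mul_pow]
  rw [h1]
  ring

/-- every nonzero point is a multiple of some `(t, 1)` or of `(1, 0)` -/
private theorem pt_cases {x : EN 1} (hx : x ≠ 0) : (∃ s t : ℂ, s ≠ 0 ∧ x = s • qv t) ∨ ∃ s : ℂ, s ≠ 0 ∧ x = s • iv := by
  by_cases h1 : x 1 = 0
  · right
    refine ⟨x 0, fun h0 => hx ?_, ?_⟩
    · ext j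
      fin_cases j
      · exact h0
      · exact h1
    · ext j
      fin_cases j
      · simp [iv]
      · simpa [iv] using h1
  · left
    refine ⟨x 1, x 0 / x 1, h1, ?_⟩
    ext j
    fin_cases j
    · simp [qv, mul_div_cancel₀ _ h1]
    · simp [qv]

theorem rs_smul_left (s : ℂ) (c : EN n) (x : EN m) : rs (s • c) x = s ^ m * rs c x := by
  rw [rs, pl_smul]
  exact resultant_C_mul_left _ _ _ _ _

theorem rs_smul_right (s : ℂ) (c : EN n) (x : EN m) : rs c (s • x) = s ^ n * rs c x := by
  rw [rs, pl_smul]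
  exact resultant_C_mul_right _ _ _ _ _

private theorem hcop {p q : ℂ[X]} (hne : p ≠ 0 ∨ q ≠ 0) : resultant p q = 0 ↔ ∃ t, p.eval t = 0 ∧ q.eval t = 0 := by
  rw [resultant_eq_zero_iff, isCoprime_iff_aeval_ne_zero_of_isAlgClosed ℂ ℂ]
  constructor
  · rintro ⟨-, h⟩
    push Not at h
    obtain ⟨t, h1, h2⟩ := h
    exact ⟨t, by simpa using h1, by simpa using h2⟩
  · rintro ⟨t, h1, h2⟩
    refine ⟨hne, fun h => ?_⟩
    rcases h t with h3 | h3
    · exact h3 (by simpa using h1)
    · exact h3 (by simpa using h2)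

private theorem pres_iff {a b : ℕ} {p q : ℂ[X]} (ha : 1 ≤ a) (hb : 1 ≤ b) (hp : p.natDegree ≤ a) (hq : q.natDegree ≤ b) :
    resultant p q a b = 0 ↔ (p.coeff a = 0 ∧ q.coeff b = 0) ∨ ∃ t, p.eval t = 0 ∧ q.eval t = 0 := by
  have hlt : ∀ {r : ℂ[X]} {m : ℕ}, 1 ≤ m → r.natDegree ≤ m → r.coeff m = 0 → r.natDegree < m := by
    intro r m hm hr h0
    refine lt_of_le_of_ne hr fun h => ?_
    have h1 : r.leadingCoeff = 0 := by
      rw [leadingCoeff, h]
      exact h0
    rw [leadingCoeff_eq_zero] at h1
    rw [h1, natDegree_zero] at h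
    omega
  by_cases h1 : p.coeff a = 0
  · by_cases h2 : q.coeff b = 0
    · rw [resultant_eq_zero_of_lt_lt _ _ _ _ (hlt ha hp h1) (hlt hb hq h2)]
      simp [h1, h2]
    · have hqm : q.natDegree = b := le_antisymm hq (le_natDegree_of_ne_zero h2)
      obtain ⟨c, hc⟩ := Nat.exists_eq_add_of_le hp
      have e1 : resultant p q a b = (-1) ^ (b * c) * q.coeff b ^ c * resultant p q p.natDegree b := by
        conv_lhs => rw [hc]
        exact resultant_add_left_deg _ _ _ _ _ le_rfl
      have e2 : resultant p q p.natDegree b = resultant p q := by rw [hqm]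
      have hq0 : q ≠ 0 := by
        rintro rfl
        exact h2 (coeff_zero _)
      rw [e1, e2, mul_eq_zero, or_iff_right (mul_ne_zero (pow_ne_zero _ (by norm_num)) (pow_ne_zero _ h2)), hcop (Or.inr hq0)]
      simp [h2]
  · have hpm : p.natDegree = a := le_antisymm hp (le_natDegree_of_ne_zero h1)
    obtain ⟨c, hc⟩ := Nat.exists_eq_add_of_le hq
    have e1 : resultant p q a b = p.coeff a ^ c * resultant p q a q.natDegree := by
      conv_lhs => rw [hc]
      exact resultant_add_right_deg _ _ _ _ _ le_rfl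
    have e2 : resultant p q a q.natDegree = resultant p q := by rw [hpm]
    have hp0 : p ≠ 0 := by
      rintro rfl
      exact h1 (coeff_zero _)
    rw [e1, e2, mul_eq_zero, or_iff_right (pow_ne_zero _ h1), hcop (Or.inl hp0)]
    simp [h1]

private theorem bf_zero_deg (c : EN 0) (v : EN 1) : bf c v = c 0 := by
  simp [bf]

/-- a form of positive degree has a zero -/
private theorem exists_zero (hn : 1 ≤ n) (c : EN n) : ∃ v : EN 1, v ≠ 0 ∧ bf c v = 0 := by
  by_cases h : c (Fin.last n) = 0
  · exact ⟨iv, iv_ne, by rw [bf_iv, h]⟩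
  · have hd : (pl c).degree ≠ 0 := by
      intro h0
      have h1 : (pl c).natDegree = 0 := natDegree_eq_of_degree_eq_some h0
      have h2 : (pl c).coeff n = 0 := coeff_eq_zero_of_natDegree_lt (by omega)
      exact h ((pl_coeff_fin c (Fin.last n)).symm.trans h2)
    obtain ⟨t, ht⟩ := IsAlgClosed.exists_root (pl c) hd
    exact ⟨qv t, qv_ne t, by rw [bf_qv]; exact ht⟩

theorem rs_zero (h : 0 < n + m) (c : EN n) (x : EN m) : rs c x = 0 ↔ ∃ v : EN 1, v ≠ 0 ∧ bf c v = 0 ∧ bf x v = 0 := by
  rcases Nat.eq_zero_or_pos n with rfl | hn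
  · have hm : 1 ≤ m := by omega
    have e : rs c x = c 0 ^ m := by
      rw [rs, resultant_zero_left_deg]
      have := pl_coeff_fin c 0
      simp only [Fin.val_zero] at this
      rw [this]
    rw [e, pow_eq_zero_iff (by omega)]
    constructor
    · intro h0
      obtain ⟨v, hv, hx⟩ := exists_zero hm x
      exact ⟨v, hv, by rw [bf_zero_deg, h0], hx⟩
    · rintro ⟨v, -, h0, -⟩
      rwa [bf_zero_deg] at h0
  rcases Nat.eq_zero_or_pos m with rfl | hm
  · have e : rs c x = x 0 ^ n := by
      rw [rs, resultant_zero_right_deg]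
      have := pl_coeff_fin x 0
      simp only [Fin.val_zero] at this
      rw [this]
    rw [e, pow_eq_zero_iff (by omega)]
    constructor
    · intro h0
      obtain ⟨v, hv, hx⟩ := exists_zero hn c
      exact ⟨v, hv, hx, by rw [bf_zero_deg, h0]⟩
    · rintro ⟨v, -, -, h0⟩
      rwa [bf_zero_deg] at h0
  rw [rs, pres_iff hn hm (pl_deg c) (pl_deg x)]
  constructor
  · rintro (⟨h1, h2⟩ | ⟨t, h1, h2⟩)
    · refine ⟨iv, iv_ne, ?_, ?_⟩
      · rw [bf_iv, ← pl_coeff_fin c, Fin.val_last, h1]
      · rw [bf_iv, ← pl_coeff_fin x, Fin.val_last, h2]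
    · exact ⟨qv t, qv_ne t, (bf_qv c t).trans h1, (bf_qv x t).trans h2⟩
  · rintro ⟨v, hx, h1, h2⟩
    rcases pt_cases hx with ⟨s, t, hs, rfl⟩ | ⟨s, hs, rfl⟩
    · right
      rw [bf_sm, bf_qv, mul_eq_zero, or_iff_right (pow_ne_zero _ hs)] at h1 h2
      exact ⟨t, h1, h2⟩
    · left
      rw [bf_sm, bf_iv, mul_eq_zero, or_iff_right (pow_ne_zero _ hs)] at h1 h2
      rw [← pl_coeff_fin c, Fin.val_last] at h1
      rw [← pl_coeff_fin x, Fin.val_last] at h2
      exact ⟨h1, h2⟩

private theorem pl_coeff_diff (i : ℕ) : Differentiable ℂ fun c : EN n => (pl c).coeff i := by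
  simp only [pl_coeff]
  split_ifs with h
  · fun_prop
  · exact differentiable_const _

theorem rs_diff : Differentiable ℂ fun p : EN n × EN m => rs p.1 p.2 := by
  have hp : ∀ i, Differentiable ℂ (fun p : EN n × EN m => (pl p.1).coeff i) := fun i => (pl_coeff_diff i).comp differentiable_fst
  have hq : ∀ i, Differentiable ℂ (fun p : EN n × EN m => (pl p.2).coeff i) := fun i => (pl_coeff_diff i).comp differentiable_snd
  have hM : ∀ i j : Fin (n + m), Differentiable ℂ (fun p : EN n × EN m => sylvester (pl p.1) (pl p.2) n m i j) := by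
    intro i j
    refine Fin.addCases (fun j => ?_) (fun j => ?_) j
    · simp only [sylvester, Matrix.of_apply, Fin.addCases_left]
      split_ifs
      · exact hq _
      · exact differentiable_const _
    · simp only [sylvester, Matrix.of_apply, Fin.addCases_right]
      split_ifs
      · exact hp _
      · exact differentiable_const _
  have e : (fun p : EN n × EN m => rs p.1 p.2) = fun p => ∑ σ : Equiv.Perm (Fin (n + m)), ((Equiv.Perm.sign σ : ℤ) : ℂ) * ∏ i, sylvester (pl p.1) (pl p.2) n m (σ i) i := by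
    funext p
    exact Matrix.det_apply' _
  rw [e]
  refine Differentiable.fun_sum fun σ _ => ?_
  refine (differentiable_const _).mul ?_
  have hP : ∀ s : Finset (Fin (n + m)), Differentiable ℂ fun p : EN n × EN m => ∏ i ∈ s, sylvester (pl p.1) (pl p.2) n m (σ i) i := by
    intro s
    classical
    induction s using Finset.induction_on with
    | empty => simp only [Finset.prod_empty]; exact differentiable_const _
    | insert b s hb ih =>
      simp only [Finset.prod_insert hb]
      exact (hM _ _).mul ih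
  exact hP Finset.univ

/-- the form with indeterminate coefficients -/
private noncomputable def xf (m : ℕ) : Polynomial (MvPolynomial (Fin (m + 1)) ℂ) := ∑ j : Fin (m + 1), Polynomial.C (MvPolynomial.X j) * Polynomial.X ^ (j : ℕ)

private theorem xf_coeff (i : ℕ) : (xf m).coeff i = if h : i < m + 1 then MvPolynomial.X ⟨i, h⟩ else 0 := by
  simp only [xf, finsetSum_coeff, coeff_C_mul, coeff_X_pow, mul_ite, mul_one, mul_zero]
  split_ifs with h
  · rw [Finset.sum_eq_single (⟨i, h⟩ : Fin (m + 1))]
    · simp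
    · intro i _ hi
      rw [if_neg]
      rintro rfl
      exact hi rfl
    · intro h1
      exact absurd (Finset.mem_univ _) h1
  · refine Finset.sum_eq_zero fun i _ => ?_
    rw [if_neg]
    rintro rfl
    exact h i.2

theorem RM_eval (c : EN n) (x : EN m) : MvPolynomial.eval x.ofLp (RM m c) = rs c x := by
  rw [RM, rs, ← resultant_map_map]
  congr 1
  · rw [Polynomial.map_map]
    have : (MvPolynomial.eval x.ofLp).comp MvPolynomial.C = RingHom.id ℂ := by
      ext a
      simp
    rw [this, Polynomial.map_id]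
  · rw [pl, Polynomial.map_sum]
    refine Finset.sum_congr rfl fun j _ => ?_
    simp

theorem RM_smul (m : ℕ) (s : ℂ) (c : EN n) : RM m (s • c) = MvPolynomial.C (s ^ m) * RM m c := by
  rw [RM, pl_smul, Polynomial.map_mul, Polynomial.map_C, MvPolynomial.C_pow]
  exact resultant_C_mul_left _ _ _ _ _

theorem RM_hom (m : ℕ) (c : EN n) : (RM m c).IsHomogeneous n := by
  have e : RM m c = ∑ σ : Equiv.Perm (Fin (n + m)), ((Equiv.Perm.sign σ : ℤ) : MvPolynomial (Fin (m + 1)) ℂ) * ∏ i, sylvester ((pl c).map MvPolynomial.C) (xf m) n m (σ i) i := Matrix.det_apply' _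
  rw [e]
  refine MvPolynomial.IsHomogeneous.sum _ _ _ fun σ _ => ?_
  have h0 : (((Equiv.Perm.sign σ : ℤ) : MvPolynomial (Fin (m + 1)) ℂ)).IsHomogeneous 0 := by
    have := MvPolynomial.isHomogeneous_C (Fin (m + 1)) (((Equiv.Perm.sign σ : ℤ) : ℂ))
    simpa using this
  have h1 : (∏ i, sylvester ((pl c).map MvPolynomial.C) (xf m) n m (σ i) i).IsHomogeneous n := by
    rw [Fin.prod_univ_add]
    have h2 : (∏ i : Fin n, sylvester ((pl c).map MvPolynomial.C) (xf m) n m (σ (Fin.castAdd m i)) (Fin.castAdd m i)).IsHomogeneous (∑ _i : Fin n, 1) := by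
      refine MvPolynomial.IsHomogeneous.prod _ _ _ fun i _ => ?_
      simp only [sylvester, Matrix.of_apply, Fin.addCases_left]
      split_ifs
      · rw [xf_coeff]
        split_ifs
        · exact MvPolynomial.isHomogeneous_X _ _
        · exact MvPolynomial.isHomogeneous_zero _ _ _
      · exact MvPolynomial.isHomogeneous_zero _ _ _
    have h3 : (∏ i : Fin m, sylvester ((pl c).map MvPolynomial.C) (xf m) n m (σ (Fin.natAdd n i)) (Fin.natAdd n i)).IsHomogeneous (∑ _i : Fin m, 0) := by
      refine MvPolynomial.IsHomogeneous.prod _ _ _ fun i _ => ?_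
      simp only [sylvester, Matrix.of_apply, Fin.addCases_right]
      split_ifs
      · rw [coeff_map]
        exact MvPolynomial.isHomogeneous_C _ _
      · exact MvPolynomial.isHomogeneous_zero _ _ _
    have := h2.mul h3
    simpa using this
  have := h0.mul h1
  rwa [zero_add] at this

private def CD (F : EN n → MvPolynomial (Fin (m + 1)) ℂ) : Prop := ∀ α, Differentiable ℂ fun c => (F c).coeff α

private theorem CD.const (P : MvPolynomial (Fin (m + 1)) ℂ) : CD (n := n) (fun _ => P) := fun _ => differentiable_const _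

private theorem CD.mul {F G : EN n → MvPolynomial (Fin (m + 1)) ℂ} (hF : CD F) (hG : CD G) : CD fun c => F c * G c := by
  classical
  intro α
  simp only [MvPolynomial.coeff_mul]
  exact Differentiable.fun_sum fun p _ => (hF _).mul (hG _)

private theorem CD.sum {β : Type} (s : Finset β) {F : β → EN n → MvPolynomial (Fin (m + 1)) ℂ} (hF : ∀ b ∈ s, CD (F b)) : CD fun c => ∑ b ∈ s, F b c := by
  intro α
  simp only [MvPolynomial.coeff_sum]
  exact Differentiable.fun_sum fun b hb => hF b hb α

private theorem CD.prod {β : Type} (s : Finset β) {F : β → EN n → MvPolynomial (Fin (m + 1)) ℂ} (hF : ∀ b ∈ s, CD (F b)) : CD fun c => ∏ b ∈ s, F b c := by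
  classical
  induction s using Finset.induction_on with
  | empty => simpa using CD.const 1
  | insert b s hb ih =>
    simp only [Finset.prod_insert hb]
    exact (hF b (Finset.mem_insert_self _ _)).mul (ih fun b' hb' => hF b' (Finset.mem_insert_of_mem hb'))

theorem RM_diff (m : ℕ) (α : Fin (m + 1) →₀ ℕ) : Differentiable ℂ fun c : EN n => (RM m c).coeff α := by
  have h : CD (n := n) (m := m) fun c => RM m c := by
    have e : (fun c : EN n => RM m c) = fun c => ∑ σ : Equiv.Perm (Fin (n + m)), ((Equiv.Perm.sign σ : ℤ) : MvPolynomial (Fin (m + 1)) ℂ) * ∏ i, sylvester ((pl c).map MvPolynomial.C) (xf m) n m (σ i) i := by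
      funext c
      exact Matrix.det_apply' _
    rw [e]
    refine CD.sum _ fun σ _ => (CD.const _).mul (CD.prod _ fun i _ => ?_)
    generalize σ i = i'
    refine Fin.addCases (fun j => ?_) (fun j => ?_) i
    · simp only [sylvester, Matrix.of_apply, Fin.addCases_left]
      exact CD.const _
    · simp only [sylvester, Matrix.of_apply, Fin.addCases_right]
      split_ifs
      · intro β
        simp only [coeff_map, MvPolynomial.coeff_C]
        split_ifs
        · exact pl_coeff_diff _
        · exact differentiable_const _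
      · exact CD.const _
  exact h α

end Pool.Agent.TM
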