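import Pool.Agent.TM.Bg
import Pool.Agent.TM.Rs
import Pool.Agent.PX.Cmp

/-!
# TM Lo: the two bounds of the resultant of a factorization

`tv_up`, `tv_lo`: `‖tv θ y‖` is comparable with `exp (wt W y)`, from below over `Gd D δ` (`PX/Cmp`: `PD.fo_le`, `PD.big_pt`; `cf_le`, `bf_le`).  Let `n + n' = d`, `Fo θ y = G * H`, `G : EN n`, `H : EN n'`.  By `mul_lo`, `mul_up`: `‖G‖ ‖H‖` is comparable with `‖tv θ y‖`.
`rs_up`: `‖rs G H‖ ≤ C ‖G‖ ^ n' ‖H‖ ^ n` (homogeneity, compactness of the unit spheres) `≤ C' ‖G‖ ^ (n' - n) exp (n * wt W y)` as `‖G‖ ‖H‖ ≤ C exp (wt W y)` and `n ≤ n'`.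
`rs_lo`: over `Gd D δ`: `c ‖G‖ ^ n' ‖H‖ ^ n ≤ ‖rs G H‖`: the set of the pairs of unit vectors `(G, H)` for which `G * H` is a multiple of `tv θ y`, `y ∈ Gd D δ`, is compact (`y` modulo `Λ`: `Lat.cpt`, as in `PX/Cmp`), and on it `rs G H ≠ 0` by `rs_zero`, because the roots of `Fo θ y` are
simple (`PD.simple`: at a common root `v` of `G` and `H` the derivative `Fd θ y v` of the product is `0`).
-/

set_option autoImplicit false

open Topology Filter Metric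

namespace Pool.Agent.TM

open Pool.Agent.H36.BP (EN)
open Pool.Agent.AD (Vd)
open Pool.Agent.TG (Lat Gd)
open Pool.Agent.G3 (wt)
open Pool.Agent.PX (Fo dt PD)

variable {k d r n m n' : ℕ} {Λ : AddSubgroup (Vd (k + 1))} {D : Set (Vd (k + 1))} {Bad : Vd (k + 1) → Set (Vd (k + 1))} {θ : Fin (d + 1) → Vd (k + 1) → ℂ} {W : Fin r → Vd (k + 1) →L[ℂ] ℂ}

theorem tv_diff {θ : Fin (d + 1) → Vd (k + 1) → ℂ} (han : ∀ i, Differentiable ℂ (θ i)) : Differentiable ℂ (tv θ) := by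
  rw [differentiable_euclidean]
  exact han

theorem tv_up (P : PD Λ D Bad θ W) : ∃ C : ℝ, 0 < C ∧ ∀ y, ‖tv θ y‖ ≤ C * Real.exp (wt W y) := by
  obtain ⟨C, hC, h⟩ := P.fo_le
  obtain ⟨C', hC', h'⟩ := cf_le d
  refine ⟨C' * C, mul_pos hC' hC, fun y => ?_⟩
  have h1 := h' (tv θ y) (C * Real.exp (wt W y)) fun v hv => by
    rw [bf_tv]
    have h2 := h y v
    rwa [hv, one_pow, mul_one] at h2
  rwa [← mul_assoc] at h1

theorem tv_lo (P : PD Λ D Bad θ W) {δ : ℝ} (hδ : 0 < δ) : ∃ c : ℝ, 0 < c ∧ ∀ y ∈ Gd D δ, c * Real.exp (wt W y) ≤ ‖tv θ y‖ := by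
  obtain ⟨c, hc, h⟩ := P.big_pt hδ
  obtain ⟨C, hC, h'⟩ := bf_le d
  refine ⟨c / C, div_pos hc hC, fun y hy => ?_⟩
  obtain ⟨b, hb, h1⟩ := h y hy
  have h2 := h' (tv θ y) b
  rw [bf_tv, hb, one_pow, mul_one] at h2
  unfold Pool.Agent.PX.qf at h1
  rw [hb, one_pow, div_one] at h1
  have h3 : c * Real.exp (wt W y) ≤ ‖Fo θ y b‖ := by
    have h4 := mul_le_mul_of_nonneg_right h1 (Real.exp_pos (wt W y)).le
    rwa [mul_assoc, ← Real.exp_add, neg_add_cancel, Real.exp_zero, mul_one] at h4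
  rw [div_mul_eq_mul_div, div_le_iff₀ hC]
  linarith

private theorem lo_bf_diff (G : EN n) : Differentiable ℂ (bf G) := by
  have h : Differentiable ℂ fun v : EN 1 => (G, v) := (differentiable_const G).prodMk differentiable_id
  exact bf_diff.comp h

/-- the factors have no common root off `D` -/
theorem rs_off (P : PD Λ D Bad θ W) (hn : n + n' = d) {y : Vd (k + 1)} (hy : y ∉ D) {G : EN n} {H : EN n'} (h : ∀ v, Fo θ y v = bf G v * bf H v) : rs G H ≠ 0 := by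
  intro h0
  have hd := P.deg
  obtain ⟨v, hv, hG, hH⟩ := (rs_zero (by omega) G H).1 h0
  have h1 : Fo θ y v = 0 := by rw [h, hG, zero_mul]
  obtain ⟨w, hw⟩ := P.simple y hy v hv h1
  apply hw
  unfold Pool.Agent.PX.Fd
  have h2 : Fo θ y = fun v => bf G v * bf H v := funext h
  rw [h2, fderiv_fun_mul (lo_bf_diff G v) (lo_bf_diff H v), hG, hH]
  simp

private theorem lo_unit (G : EN n) : ∃ G₀ : EN n, ‖G₀‖ = 1 ∧ G = ((‖G‖ : ℝ) : ℂ) • G₀ := by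
  by_cases hG : G = 0
  · refine ⟨EuclideanSpace.single 0 1, by simp, ?_⟩
    rw [hG, norm_zero, Complex.ofReal_zero, zero_smul]
  · have hn : ‖G‖ ≠ 0 := norm_ne_zero_iff.2 hG
    refine ⟨((‖G‖⁻¹ : ℝ) : ℂ) • G, ?_, ?_⟩
    · rw [norm_smul, Complex.norm_real, norm_inv, norm_norm, inv_mul_cancel₀ hn]
    · rw [smul_smul, ← Complex.ofReal_mul, mul_inv_cancel₀ hn, Complex.ofReal_one, one_smul]

private theorem lo_hom {G G₀ : EN n} {H H₀ : EN n'} (hG : G = ((‖G‖ : ℝ) : ℂ) • G₀) (hH : H = ((‖H‖ : ℝ) : ℂ) • H₀) :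
    ‖rs G H‖ = ‖G‖ ^ n' * ‖H‖ ^ n * ‖rs G₀ H₀‖ := by
  have h1 : rs G H = ((‖G‖ : ℝ) : ℂ) ^ n' * (((‖H‖ : ℝ) : ℂ) ^ n * rs G₀ H₀) := by
    conv_lhs => rw [hG, hH]
    rw [rs_smul_left, rs_smul_right]
  rw [h1, norm_mul, norm_mul, norm_pow, norm_pow, Complex.norm_real, Complex.norm_real, norm_norm, norm_norm]
  ring

private theorem lo_pow (hle : n ≤ n') (a b : ℝ) : a ^ n' * b ^ n = a ^ (n' - n) * (a * b) ^ n := by
  have h1 : a ^ n' = a ^ (n' - n) * a ^ n := by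
    rw [← pow_add]
    congr 1
    omega
  rw [h1, mul_pow]
  ring

theorem rs_up (P : PD Λ D Bad θ W) (hn : n + n' = d) (hle : n ≤ n') : ∃ C : ℝ, 0 < C ∧ ∀ (y : Vd (k + 1)) (G : EN n) (H : EN n'), G ≠ 0 → (∀ v, Fo θ y v = bf G v * bf H v) →
    ‖rs G H‖ ≤ C * ‖G‖ ^ (n' - n) * Real.exp (n * wt W y) := by
  subst hn
  obtain ⟨C₁, hC₁⟩ := ((isCompact_sphere (0 : EN n) 1).prod (isCompact_sphere (0 : EN n') 1)).exists_bound_of_continuousOn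
    (rs_diff (n := n) (m := n')).continuous.continuousOn
  obtain ⟨c, hc, hlo⟩ := mul_lo n n'
  obtain ⟨C, hC, hup⟩ := tv_up P
  refine ⟨(|C₁| + 1) * (C / c) ^ n, by positivity, fun y G H _ h => ?_⟩
  obtain ⟨G₀, hG₀, hG⟩ := lo_unit G
  obtain ⟨H₀, hH₀, hH⟩ := lo_unit H
  have h1 : ‖rs G₀ H₀‖ ≤ |C₁| + 1 := by
    have h2 := hC₁ (G₀, H₀) ⟨by simpa using hG₀, by simpa using hH₀⟩
    exact h2.trans ((le_abs_self _).trans (by linarith))
  have h3 : ‖G‖ * ‖H‖ ≤ C / c * Real.exp (wt W y) := by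
    have h4 := (hlo G H (tv θ y) fun v => by rw [bf_tv]; exact h v).trans (hup y)
    rw [div_mul_eq_mul_div, le_div_iff₀ hc]
    linarith
  have h5 : (‖G‖ * ‖H‖) ^ n ≤ (C / c) ^ n * Real.exp (n * wt W y) := by
    have h6 := pow_le_pow_left₀ (by positivity) h3 n
    rwa [mul_pow (C / c), ← Real.exp_nat_mul] at h6
  rw [lo_hom hG hH, lo_pow hle]
  calc ‖G‖ ^ (n' - n) * (‖G‖ * ‖H‖) ^ n * ‖rs G₀ H₀‖
      ≤ ‖G‖ ^ (n' - n) * ((C / c) ^ n * Real.exp (n * wt W y)) * (|C₁| + 1) :=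
        mul_le_mul (mul_le_mul_of_nonneg_left h5 (by positivity)) h1 (norm_nonneg _) (by positivity)
    _ = (|C₁| + 1) * (C / c) ^ n * ‖G‖ ^ (n' - n) * Real.exp (n * wt W y) := by ring

private theorem lo_gd_sub (P : PD Λ D Bad θ W) {δ : ℝ} {y l : Vd (k + 1)} (hl : l ∈ Λ) (hy : y ∈ Gd D δ) : y - l ∈ Gd D δ := by
  intro b hb
  have := hy (b + l) (P.D_inv b hb l hl)
  rwa [show y - l - b = y - (b + l) by abel]

private theorem lo_gd_not {δ : ℝ} (hδ : 0 < δ) {y : Vd (k + 1)} (hy : y ∈ Gd D δ) : y ∉ D := fun h => by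
  have := hy y h
  rw [sub_self, norm_zero] at this
  linarith

private theorem lo_gd_closed (D : Set (Vd (k + 1))) (δ : ℝ) : IsClosed (Gd D δ) := by
  have : Gd D δ = ⋂ b ∈ D, {y | δ ≤ ‖y - b‖} := by
    ext y
    simp [Gd]
  rw [this]
  exact isClosed_biInter fun b _ => isClosed_le continuous_const (by fun_prop)

/-- the form over a translated point -/
private theorem lo_per (P : PD Λ D Bad θ W) {l : Vd (k + 1)} (hl : l ∈ Λ) (y : Vd (k + 1)) :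
    ∃ e : ℂ, e ≠ 0 ∧ tv θ (y + l) = e • tv θ y := by
  obtain ⟨e, he, hθ⟩ := P.per l hl y
  refine ⟨e, ?_, ?_⟩
  · rintro rfl
    rw [norm_zero, zero_mul] at he
    exact (Real.exp_pos _).ne he
  · ext i
    exact hθ i

/-- the resultant of the normalised factors is not small over `Gd D δ` -/
private theorem lo_unit_lo {θ : Fin (n + n' + 1) → Vd (k + 1) → ℂ} (P : PD Λ D Bad θ W) {δ : ℝ} (hδ : 0 < δ) :
    ∃ c : ℝ, 0 < c ∧ ∀ y ∈ Gd D δ, ∀ (s : ℂ) (G₀ : EN n) (H₀ : EN n'), ‖G₀‖ = 1 → ‖H₀‖ = 1 → (∀ v, Fo θ y v = s * (bf G₀ v * bf H₀ v)) → c ≤ ‖rs G₀ H₀‖ := by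
  obtain ⟨R, hR, hL⟩ := P.lat.cpt
  obtain ⟨φ, hφ, hφ'⟩ := exists_ml n n'
  obtain ⟨c₀, hc₀, hlo⟩ := mul_lo n n'
  -- the form is bounded over the ball
  obtain ⟨C, hC⟩ := (isCompact_closedBall (0 : Vd (k + 1)) R).exists_bound_of_continuousOn (tv_diff P.an).continuous.continuousOn
  set K : Set (Vd (k + 1) × ℂ × EN n × EN n') :=
    ((closedBall (0 : Vd (k + 1)) R ∩ Gd D δ) ×ˢ (closedBall (0 : ℂ) (C / c₀) ×ˢ (sphere (0 : EN n) 1 ×ˢ sphere (0 : EN n') 1))) ∩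
      {p | tv θ p.1 = p.2.1 • φ p.2.2} with hK
  have hKc : IsCompact K := by
    refine IsCompact.inter_right (((isCompact_closedBall _ _).inter_right (lo_gd_closed D δ)).prod
      ((isCompact_closedBall _ _).prod ((isCompact_sphere _ _).prod (isCompact_sphere _ _)))) ?_
    refine isClosed_eq ((tv_diff P.an).continuous.comp continuous_fst) ?_
    exact (continuous_fst.comp continuous_snd).smul (hφ.continuous.comp (continuous_snd.comp continuous_snd))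
  have hcont : Continuous fun p : Vd (k + 1) × ℂ × EN n × EN n' => ‖rs p.2.2.1 p.2.2.2‖ :=
    ((rs_diff (n := n) (m := n')).continuous.comp (continuous_snd.comp continuous_snd)).norm
  have hpos : ∀ p ∈ K, 0 < ‖rs p.2.2.1 p.2.2.2‖ := by
    rintro ⟨y, s, G₀, H₀⟩ ⟨⟨⟨-, hy⟩, -, hG₀, hH₀⟩, h0⟩
    have h0' : tv θ y = s • φ (G₀, H₀) := h0
    have h1 : ∀ v, Fo θ y v = bf (s • G₀) v * bf H₀ v := by
      intro v
      rw [← bf_tv, h0', bf_smul, hφ', bf_smul]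
      ring
    have h2 := rs_off P rfl (lo_gd_not hδ hy) h1
    rw [rs_smul_left] at h2
    exact norm_pos_iff.2 (right_ne_zero_of_mul h2)
  have hc : ∃ c : ℝ, 0 < c ∧ ∀ p ∈ K, c ≤ ‖rs p.2.2.1 p.2.2.2‖ := by
    rcases K.eq_empty_or_nonempty with h | h
    · exact ⟨1, one_pos, fun p hp => by rw [h] at hp; exact absurd hp (Set.notMem_empty p)⟩
    · obtain ⟨p, hp, hmin⟩ := hKc.exists_isMinOn h hcont.continuousOn
      exact ⟨_, hpos p hp, fun q hq => hmin hq⟩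
  obtain ⟨c, hc0, hc⟩ := hc
  refine ⟨c, hc0, fun y hy s G₀ H₀ hG₀ hH₀ h => ?_⟩
  obtain ⟨l, hl, hyl⟩ := hL y
  obtain ⟨e, he, hF⟩ := lo_per P hl (y - l)
  rw [sub_add_cancel] at hF
  have h1 : tv θ (y - l) = (e⁻¹ * s) • φ (G₀, H₀) := by
    apply bf_ext
    intro v
    have h2 := h v
    rw [← bf_tv, hF, bf_smul] at h2
    rw [bf_smul, hφ', mul_assoc, ← h2, ← mul_assoc, inv_mul_cancel₀ he, one_mul]
  have h3 : ‖e⁻¹ * s‖ ≤ C / c₀ := by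
    have h4 := hC (y - l) (by rwa [mem_closedBall, dist_zero_right])
    have h5 := hlo G₀ H₀ (φ (G₀, H₀)) (hφ' G₀ H₀)
    rw [hG₀, hH₀, mul_one, mul_one] at h5
    rw [h1, norm_smul] at h4
    rw [le_div_iff₀ hc₀]
    exact (mul_le_mul_of_nonneg_left h5 (norm_nonneg _)).trans h4
  exact hc (y - l, e⁻¹ * s, G₀, H₀) ⟨⟨⟨by rwa [mem_closedBall, dist_zero_right], lo_gd_sub P hl hy⟩, by rwa [mem_closedBall, dist_zero_right],
    by simpa using hG₀, by simpa using hH₀⟩, h1⟩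

theorem rs_lo (P : PD Λ D Bad θ W) (hn : n + n' = d) (hle : n ≤ n') {δ : ℝ} (hδ : 0 < δ) : ∃ c : ℝ, 0 < c ∧ ∀ y ∈ Gd D δ, ∀ (G : EN n) (H : EN n'), (∀ v, Fo θ y v = bf G v * bf H v) →
    c * ‖G‖ ^ (n' - n) * Real.exp (n * wt W y) ≤ ‖rs G H‖ := by
  subst hn
  obtain ⟨c₁, hc₁, h₁⟩ := lo_unit_lo P hδ
  obtain ⟨c₂, hc₂, h₂⟩ := tv_lo P hδ
  obtain ⟨C, hC, hup⟩ := mul_up n n'
  refine ⟨c₁ * (c₂ / C) ^ n, by positivity, fun y hy G H h => ?_⟩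
  obtain ⟨G₀, hG₀, hG⟩ := lo_unit G
  obtain ⟨H₀, hH₀, hH⟩ := lo_unit H
  have h3 : c₂ / C * Real.exp (wt W y) ≤ ‖G‖ * ‖H‖ := by
    have h4 := (h₂ y hy).trans (hup G H (tv θ y) fun v => by rw [bf_tv]; exact h v)
    rw [div_mul_eq_mul_div, div_le_iff₀ hC]
    linarith
  have h5 : (c₂ / C) ^ n * Real.exp (n * wt W y) ≤ (‖G‖ * ‖H‖) ^ n := by
    have h6 := pow_le_pow_left₀ (by positivity) h3 n
    rwa [mul_pow, ← Real.exp_nat_mul] at h6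
  have h7 : c₁ ≤ ‖rs G₀ H₀‖ := by
    apply h₁ y hy (((‖G‖ : ℝ) : ℂ) * ((‖H‖ : ℝ) : ℂ)) G₀ H₀ hG₀ hH₀
    intro v
    rw [h]
    conv_lhs => rw [hG, hH]
    rw [bf_smul, bf_smul]
    ring
  rw [lo_hom hG hH, lo_pow hle]
  calc c₁ * (c₂ / C) ^ n * ‖G‖ ^ (n' - n) * Real.exp (n * wt W y)
      = ‖G‖ ^ (n' - n) * ((c₂ / C) ^ n * Real.exp (n * wt W y)) * c₁ := by ring
    _ ≤ ‖G‖ ^ (n' - n) * (‖G‖ * ‖H‖) ^ n * ‖rs G₀ H₀‖ :=
        mul_le_mul (mul_le_mul_of_nonneg_left h5 (by positivity)) h7 hc₁.le (by positivity)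

end Pool.Agent.TM
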