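import Pool.Agent.TM.Loc
import Pool.Agent.TM.Lo
import Pool.Agent.HE.F.Exa

/-!
# TM Fibr: the fibres of `T_m` over points with at least `2 m + 1` different zeros

`HasHyperbolicFibre`, `HasHypersurfaces`: `HE/FDefs.lean`.  Let `r_i`, `i < 2 m + 1`, be different zeros of `Fo θ y₀`, which is not `0`.  `exists_mult`: `Fo θ y₀ = A_i * B_i`, `A_i = (dt r_i ·)^μ_i`, `B_i (r_i) ≠ 0`; `loc_fac`: near `y₀` the form is `A_i y * B_i y`; `Q_i y = RM m (A_i y)` (`RM_hom`, `RM_diff`): a zero `x` of `Q_i y`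
has a common zero with `A_i y` (`RM_eval`, `rs_zero`), so with `Fo θ y`, so `RM m (tv θ y)` vanishes at `x`.  `RM m (A_i)` vanishes at `x` iff `bf x (r_i) = 0`; any `m + 1` of the linear forms `x ↦ bf x (r_i)` have no common zero (`bf_roots_le`): `HE/Gen.lean` (`Gp.const`, `κ = m`) with `lift_of_brody` (`HE/F/Exa.lean`; see the proof of `hyperbolic_of_pieces`).
`hypersurf`: pointwise, `κ = m`, `e = 1`, `Q_i` the linear form `∑ j, C (r_i 0 ^ j * r_i 1 ^ (m - j)) * X j`.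
-/

set_option autoImplicit false

open Topology Filter Metric

namespace Pool.Agent.TM

open Pool.Agent.H17 (PN VanishesAt)
open Pool.Agent.H36.BP (EN)
open Pool.Agent.H62.EF (MN pr)
open Pool.Agent.AD (Vd)
open Pool.Agent.PX (Fo Fd dt PD)
open Pool.Agent.PXF (Cn)
open Pool.Agent.HEF

variable {k d n m n' : ℕ} {Λ : AddSubgroup (Vd (k + 1))} {θ : Fin (d + 1) → Vd (k + 1) → ℂ}

private theorem Fibr_ne (hm : 0 < m) {r : Fin (2 * m + 1) → EN 1} (hr : ∀ i j, i ≠ j → dt (r i) (r j) ≠ 0) (i : Fin (2 * m + 1)) : r i ≠ 0 := by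
  have : Nontrivial (Fin (2 * m + 1)) := Fin.nontrivial_iff_two_le.2 (by omega)
  obtain ⟨j, hj⟩ := exists_ne i
  intro h
  apply hr i j (Ne.symm hj)
  rw [h]
  unfold dt
  simp

private theorem Fibr_van (c : EN n) (p : PN m) : VanishesAt (RM m c) p ↔ rs c (WithLp.toLp 2 p.rep : EN m) = 0 := by
  rw [← RM_eval]
  rfl

private theorem Fibr_gp {r : Fin (2 * m + 1) → EN 1} (hr : ∀ i j, i ≠ j → dt (r i) (r j) ≠ 0) (I : Finset (Fin (2 * m + 1))) (hI : I.card = m + 1) {x : EN m} (hx : x ≠ 0) : ∃ s ∈ I, bf x (r s) ≠ 0 := by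
  by_contra hcon
  push Not at hcon
  apply hx
  refine bf_roots_le (s := m + 1) (fun i => r (I.orderEmbOfFin hI i)) (fun i j hij => hr _ _ ?_) (fun i => hcon _ (Finset.orderEmbOfFin_mem _ _ _)) (Nat.lt_succ_self m)
  intro h
  exact hij ((I.orderEmbOfFin hI).injective h)

private theorem Fibr_common {c : EN n} {x : EN m} (hm : 0 < m) {v : EN 1} (hv : v ≠ 0) (h1 : bf c v = 0) (h2 : bf x v = 0) : rs c x = 0 :=
  (rs_zero (by omega) c x).2 ⟨v, hv, h1, h2⟩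

private theorem Fibr_pow {μ : ℕ} (hμ : 0 < μ) {A : EN μ} {r : EN 1} (hr : r ≠ 0) (hA : ∀ v, bf A v = dt r v ^ μ) (x : EN m) : rs A x = 0 ↔ bf x r = 0 := by
  rw [rs_zero (by omega)]
  constructor
  · rintro ⟨v, hv, h1, h2⟩
    rw [hA] at h1
    obtain ⟨c, rfl⟩ := (Pool.Agent.PX.dt_eq_zero hr).1 (pow_eq_zero_iff hμ.ne' |>.1 h1)
    rw [bf_smul_v] at h2
    have hc : c ≠ 0 := by
      rintro rfl
      exact hv (zero_smul _ _)
    exact (mul_eq_zero.1 h2).resolve_left (pow_ne_zero _ hc)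
  · intro h
    refine ⟨r, hr, ?_, h⟩
    rw [hA, (Pool.Agent.PX.dt_eq_zero hr).2 ⟨1, (one_smul _ _).symm⟩, zero_pow hμ.ne']

theorem fibre_hyp (han : ∀ i, Differentiable ℂ (θ i)) (hm : 0 < m) {y₀ : Vd (k + 1)} (hne : ∃ i, θ i y₀ ≠ 0) (r : Fin (2 * m + 1) → EN 1) (hr : ∀ i j, i ≠ j → dt (r i) (r j) ≠ 0) (h0 : ∀ i, Fo θ y₀ (r i) = 0) :
    HasHyperbolicFibre Λ (Set.univ : Set ((Cn (k + 1) ⧸ Λ) × PN m)) (fun _ : Fin 1 => fun y => RM m (tv θ y)) y₀ := by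
  have hr0 := Fibr_ne hm hr
  have hc : tv θ y₀ ≠ 0 := by
    obtain ⟨i, hi⟩ := hne
    intro h
    apply hi
    exact congrArg (fun v : EN d => v i) h
  have h1 := fun i => exists_mult hc (hr0 i) (show bf (tv θ y₀) (r i) = 0 by rw [bf_tv]; exact h0 i)
  choose μ ν A₀ B₀ hμν hμ hAB hA hB using h1
  have h2 := fun i => loc_fac (E := Vd (k + 1)) (c := tv θ) (y₀ := y₀) one_pos (tv_diff han).differentiableOn (hμν i) (hAB i) (fun v hv hv0 => by
    rw [hA] at hv0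
    obtain ⟨c, rfl⟩ := (Pool.Agent.PX.dt_eq_zero (hr0 i)).1 (pow_eq_zero_iff (hμ i).ne' |>.1 hv0)
    have hc : c ≠ 0 := by
      rintro rfl
      exact hv (zero_smul _ _)
    rw [bf_smul_v]
    exact mul_ne_zero (pow_ne_zero _ hc) (hB i))
  choose ρ A B hρ hρ1 hAd hBd hA0 hB0 hfac using h2
  obtain ⟨i₀, hi₀⟩ := Finite.exists_min ρ
  refine ⟨ρ i₀, 2 * m + 1, fun i y => RM m (A i y), μ, hρ i₀, fun i => ⟨fun y _ => RM_hom m _, fun α => ?_⟩, fun i y hy p _ hp => ⟨0, ?_⟩, fun g hg hgX hgs z w => ?_⟩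
  · exact (RM_diff m α).comp_differentiableOn ((hAd i).mono (ball_subset_ball (hi₀ i)))
  · rw [Fibr_van] at hp ⊢
    obtain ⟨v, hv, h3, h4⟩ := (rs_zero (by have := hμ i; omega) _ _).1 hp
    refine Fibr_common hm hv ?_ h4
    rw [hfac i y (ball_subset_ball (hi₀ i) hy) v, h3, zero_mul]
  · have hGp : HE.Gp (Set.univ : Set (EN m)) (fun (s : Fin (2 * m + 1)) x => bf x (r s)) (fun _ => 1) m := by
      refine ⟨isClosed_univ, fun _ _ _ => Set.mem_univ _, fun s => ?_, fun _ => one_pos, fun s c x => ?_, fun I hI x _ hx => Fibr_gp hr I hI hx, le_rfl⟩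
      · exact bf_diff.comp (differentiable_id.prodMk (differentiable_const (r s)))
      · rw [bf_smul, pow_one]
    obtain ⟨G, L, hG, hGg, hL⟩ := HE.lift_of_brody hg
    have hv : ∀ s z, VanishesAt (RM m (A s y₀)) (g z) ↔ bf (G z) (r s) = 0 := by
      intro s z
      obtain ⟨h3, h4⟩ := hGg z
      rw [h4, HE.van_mk (RM_hom m _) h3, RM_eval, hA0]
      exact Fibr_pow (hμ s) (hr0 s) (hA s) (G z)
    obtain ⟨c, hc⟩ := hGp.const hG (fun z => by
      obtain ⟨h3, -⟩ := hGg z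
      rintro h4
      exact h3 (by rw [h4]; rfl)) (fun z => Set.mem_univ _) hL (fun s => by
      rcases hgs s with h3 | h3
      · exact Or.inl fun z => (hv s z).1 (h3 z)
      · exact Or.inr fun z h4 => h3 z ((hv s z).2 h4)) z w
    obtain ⟨h3, h4⟩ := hGg z
    obtain ⟨h5, h6⟩ := hGg w
    rw [h4, h6, Projectivization.mk_eq_mk_iff']
    exact ⟨c, by rw [hc]; rfl⟩

theorem hypersurf (hm : 0 < m) {y : Vd (k + 1)} (hd : 0 < d) (r : Fin (2 * m + 1) → EN 1) (hr : ∀ i j, i ≠ j → dt (r i) (r j) ≠ 0) (h0 : ∀ i, Fo θ y (r i) = 0) :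
    HasHypersurfaces Λ (Set.univ : Set ((Cn (k + 1) ⧸ Λ) × PN m)) (fun _ : Fin 1 => fun y => RM m (tv θ y)) m 1 y := by
  have hr0 := Fibr_ne hm hr
  have hev : ∀ (s : Fin (2 * m + 1)) (p : PN m), VanishesAt (∑ j : Fin (m + 1), MvPolynomial.C (r s 0 ^ (j : ℕ) * r s 1 ^ (m - (j : ℕ))) * MvPolynomial.X j) p ↔ bf (WithLp.toLp 2 p.rep : EN m) (r s) = 0 := by
    intro s p
    unfold VanishesAt bf
    rw [map_sum]
    have : ∀ j : Fin (m + 1), MvPolynomial.eval p.rep (MvPolynomial.C (r s 0 ^ (j : ℕ) * r s 1 ^ (m - (j : ℕ))) * MvPolynomial.X j) = (WithLp.toLp 2 p.rep : EN m) j * r s 0 ^ (j : ℕ) * r s 1 ^ (m - (j : ℕ)) := by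
      intro j
      rw [map_mul, MvPolynomial.eval_C, MvPolynomial.eval_X]
      change _ = p.rep j * _ * _
      ring
    rw [Finset.sum_congr rfl fun j _ => this j]
  refine ⟨fun s => ∑ j : Fin (m + 1), MvPolynomial.C (r s 0 ^ (j : ℕ) * r s 1 ^ (m - (j : ℕ))) * MvPolynomial.X j, fun s => ?_, fun s p _ hp => ⟨0, ?_⟩, fun I hI p _ => ?_⟩
  · refine MvPolynomial.IsHomogeneous.sum _ _ _ fun j _ => ?_
    exact MvPolynomial.IsHomogeneous.C_mul (MvPolynomial.isHomogeneous_X ℂ j) _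
  · rw [hev] at hp
    rw [Fibr_van]
    exact Fibr_common hm (hr0 s) (by rw [bf_tv]; exact h0 s) hp
  · obtain ⟨s, hs, h1⟩ := Fibr_gp hr I hI (x := (WithLp.toLp 2 p.rep : EN m)) (HE.toLp_ne p.rep_nonzero)
    exact ⟨s, hs, fun h2 => h1 ((hev s p).1 h2)⟩

end Pool.Agent.TM
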