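import Pool.Agent.TM.Lo
import Pool.Agent.TM.Loc
import Pool.Agent.PX.RPow
import Pool.Agent.PX.One
import Pool.Agent.PX.GoodB
import Pool.Agent.PX.Coef

/-!
# TM Good: at the good hits the two factors have no common zero

Let `p = y + z₀ a ∈ D`, not in `Bad a`.
* `form_ne`: `Fo θ p ≠ 0`: otherwise (`P.form`) the form is `0` at all points of `D` near `p`; by `one_hit` the curve `h n`, `n` large, hits `D` near `z₀`, where `rs (tv θ (h n z)) (w n z) = 0` (`rs_zero`, `exists_root`), against `Cw.ne`.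
* `good`: suppose that `G z₀`, `H z₀` have a common zero `t₀ b + e` (`rs_zero`).  `roots_pow`: `P_{y + (z₀ + τ^N) a}(t) = ∏ (t - E i τ)`, different for `τ ≠ 0`.  `gd_all` (`gd_idx`, identity theorem): there are `i`, `j` with
  `E i 0 = t₀ = E j 0`, `bf (G ..) (E i τ b + e) = 0` and `bf (H ..) (E j τ b + e) = 0` for all `τ`; so `bf (G ..) (E j τ b + e) ≠ 0` for `τ ≠ 0` (`rs_off`).
* The curves: the only point `z₁ n` near `z₀` at which `h n (z₀ + ·)` hits `D` tends to `0`.  The roots of `P_{h n (z₀ + z₁ n + τ^N)}` are near the `E l τ` on a circle `|τ| = q₁` (`gd_match`), one near each; so two of them extend to holomorphic roots `E'`, `E''` near `E i`, `E j` (`root_ext`), and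
  `bf (w n ..) (E' τ b + e)`, `bf (w n ..) (E'' τ b + e)` have no zeros; on the circle the first is smaller (`gd_lt`, by an ultralimit: `gd_lim` and `hx`).  By the maximum principle `E' ≠ E''` in the disc, and then `E i 0 ≠ E j 0` (`gd_core`): contradiction.
-/

set_option autoImplicit false

open Topology Filter Metric

namespace Pool.Agent.TM

open Pool.Agent.H36.BP (EN)
open Pool.Agent.H62.EF (MN pr pr_smul pr_eq_iff continuousAt_pr)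
open Pool.Agent.AD (Vd)
open Pool.Agent.TG (Lat Gd)
open Pool.Agent.G3 (wt TT LLift)
open Pool.Agent.PX (Fo Fd dt dt_add dt_smul PD root_ext one_hit exists_rad exists_b exists_e exists_coef fo_smul fo_diff cf Pt Pol Pol_monic Pol_natDegree LFam_Pol Pol_separable simple_pt roots_pow rt_dt
  line_ne fo_pt conv_Pol conv_comp eval_Pol Pt_bound)
open Pool.Agent.H56.PR (conv_eval)

variable {k d r n m n' : ℕ} {Λ : AddSubgroup (Vd (k + 1))} {D : Set (Vd (k + 1))} {Bad : Vd (k + 1) → Set (Vd (k + 1))} {θ : Fin (d + 1) → Vd (k + 1) → ℂ} {W : Fin r → Vd (k + 1) →L[ℂ] ℂ}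

private theorem gd_fac (c : Fin d → ℂ → ℂ) (z : ℂ) : ∃ t : Fin d → ℂ, ∀ x, Pt c z x = ∏ k, (x - t k) := by
  have hsp : (Pol c z).roots.card = d := by
    have h := (Polynomial.splits_iff_card_roots.1 (IsAlgClosed.splits (Pol c z)))
    rw [h, Pol_natDegree]
  obtain ⟨l, hl⟩ := Quot.exists_rep (Pol c z).roots
  have hl' : (l : Multiset ℂ) = (Pol c z).roots := hl
  have hlen : l.length = d := by
    rw [← hl'] at hsp
    exact hsp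
  have h2 := (IsAlgClosed.splits (Pol c z)).eq_prod_roots_of_monic (Pol_monic c z)
  rw [← hl', Multiset.map_coe, Multiset.prod_coe] at h2
  refine ⟨fun i => l.get (Fin.cast hlen.symm i), fun x => ?_⟩
  have h3 : (Pol c z).eval x = (l.map fun a => x - a).prod := by
    rw [h2, Polynomial.eval_list_prod, List.map_map]
    congr 1
    refine List.map_congr_left fun a _ => ?_
    simp
  rw [← eval_Pol, h3]
  have h4 : l = List.ofFn fun i => l.get (Fin.cast hlen.symm i) := by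
    apply List.ext_get
    · rw [List.length_ofFn, hlen]
    · intro n h1 h2
      simp
  conv_lhs => rw [h4]
  rw [List.map_ofFn, List.prod_ofFn]
  rfl

/-- the roots of near monic polynomials -/
private theorem gd_match {c : Fin d → ℂ → ℂ} {z : ℂ} {e : Fin d → ℂ} {η M : ℝ} (hη : 0 < η) (he : ∀ i, ‖e i‖ ≤ M) (ht : ∀ x, Pt c z x = 0 → ‖x‖ ≤ M) (hsep : ∀ i j, i ≠ j → 4 * η < ‖e i - e j‖)
    (h : ∀ x : ℂ, ‖x‖ ≤ M → ‖Pt c z x - ∏ i, (x - e i)‖ < η ^ d) :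
    (∀ i, ∃ x, Pt c z x = 0 ∧ ‖x - e i‖ < η) ∧ (∀ x, Pt c z x = 0 → ∃ i, ‖x - e i‖ < η) ∧
      ∀ i x x', Pt c z x = 0 → Pt c z x' = 0 → ‖x - e i‖ ≤ 2 * η → ‖x' - e i‖ ≤ 2 * η → x = x' := by
  obtain ⟨t, hft⟩ := gd_fac c z
  have hroot : ∀ k, Pt c z (t k) = 0 := fun k => by
    rw [hft, Finset.prod_eq_zero (Finset.mem_univ k) (sub_self _)]
  have hroot' : ∀ x, Pt c z x = 0 → ∃ k, x = t k := by
    intro x hx
    rw [hft, Finset.prod_eq_zero_iff] at hx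
    obtain ⟨k, -, hk⟩ := hx
    exact ⟨k, sub_eq_zero.1 hk⟩
  have key : ∀ (x : ℂ) (s : Fin d → ℂ), ‖∏ i, (x - s i)‖ < η ^ d → ∃ k, ‖x - s k‖ < η := by
    intro x s hx
    by_contra hcon
    push Not at hcon
    have h1 : η ^ d ≤ ‖∏ i, (x - s i)‖ := by
      rw [norm_prod]
      calc η ^ d = ∏ _i : Fin d, η := by simp
        _ ≤ _ := Finset.prod_le_prod (fun _ _ => hη.le) fun i _ => hcon i
    exact absurd hx (not_lt.2 h1)
  have h1 : ∀ i, ∃ k, ‖t k - e i‖ < η := by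
    intro i
    have h2 := h (e i) (he i)
    have h3 : ∏ j, (e i - e j) = 0 := Finset.prod_eq_zero (Finset.mem_univ i) (sub_self _)
    rw [h3, sub_zero, hft] at h2
    obtain ⟨k, hk⟩ := key _ _ h2
    exact ⟨k, by rwa [norm_sub_rev]⟩
  have h2 : ∀ k, ∃ i, ‖t k - e i‖ < η := by
    intro k
    have h2 := h (t k) (ht _ (hroot k))
    rw [hroot k, zero_sub, norm_neg] at h2
    exact key _ _ h2
  choose κ hκ using h1
  have tri : ∀ a i j, ‖t a - e i‖ ≤ 2 * η → ‖t a - e j‖ < η → i = j := by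
    intro a i j hi hj
    by_contra hne
    have h3 := hsep i j hne
    have h4 : e i - e j = (t a - e j) - (t a - e i) := by ring
    rw [h4] at h3
    have h5 := norm_sub_le (t a - e j) (t a - e i)
    linarith
  have hinj : Function.Injective κ := by
    intro i j hij
    have h3 := hκ i
    have h4 := hκ j
    rw [← hij] at h4
    exact tri _ _ _ (by linarith) h4
  have hsurj := Finite.surjective_of_injective hinj
  have hk : ∀ i k, ‖t k - e i‖ ≤ 2 * η → k = κ i := by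
    intro i k hk
    obtain ⟨j, rfl⟩ := hsurj k
    rw [tri _ _ _ hk (hκ j)]
  refine ⟨fun i => ⟨t (κ i), hroot _, hκ i⟩, fun x hx => ?_, fun i x x' hx hx' h3 h4 => ?_⟩
  · obtain ⟨k, rfl⟩ := hroot' x hx
    exact h2 k
  · obtain ⟨k, rfl⟩ := hroot' x hx
    obtain ⟨l, rfl⟩ := hroot' x' hx'
    rw [hk i k h3, hk i l h4]

/-- the maximum principle -/
private theorem gd_max {q : ℂ → ℂ} {r : ℝ} (hr : 0 < r) (hq : DifferentiableOn ℂ q (closedBall 0 r)) (h : ∀ z ∈ sphere (0 : ℂ) r, ‖q z‖ < 1) :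
    ∀ z ∈ closedBall (0 : ℂ) r, ‖q z‖ < 1 := by
  obtain ⟨z₀, hz₀, hmax⟩ := (isCompact_sphere (0 : ℂ) r).exists_isMaxOn (NormedSpace.sphere_nonempty.2 hr.le)
    ((hq.continuousOn.mono sphere_subset_closedBall).norm)
  intro z hz
  refine lt_of_le_of_lt ?_ (h z₀ hz₀)
  refine Complex.norm_le_of_forall_mem_frontier_norm_le (U := ball (0 : ℂ) r) isBounded_ball (DifferentiableOn.diffContOnCl ?_) ?_ (by rwa [closure_ball _ hr.ne'])
  · rw [closure_ball _ hr.ne']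
    exact hq
  · intro w hw
    rw [frontier_ball _ hr.ne'] at hw
    exact hmax hw

/-- two roots which do not meet -/
private theorem gd_core {c : Fin d → ℂ → ℂ} {r R η : ℝ} (hr : 0 < r) (hrR : r < R) (hη : 0 < η) (hc : ∀ i, DifferentiableOn ℂ (c i) (ball 0 R))
    (hs : ∀ z ∈ ball (0 : ℂ) R, z ≠ 0 → ∀ t, Pt c z t = 0 → deriv (Pt c z) t ≠ 0) {e : Fin d → ℂ → ℂ} (he : ∀ i, DifferentiableOn ℂ (e i) (ball 0 R))
    (ha : ∀ i, ∀ z ∈ sphere (0 : ℂ) r, ∃ t, Pt c z t = 0 ∧ ‖t - e i z‖ ≤ η)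
    (hb : ∀ i, ∀ z ∈ sphere (0 : ℂ) r, ∀ t, Pt c z t = 0 → ‖t - e i z‖ ≤ 2 * η → ‖t - e i z‖ ≤ η)
    (hu : ∀ i, ∀ z ∈ sphere (0 : ℂ) r, ∀ t t', Pt c z t = 0 → Pt c z t' = 0 → ‖t - e i z‖ ≤ 2 * η → ‖t' - e i z‖ ≤ 2 * η → t = t')
    {i j : Fin d} (hij : ∀ z ∈ sphere (0 : ℂ) r, 4 * η < ‖e i z - e j z‖) {B : ℂ → ℂ → ℂ}
    (hB : ∀ E : ℂ → ℂ, DifferentiableOn ℂ E (ball 0 R) → DifferentiableOn ℂ (fun z => B z (E z)) (ball 0 R))
    (hB0 : ∀ z ∈ ball (0 : ℂ) R, ∀ t, Pt c z t = 0 → B z t ≠ 0)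
    (hlt : ∀ z ∈ sphere (0 : ℂ) r, ∀ t t', Pt c z t = 0 → Pt c z t' = 0 → ‖t - e i z‖ ≤ η → ‖t' - e j z‖ ≤ η → ‖B z t‖ < ‖B z t'‖) : e i 0 ≠ e j 0 := by
  have hss : sphere (0 : ℂ) r ⊆ ball 0 R := sphere_subset_closedBall.trans (closedBall_subset_ball hrR)
  have hext : ∀ i, ∃ E : ℂ → ℂ, DifferentiableOn ℂ E (ball 0 R) ∧ (∀ z ∈ ball (0 : ℂ) R, Pt c z (E z) = 0) ∧ ∀ z ∈ sphere (0 : ℂ) r, ‖E z - e i z‖ ≤ η :=
    fun i => root_ext hr hrR hη hc hs ((he i).continuousOn.mono hss) (ha i) (hb i) (hu i)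
  obtain ⟨E, hE1, hE2, hE3⟩ := hext i
  obtain ⟨E', hE1', hE2', hE3'⟩ := hext j
  have hcs : closedBall (0 : ℂ) r ⊆ ball 0 R := closedBall_subset_ball hrR
  have hq := gd_max hr (((hB E hE1).mono hcs).div ((hB E' hE1').mono hcs) fun z hz => hB0 z (hcs hz) _ (hE2' z (hcs hz))) fun z hz => by
    have h1 := hB0 z (hss hz) _ (hE2' z (hss hz))
    simp only [Pi.div_apply]
    rw [norm_div, div_lt_one (norm_pos_iff.2 h1)]
    exact hlt z hz _ _ (hE2 z (hss hz)) (hE2' z (hss hz)) (hE3 z hz) (hE3' z hz)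
  have hne : ∀ z ∈ closedBall (0 : ℂ) r, E z - E' z ≠ 0 := by
    intro z hz h0
    have h1 := hq z hz
    simp only [Pi.div_apply] at h1
    rw [sub_eq_zero.1 h0, div_self (hB0 z (hcs hz) _ (hE2' z (hcs hz))), norm_one] at h1
    exact lt_irrefl _ h1
  have hq' := gd_max (q := fun z => ((e i z - e j z) - (E z - E' z)) / (E z - E' z)) hr ((((((he i).sub (he j)).mono hcs)).sub ((hE1.sub hE1').mono hcs)).div ((hE1.sub hE1').mono hcs) hne) fun z hz => by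
    have h1 := hne z (sphere_subset_closedBall hz)
    rw [norm_div, div_lt_one (norm_pos_iff.2 h1)]
    have h2 := hE3 z hz
    have h3 := hE3' z hz
    have h4 := hij z hz
    have h5 : ‖(e i z - e j z) - (E z - E' z)‖ ≤ 2 * η := by
      have h6 : (e i z - e j z) - (E z - E' z) = (E' z - e j z) - (E z - e i z) := by ring
      rw [h6]
      have := norm_sub_le (E' z - e j z) (E z - e i z)
      linarith
    have h7 : ‖e i z - e j z‖ ≤ ‖(e i z - e j z) - (E z - E' z)‖ + ‖E z - E' z‖ := by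
      have := norm_add_le ((e i z - e j z) - (E z - E' z)) (E z - E' z)
      rwa [sub_add_cancel] at this
    linarith
  intro h0
  have h1 := hq' 0 (mem_closedBall_self hr.le)
  have h2 := hne 0 (mem_closedBall_self hr.le)
  rw [h0, sub_self, zero_sub, neg_div, div_self h2, norm_neg, norm_one] at h1
  exact lt_irrefl _ h1

/-- a form not `0` at `b` on the line `t b + e` -/
private theorem gd_line (c : EN n) {b : EN 1} (e : EN 1) (hb : bf c b ≠ 0) : ∃ s : Fin n → ℂ, ∀ t : ℂ, bf c (t • b + e) = bf c b * ∏ k, (t - s k) := by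
  have hc : c ≠ 0 := by
    rintro rfl
    exact hb (bf_zero b)
  obtain ⟨a, r, ha, -, h⟩ := exists_split hc
  have hr : ∀ k, dt (r k) b ≠ 0 := by
    intro k hk
    apply hb
    rw [h, Finset.prod_eq_zero (Finset.mem_univ k) hk, mul_zero]
  refine ⟨fun k => -(dt (r k) e / dt (r k) b), fun t => ?_⟩
  rw [h, h, mul_assoc, ← Finset.prod_mul_distrib]
  congr 1
  refine Finset.prod_congr rfl fun k _ => ?_
  rw [dt_add, dt_smul]
  have := hr k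
  field_simp
  ring

private theorem gd_cont {X : Type*} [TopologicalSpace X] {C : X → EN n} {v : X → EN 1} {x : X} (hC : ContinuousAt C x) (hv : ContinuousAt v x) : ContinuousAt (fun x => bf (C x) (v x)) x := by
  have h := (bf_diff (n := n)).continuous.continuousAt (x := (C x, v x))
  exact ContinuousAt.comp (f := fun x => (C x, v x)) h (hC.prodMk hv)

private theorem gd_idx {C : ℂ → EN n} {e : Fin d → ℂ → ℂ} {b e' : EN 1} {t₀ : ℂ} (hC : ContinuousAt C 0) (hb : bf (C 0) b ≠ 0) (h0 : bf (C 0) (t₀ • b + e') = 0)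
    (hroot : ∀ᶠ τ in 𝓝[≠] (0 : ℂ), ∀ t, bf (C τ) (t • b + e') = 0 → ∃ i, t = e i τ) (he : ∀ i, ContinuousAt (e i) 0) :
    ∃ i, e i 0 = t₀ ∧ ∃ᶠ τ in 𝓝[≠] (0 : ℂ), bf (C τ) (e i τ • b + e') = 0 := by
  by_contra hcon
  push Not at hcon
  have h1 : ∀ᶠ ε in 𝓝[>] (0 : ℝ), ∀ i, ∀ᶠ τ in 𝓝[≠] (0 : ℂ), bf (C τ) (e i τ • b + e') = 0 → ε ≤ ‖t₀ - e i τ‖ := by
    refine eventually_all.2 fun i => ?_
    by_cases h : e i 0 = t₀
    · have h2 := hcon i h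
      refine Eventually.of_forall fun ε => ?_
      filter_upwards [h2] with τ h3 h4 using absurd h4 h3
    · have h2 : 0 < ‖t₀ - e i 0‖ := norm_pos_iff.2 (sub_ne_zero.2 (Ne.symm h))
      filter_upwards [Ioo_mem_nhdsGT h2] with ε hε
      have h3 : ContinuousAt (fun τ => ‖t₀ - e i τ‖) 0 := (continuousAt_const.sub (he i)).norm
      have h4 : ∀ᶠ τ in 𝓝[≠] (0 : ℂ), ε < ‖t₀ - e i τ‖ := nhdsWithin_le_nhds (h3.eventually (lt_mem_nhds hε.2))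
      filter_upwards [h4] with τ h5 _ using h5.le
  obtain ⟨ε, h2, hε⟩ := (h1.and self_mem_nhdsWithin).exists
  have hε0 : 0 < ε := hε
  have h3 : ∀ᶠ τ in 𝓝[≠] (0 : ℂ), bf (C τ) b ≠ 0 := nhdsWithin_le_nhds ((gd_cont hC continuousAt_const).eventually_ne hb)
  have h4 : ∀ᶠ τ in 𝓝[≠] (0 : ℂ), ‖bf (C τ) b‖ * ε ^ n ≤ ‖bf (C τ) (t₀ • b + e')‖ := by
    filter_upwards [h3, hroot, eventually_all.2 h2] with τ h5 h6 h7
    obtain ⟨s, hs⟩ := gd_line (C τ) e' h5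
    rw [hs, norm_mul, norm_prod]
    refine mul_le_mul_of_nonneg_left ?_ (norm_nonneg _)
    calc ε ^ n = ∏ _k : Fin n, ε := by simp
      _ ≤ ∏ k, ‖t₀ - s k‖ := Finset.prod_le_prod (fun _ _ => hε0.le) fun k _ => ?_
    have h8 : bf (C τ) (s k • b + e') = 0 := by
      rw [hs, Finset.prod_eq_zero (Finset.mem_univ k) (sub_self _), mul_zero]
    obtain ⟨i, hi⟩ := h6 _ h8
    rw [hi] at h8 ⊢
    exact h7 i h8
  have h5 : Tendsto (fun τ => ‖bf (C τ) b‖ * ε ^ n) (𝓝[≠] (0 : ℂ)) (𝓝 (‖bf (C 0) b‖ * ε ^ n)) :=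
    ((gd_cont hC continuousAt_const).norm.mul continuousAt_const).tendsto.mono_left nhdsWithin_le_nhds
  have h6 : Tendsto (fun τ => ‖bf (C τ) (t₀ • b + e')‖) (𝓝[≠] (0 : ℂ)) (𝓝 ‖bf (C 0) (t₀ • b + e')‖) :=
    (gd_cont hC continuousAt_const).norm.tendsto.mono_left nhdsWithin_le_nhds
  have h7 := le_of_tendsto_of_tendsto h5 h6 h4
  rw [h0, norm_zero] at h7
  have h8 : 0 < ‖bf (C 0) b‖ * ε ^ n := mul_pos (norm_pos_iff.2 hb) (pow_pos hε0 n)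
  linarith

private theorem gd_near {y a : Vd (k + 1)} {𝒰 : Ultrafilter ℕ} {w : ℕ → ℂ → EN m} {h : ℕ → ℂ → Vd (k + 1)} {g : ℂ → MN m} (S : LT m θ D y a 𝒰 w h g)
    (z₀ : ℂ) (R : ℝ) {ε : ℝ} (hε : 0 < ε) :
    ∀ᶠ n in (𝒰 : Filter ℕ), DifferentiableOn ℂ (fun z => h n (z₀ + z)) (ball 0 R) ∧ DifferentiableOn ℂ (fun z => w n (z₀ + z)) (ball 0 R) ∧
      (∀ z ∈ ball (0 : ℂ) R, rs (tv θ (h n (z₀ + z))) (w n (z₀ + z)) ≠ 0) ∧ ∀ z ∈ ball (0 : ℂ) R, ‖h n (z₀ + z) - (y + z₀ • a + z • a)‖ < ε := by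
  have hm : ∀ z ∈ ball (0 : ℂ) R, z₀ + z ∈ ball (0 : ℂ) (‖z₀‖ + |R|) := by
    intro z hz
    rw [mem_ball_zero_iff] at hz ⊢
    have h1 := norm_add_le z₀ z
    have h2 := le_abs_self R
    linarith
  filter_upwards [S.cv (‖z₀‖ + |R|), S.hh (‖z₀‖ + |R|) ε hε] with n h1 h2
  have hd : DifferentiableOn ℂ (fun z : ℂ => z₀ + z) (ball 0 R) := by fun_prop
  refine ⟨h1.h_diff.comp hd hm, h1.w_diff.comp hd hm, fun z hz => h1.ne 0 _ (hm z hz), ?_⟩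
  intro z hz
  have h3 := h2 _ (ball_subset_closedBall (hm z hz))
  rwa [add_smul, ← add_assoc] at h3

theorem form_ne (P : PD Λ D Bad θ W) (hm : 0 < m) {y a : Vd (k + 1)} (ha : a ≠ 0) {𝒰 : Ultrafilter ℕ} {w : ℕ → ℂ → EN m} {h : ℕ → ℂ → Vd (k + 1)} {g : ℂ → MN m} (S : LT m θ D y a 𝒰 w h g)
    {z₀ : ℂ} (hz₀ : y + z₀ • a ∈ D) (hb : y + z₀ • a ∉ Bad a) : ∃ i, θ i (y + z₀ • a) ≠ 0 := by
  rcases P.form a ha _ hb with h1 | ⟨-, h1⟩
  · exact h1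
  exfalso
  obtain ⟨s, hs, hsD, hsa⟩ := P.good a ha _ hz₀ hb
  obtain ⟨ρ₀, hρ₀, H⟩ := one_hit hs hsD hz₀ hsa
  obtain ⟨r₁, hr₁, h2⟩ := Metric.eventually_nhds_iff_ball.1 h1
  obtain ⟨ρ, hρ, hρρ₀, hρa⟩ := exists_rad (a := a) hρ₀ hr₁
  obtain ⟨ε, hε, H⟩ := H ρ hρ hρρ₀
  obtain ⟨n, hn1, -, hn3, hn4⟩ := (gd_near S z₀ (4 * ρ) (lt_min hε (half_pos hr₁))).exists
  obtain ⟨z₁, hz₁, hz₁D, -⟩ := H _ hn1 fun z hz => (hn4 z hz).trans_le (min_le_left _ _)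
  have hz₁b : z₁ ∈ ball (0 : ℂ) (4 * ρ) := mem_ball_zero_iff.2 (by linarith)
  have h3 : h n (z₀ + z₁) ∈ ball (y + z₀ • a) r₁ := by
    rw [mem_ball_iff_norm]
    have h4 := (hn4 z₁ hz₁b).trans_le (min_le_right _ _)
    have h5 := hρa z₁ (mem_ball_zero_iff.1 hz₁b)
    have h6 : h n (z₀ + z₁) - (y + z₀ • a) = (h n (z₀ + z₁) - (y + z₀ • a + z₁ • a)) + z₁ • a := by abel
    rw [h6]
    have := norm_add_le (h n (z₀ + z₁) - (y + z₀ • a + z₁ • a)) (z₁ • a)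
    linarith
  have h7 := h2 _ h3 hz₁D
  apply hn3 z₁ hz₁b
  obtain ⟨v, hv, hv0⟩ := exists_root hm (w n (z₀ + z₁))
  refine (rs_zero (by omega) _ _).2 ⟨v, hv, ?_, hv0⟩
  rw [bf_tv]
  simp [Fo, h7]

/-- limits of the points of the curves -/
private theorem gd_lim {y a : Vd (k + 1)} {𝒰 : Ultrafilter ℕ} {w : ℕ → ℂ → EN m} {h : ℕ → ℂ → Vd (k + 1)} {g : ℂ → MN m} (S : LT m θ D y a 𝒰 w h g)
    (hD : IsClosed D) {ζ : ℕ → ℂ} {ζ₀ : ℂ} (hζ : Tendsto ζ 𝒰 (𝓝 ζ₀)) (h0 : y + ζ₀ • a ∉ D) :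
    ∃ x : EN m, x ≠ 0 ∧ pr x = g ζ₀ ∧ ∃ c : ℕ → ℂ, Tendsto (fun n => c n • w n (ζ n)) 𝒰 (𝓝 x) := by
  have hw : ∀ᶠ n in (𝒰 : Filter ℕ), w n (ζ n) ≠ 0 := by
    filter_upwards [S.cv (‖ζ₀‖ + 1), hζ.eventually (ball_mem_nhds ζ₀ one_pos)] with n h1 h2
    refine h1.w_ne _ ?_
    rw [mem_ball_zero_iff]
    rw [dist_eq_norm] at h2
    have := norm_add_le (ζ n - ζ₀) ζ₀
    rw [sub_add_cancel] at this
    linarith
  set c : ℕ → ℂ := fun n => ((‖w n (ζ n)‖⁻¹ : ℝ) : ℂ) with hc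
  have hc1 : ∀ᶠ n in (𝒰 : Filter ℕ), c n ≠ 0 ∧ c n • w n (ζ n) ∈ sphere (0 : EN m) 1 := by
    filter_upwards [hw] with n h1
    have h2 : 0 < ‖w n (ζ n)‖ := norm_pos_iff.2 h1
    constructor
    · simp only [hc]
      exact_mod_cast (inv_pos.2 h2).ne'
    · rw [mem_sphere_zero_iff_norm, norm_smul]
      simp only [hc, Complex.norm_real, norm_inv, norm_norm]
      exact inv_mul_cancel₀ h2.ne'
  obtain ⟨x, hx, hx2⟩ := (isCompact_sphere (0 : EN m) 1).ultrafilter_le_nhds (𝒰.map fun n => c n • w n (ζ n))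
    (le_principal_iff.2 (hc1.mono fun n hn => hn.2))
  have hx3 : Tendsto (fun n => c n • w n (ζ n)) 𝒰 (𝓝 x) := hx2
  have hx0 : x ≠ 0 := by
    rintro rfl
    simp at hx
  refine ⟨x, hx0, ?_, c, hx3⟩
  have h1 : Tendsto (fun n => pr (w n (ζ n))) 𝒰 (𝓝 (pr x)) := by
    refine ((continuousAt_pr hx0).tendsto.comp hx3).congr' ?_
    filter_upwards [hc1] with n hn
    simp only [Function.comp]
    exact pr_smul _ hn.1
  obtain ⟨Φ, hΦ, hΦ2⟩ := S.lift ζ₀ h0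
  have hg : ContinuousAt g ζ₀ := by
    have h2 : ContinuousAt (fun z => pr (Φ z)) ζ₀ := ContinuousAt.comp (g := pr) (continuousAt_pr hΦ2.self_of_nhds.1) hΦ.continuousAt
    refine h2.congr ?_
    filter_upwards [hΦ2] with z hz using hz.2.symm
  have h2 : Tendsto (fun n => g (ζ n)) 𝒰 (𝓝 (g ζ₀)) := hg.tendsto.comp hζ
  have h3 : ∀ᶠ z in 𝓝 ζ₀, y + z • a ∉ D := by
    have h4 : Continuous fun z : ℂ => y + z • a := by fun_prop
    exact h4.continuousAt.eventually (hD.isOpen_compl.mem_nhds h0)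
  obtain ⟨κ, hκ, h4⟩ := Metric.eventually_nhds_iff_ball.1 h3
  have h5 : Tendsto (fun n => dist (pr (w n (ζ n))) (g (ζ n))) 𝒰 (𝓝 0) := by
    rw [Metric.tendsto_nhds]
    intro ε hε
    filter_upwards [S.lim (closedBall ζ₀ (κ / 2)) (isCompact_closedBall _ _) (fun z hz => h4 z (closedBall_subset_ball (half_lt_self hκ) hz)) ε hε,
      hζ.eventually (closedBall_mem_nhds ζ₀ (half_pos hκ))] with n h6 h7
    rw [Real.dist_0_eq_abs, abs_of_nonneg dist_nonneg]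
    exact h6 _ h7
  have h6 := h1.dist h2
  have h7 := tendsto_nhds_unique h6 h5
  exact dist_eq_zero.1 h7

/-- the values of the forms at the roots over the circle -/
private theorem gd_lt {y a : Vd (k + 1)} {𝒰 : Ultrafilter ℕ} {w : ℕ → ℂ → EN m} {h : ℕ → ℂ → Vd (k + 1)} {g : ℂ → MN m} (S : LT m θ D y a 𝒰 w h g)
    (hD : IsClosed D) {z₀ : ℂ} {z₁ : ℕ → ℂ} (hz₁ : Tendsto z₁ 𝒰 (𝓝 0)) {N : ℕ} {s η : ℝ} (hL : ∀ τ ∈ sphere (0 : ℂ) s, y + (z₀ + τ ^ N) • a ∉ D)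
    {e e' : ℂ → ℂ} (he : ContinuousOn e (sphere 0 s)) (he' : ContinuousOn e' (sphere 0 s)) {b v : EN 1}
    (h1 : ∀ τ ∈ sphere (0 : ℂ) s, ∀ x : EN m, x ≠ 0 → pr x = g (z₀ + τ ^ N) → bf x (e τ • b + v) = 0 ∧ bf x (e' τ • b + v) ≠ 0)
    {Q : ℕ → ℂ → ℂ → Prop} (hQ : ∀ ε : ℝ, 0 < ε → ∀ᶠ n in (𝒰 : Filter ℕ), ∀ τ ∈ sphere (0 : ℂ) s, ∀ t, Q n τ t → (‖t - e τ‖ ≤ η → ‖t - e τ‖ < ε) ∧ (‖t - e' τ‖ ≤ η → ‖t - e' τ‖ < ε)) :
    ∀ᶠ n in (𝒰 : Filter ℕ), ∀ τ ∈ sphere (0 : ℂ) s, ∀ t t', Q n τ t → Q n τ t' → ‖t - e τ‖ ≤ η → ‖t' - e' τ‖ ≤ η →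
      ‖bf (w n (z₀ + (z₁ n + τ ^ N))) (t • b + v)‖ < ‖bf (w n (z₀ + (z₁ n + τ ^ N))) (t' • b + v)‖ := by
  by_contra hcon
  rw [← Ultrafilter.eventually_not] at hcon
  push Not at hcon
  choose! τ hτ t t' hQt hQt' ht ht' hle using fun n (hn : ∃ τ ∈ sphere (0 : ℂ) s, ∃ t t', Q n τ t ∧ Q n τ t' ∧ ‖t - e τ‖ ≤ η ∧ ‖t' - e' τ‖ ≤ η ∧
      ‖bf (w n (z₀ + (z₁ n + τ ^ N))) (t' • b + v)‖ ≤ ‖bf (w n (z₀ + (z₁ n + τ ^ N))) (t • b + v)‖) => hn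
  have hτs : ∀ᶠ n in (𝒰 : Filter ℕ), τ n ∈ sphere (0 : ℂ) s := hcon.mono fun n hn => hτ n hn
  obtain ⟨τ₀, hτ₀, hτ2⟩ := (isCompact_sphere (0 : ℂ) s).ultrafilter_le_nhds (𝒰.map τ) (le_principal_iff.2 hτs)
  have hτ3 : Tendsto τ 𝒰 (𝓝 τ₀) := hτ2
  have hτ4 : Tendsto τ 𝒰 (𝓝[sphere 0 s] τ₀) := tendsto_nhdsWithin_iff.2 ⟨hτ3, hτs⟩
  have hlim : ∀ (f : ℂ → ℂ) (u : ℕ → ℂ), ContinuousOn f (sphere 0 s) → (∀ ε : ℝ, 0 < ε → ∀ᶠ n in (𝒰 : Filter ℕ), ‖u n - f (τ n)‖ < ε) → Tendsto u 𝒰 (𝓝 (f τ₀)) := by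
    intro f u hf hu
    have h2 : Tendsto (fun n => f (τ n)) 𝒰 (𝓝 (f τ₀)) := (hf τ₀ hτ₀).tendsto.comp hτ4
    have h3 : Tendsto (fun n => u n - f (τ n)) 𝒰 (𝓝 0) := by
      rw [Metric.tendsto_nhds]
      intro ε hε
      filter_upwards [hu ε hε] with n hn
      rwa [dist_zero_right]
    have h4 := h3.add h2
    simpa using h4
  have ht1 := hlim e t he fun ε hε => by
    filter_upwards [hQ ε hε, hcon] with n h2 h3
    exact (h2 _ (hτ n h3) _ (hQt n h3)).1 (ht n h3)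
  have ht2 := hlim e' t' he' fun ε hε => by
    filter_upwards [hQ ε hε, hcon] with n h2 h3
    exact (h2 _ (hτ n h3) _ (hQt' n h3)).2 (ht' n h3)
  have hζ : Tendsto (fun n => z₀ + (z₁ n + τ n ^ N)) 𝒰 (𝓝 (z₀ + τ₀ ^ N)) := by
    have := tendsto_const_nhds (x := z₀) |>.add (hz₁.add (hτ3.pow N))
    simpa using this
  obtain ⟨x, hx0, hx, c, hc⟩ := gd_lim S hD hζ (hL τ₀ hτ₀)
  have hbf : ∀ (u : ℕ → ℂ) (u₀ : ℂ), Tendsto u 𝒰 (𝓝 u₀) → Tendsto (fun n => ‖bf (c n • w n (z₀ + (z₁ n + τ n ^ N))) (u n • b + v)‖) 𝒰 (𝓝 ‖bf x (u₀ • b + v)‖) := by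
    intro u u₀ hu
    have h2 := (bf_diff (n := m)).continuous.tendsto (x, u₀ • b + v)
    have h3 := h2.comp (hc.prodMk_nhds ((hu.smul_const b).add_const v))
    exact h3.norm
  have h2 := le_of_tendsto_of_tendsto (hbf t' _ ht2) (hbf t _ ht1) (by
    filter_upwards [hcon] with n hn
    rw [bf_smul, bf_smul, norm_mul, norm_mul]
    exact mul_le_mul_of_nonneg_left (hle n hn) (norm_nonneg _))
  obtain ⟨h3, h4⟩ := h1 τ₀ hτ₀ x hx0 hx
  rw [h3, norm_zero] at h2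
  exact h4 (norm_le_zero_iff.1 h2)

/-- a root of the limit form gives a root function on which the family of forms is `0` -/
private theorem gd_all {n : ℕ} {C : ℂ → EN n} {e : Fin d → ℂ → ℂ} {b e' : EN 1} {t₀ : ℂ} {ρ : ℝ} (hρ : 0 < ρ) (hC : DifferentiableOn ℂ C (ball 0 ρ)) (hb : bf (C 0) b ≠ 0) (h0 : bf (C 0) (t₀ • b + e') = 0)
    (hroot : ∀ τ ∈ ball (0 : ℂ) ρ, ∀ t, bf (C τ) (t • b + e') = 0 → ∃ i, t = e i τ) (he : ∀ i, DifferentiableOn ℂ (e i) (ball 0 ρ)) :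
    ∃ i, e i 0 = t₀ ∧ ∀ τ ∈ ball (0 : ℂ) ρ, bf (C τ) (e i τ • b + e') = 0 := by
  have h1 : ball (0 : ℂ) ρ ∈ 𝓝 (0 : ℂ) := ball_mem_nhds 0 hρ
  obtain ⟨i, h2, h3⟩ := gd_idx (hC.differentiableAt h1).continuousAt hb h0 (by
    filter_upwards [nhdsWithin_le_nhds h1] with τ hτ using hroot τ hτ) fun i => ((he i).differentiableAt h1).continuousAt
  refine ⟨i, h2, ?_⟩
  have h4 : DifferentiableOn ℂ (fun τ => bf (C τ) (e i τ • b + e')) (ball 0 ρ) :=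
    (bf_diff (n := n)).comp_differentiableOn (hC.prodMk (((he i).smul_const b).add_const e'))
  exact (h4.analyticOnNhd isOpen_ball).eqOn_zero_of_preconnected_of_frequently_eq_zero (convex_ball _ _).isPreconnected (mem_ball_self hρ) h3

private theorem gd_sep {ι : Type} [Finite ι] {f : ι → ι → ℂ → ℂ} {s : ℝ} (hs : 0 ≤ s) (hf : ∀ i j, ContinuousOn (f i j) (sphere 0 s)) (h : ∀ i j, i ≠ j → ∀ z ∈ sphere (0 : ℂ) s, f i j z ≠ 0) :
    ∃ δ : ℝ, 0 < δ ∧ ∀ i j, i ≠ j → ∀ z ∈ sphere (0 : ℂ) s, δ < ‖f i j z‖ := by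
  have h1 : ∀ᶠ δ in 𝓝[>] (0 : ℝ), ∀ i j, i ≠ j → ∀ z ∈ sphere (0 : ℂ) s, δ < ‖f i j z‖ := by
    refine eventually_all.2 fun i => eventually_all.2 fun j => ?_
    by_cases hij : i = j
    · exact Eventually.of_forall fun δ h2 => absurd hij h2
    obtain ⟨z₀, hz₀, hmin⟩ := (isCompact_sphere (0 : ℂ) s).exists_isMinOn (NormedSpace.sphere_nonempty.2 hs) ((hf i j).norm)
    filter_upwards [Ioo_mem_nhdsGT (norm_pos_iff.2 (h i j hij z₀ hz₀))] with δ hδ _ z hz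
    exact hδ.2.trans_le (hmin hz)
  obtain ⟨δ, h2, h3⟩ := (h1.and self_mem_nhdsWithin).exists
  exact ⟨δ, h3, h2⟩

theorem good (P : PD Λ D Bad θ W) (hm : 0 < m) {y a : Vd (k + 1)} (ha : a ≠ 0) {𝒰 : Ultrafilter ℕ} {w : ℕ → ℂ → EN m} {h : ℕ → ℂ → Vd (k + 1)} {g : ℂ → MN m} (S : LT m θ D y a 𝒰 w h g)
    (hn : n + n' = d) {G : ℂ → EN n} {H : ℂ → EN n'} (hGH : GH θ y a G H) (hx : ∀ z : ℂ, y + z • a ∉ D → ∀ v : EN 1, v ≠ 0 → (Zc θ y a g z v ↔ bf (G z) v = 0))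
    {z₀ : ℂ} (hz₀ : y + z₀ • a ∈ D) (hb : y + z₀ • a ∉ Bad a) : rs (G z₀) (H z₀) ≠ 0 := by
  classical
  have hd1 : 0 < d := by have := P.deg; omega
  intro hrs
  obtain ⟨v₀, hv₀, hvG, hvH⟩ := (rs_zero (by omega) _ _).1 hrs
  set p := y + z₀ • a with hp
  obtain ⟨b, hbp⟩ := exists_b (form_ne P hm ha S hz₀ hb)
  have hb0 : b ≠ 0 := by
    rintro rfl
    apply hbp
    have h1 := fo_smul θ p 0 (0 : EN 1)
    rw [zero_smul, zero_pow hd1.ne', zero_mul] at h1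
    exact h1
  obtain ⟨e, hbe⟩ := exists_e hb0
  obtain ⟨c, hcd, hc⟩ := exists_coef P.an b e
  obtain ⟨s, hs, hsD, hsa⟩ := P.good a ha p hz₀ hb
  obtain ⟨ρ₀, hρ₀, H0⟩ := one_hit hs hsD hz₀ hsa
  -- the form is not `0` at `b` near `p`
  have hFb : Differentiable ℂ fun y => Fo θ y b := by
    have h1 := (fo_diff P.an).comp ((differentiable_id : Differentiable ℂ fun y : Vd (k + 1) => y).prodMk (differentiable_const b))
    exact h1
  obtain ⟨r₁, hr₁, hFr⟩ : ∃ r₁ : ℝ, 0 < r₁ ∧ ∀ y' ∈ closedBall p r₁, Fo θ y' b ≠ 0 := by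
    have h1 : ∀ᶠ y' in 𝓝 p, Fo θ y' b ≠ 0 := hFb.continuous.continuousAt.eventually_ne hbp
    obtain ⟨r₁, hr₁, h2⟩ := Metric.eventually_nhds_iff_ball.1 h1
    exact ⟨r₁ / 2, half_pos hr₁, fun y' hy' => h2 _ (closedBall_subset_ball (half_lt_self hr₁) hy')⟩
  obtain ⟨ρ, hρ, hρρ₀, hρa⟩ := exists_rad (a := a) hρ₀ hr₁
  obtain ⟨ε, hε, H1⟩ := H0 ρ hρ hρρ₀
  -- the line
  set L : ℂ → Vd (k + 1) := fun z => p + z • a with hL
  have hLd : Differentiable ℂ L := by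
    simp only [hL]; fun_prop
  have hLK : ∀ z ∈ ball (0 : ℂ) (2 * ρ), L z ∈ closedBall p r₁ := by
    intro z hz
    rw [mem_closedBall_iff_norm, hL]
    simp only [add_sub_cancel_left]
    have h1 := hρa z (by have := mem_ball_zero_iff.1 hz; linarith)
    linarith
  have hLD : ∀ z ∈ ball (0 : ℂ) (2 * ρ), z ≠ 0 → L z ∉ D := by
    obtain ⟨z₁, -, -, h3⟩ := H1 L hLd.differentiableOn fun z _ => by
      simpa [hL] using hε
    have h0 : (0 : ℂ) = z₁ := h3 0 (mem_ball_self (by linarith)) (by simpa [hL] using hz₀)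
    intro z hz hz0 hzD
    exact hz0 ((h3 z hz hzD).trans h0.symm)
  have hline : ∀ z : ℂ, y + (z₀ + z) • a = L z := by
    intro z
    simp only [hL, hp, add_smul]
    abel
  -- the family over the line
  set cL := cf θ c b L with hcL
  have hLan : ∀ i, DifferentiableOn ℂ (cL i) (ball 0 (2 * ρ)) := by
    intro i
    simp only [hcL]
    unfold cf
    refine DifferentiableOn.div ?_ ?_ fun z hz => hFr _ (hLK z hz)
    · exact ((hcd i).comp hLd).differentiableOn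
    · exact (hFb.comp hLd).differentiableOn
  have hLs : ∀ z ∈ ball (0 : ℂ) (2 * ρ), z ≠ 0 → ∀ t, Pt cL z t = 0 → deriv (Pt cL z) t ≠ 0 := fun z hz hz0 t ht =>
    simple_pt P.an hbe hc (hFr _ (hLK z hz)) (P.simple _ (hLD z hz hz0)) t ht
  obtain ⟨N, hN, ρ', hρ', hρN, E, hEd, hEp⟩ := roots_pow (by linarith : 0 < 2 * ρ) hLan hLs
  have hpow : ∀ τ ∈ ball (0 : ℂ) ρ', τ ^ N ∈ ball (0 : ℂ) (2 * ρ) := by
    intro τ hτ
    rw [mem_ball_zero_iff] at hτ ⊢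
    rw [norm_pow]
    exact (pow_lt_pow_left₀ hτ (norm_nonneg _) hN.ne').trans_le hρN
  have hpow0 : ∀ τ : ℂ, τ ≠ 0 → τ ^ N ≠ 0 := fun τ h0 => pow_ne_zero _ h0
  have hmul : ∀ (z : ℂ) (v : EN 1), Fo θ (L z) v = bf (G (z₀ + z)) v * bf (H (z₀ + z)) v := by
    intro z v
    rw [← hline]
    exact hGH.mul _ _
  have hoff : ∀ τ ∈ ball (0 : ℂ) ρ', τ ≠ 0 → y + (z₀ + τ ^ N) • a ∉ D := by
    intro τ hτ h0
    rw [hline]
    exact hLD _ (hpow τ hτ) (hpow0 τ h0)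
  have hE0 : ∀ τ ∈ ball (0 : ℂ) ρ', ∀ t, Fo θ (L (τ ^ N)) (t • b + e) = 0 → ∃ i, t = E i τ := by
    intro τ hτ t ht
    rw [fo_pt hc (hFr _ (hLK _ (hpow τ hτ)))] at ht
    have h1 := (mul_eq_zero.1 ht).resolve_left (hFr _ (hLK _ (hpow τ hτ)))
    rw [hEp τ hτ, Finset.prod_eq_zero_iff] at h1
    obtain ⟨i, -, hi⟩ := h1
    exact ⟨i, sub_eq_zero.1 hi⟩
  have hinj : ∀ τ ∈ ball (0 : ℂ) ρ', τ ≠ 0 → ∀ i j, i ≠ j → E i τ ≠ E j τ := by
    intro τ hτ h0 i j hij heq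
    have h1 : Pol cL (τ ^ N) = ∏ i, (Polynomial.X - Polynomial.C (E i τ)) := by
      refine Polynomial.funext fun t => ?_
      rw [eval_Pol, hEp τ hτ, Polynomial.eval_prod]
      refine Finset.prod_congr rfl fun i _ => by simp
    have h2 := Pol_separable (hLs _ (hpow τ hτ) (hpow0 τ h0))
    rw [h1] at h2
    exact hij (h2.injective_of_prod_X_sub_C heq)
  -- the common zero
  have hp0 : Fo θ p v₀ = 0 := by
    have h1 := hmul 0 v₀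
    simp only [hL, zero_smul, add_zero] at h1
    rw [h1, hvG, zero_mul]
  obtain ⟨hdv, hv⟩ := rt_dt hbe hbp hv₀ hp0
  set t₀ := -(dt e v₀) / dt b v₀ with ht₀
  have hsc : dt b v₀ / dt b e ≠ 0 := div_ne_zero hdv hbe
  have htG : bf (G z₀) (t₀ • b + e) = 0 := by
    rw [hv, bf_smul_v] at hvG
    exact (mul_eq_zero.1 hvG).resolve_left (pow_ne_zero _ hsc)
  have htH : bf (H z₀) (t₀ • b + e) = 0 := by
    rw [hv, bf_smul_v] at hvH
    exact (mul_eq_zero.1 hvH).resolve_left (pow_ne_zero _ hsc)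
  have hbG : bf (G z₀) b ≠ 0 ∧ bf (H z₀) b ≠ 0 := by
    have h1 := hmul 0 b
    simp only [hL, zero_smul, add_zero] at h1
    rw [h1] at hbp
    exact mul_ne_zero_iff.1 hbp
  have hγ : Differentiable ℂ fun τ : ℂ => z₀ + τ ^ N := by fun_prop
  have hz00 : z₀ + (0 : ℂ) ^ N = z₀ := by rw [zero_pow hN.ne', add_zero]
  obtain ⟨i, hi0, hi⟩ := gd_all (C := fun τ => G (z₀ + τ ^ N)) (e := E) (b := b) (e' := e) (t₀ := t₀) hρ' (hGH.G_diff.comp hγ).differentiableOn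
    (by simp only [hz00]; exact hbG.1) (by simp only [hz00]; exact htG) (fun τ hτ t ht => hE0 τ hτ t (by rw [hmul, ht, zero_mul])) hEd
  obtain ⟨j, hj0, hj⟩ := gd_all (C := fun τ => H (z₀ + τ ^ N)) (e := E) (b := b) (e' := e) (t₀ := t₀) hρ' (hGH.H_diff.comp hγ).differentiableOn
    (by simp only [hz00]; exact hbG.2) (by simp only [hz00]; exact htH) (fun τ hτ t ht => hE0 τ hτ t (by rw [hmul, ht, mul_zero])) hEd
  have hjG : ∀ τ ∈ ball (0 : ℂ) ρ', τ ≠ 0 → bf (G (z₀ + τ ^ N)) (E j τ • b + e) ≠ 0 := by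
    intro τ hτ h0 h1
    refine rs_off P hn (hoff τ hτ h0) (hGH.mul _) ((rs_zero (by omega) _ _).2 ⟨_, line_ne hbe _, h1, hj τ hτ⟩)
  have hij : i ≠ j := by
    rintro rfl
    have h1 : ((ρ' / 2 : ℝ) : ℂ) ∈ ball (0 : ℂ) ρ' := by
      rw [mem_ball_zero_iff, Complex.norm_real, Real.norm_eq_abs, abs_of_pos (by linarith)]
      linarith
    have h2 : ((ρ' / 2 : ℝ) : ℂ) ≠ 0 := by exact_mod_cast (half_pos hρ').ne'
    exact hjG _ h1 h2 (hi _ h1)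
  -- the radii
  obtain ⟨q₁, hq₁⟩ : ∃ q₁, q₁ = ρ' / 2 := ⟨_, rfl⟩
  obtain ⟨q₂, hq₂⟩ : ∃ q₂, q₂ = 3 * ρ' / 4 := ⟨_, rfl⟩
  have hq₁0 : 0 < q₁ := by rw [hq₁]; linarith
  have hq₂0 : 0 < q₂ := by rw [hq₂]; linarith
  have hq12 : q₁ < q₂ := by rw [hq₁, hq₂]; linarith
  have hq2ρ : q₂ < ρ' := by rw [hq₂]; linarith
  have hsub : ball (0 : ℂ) q₂ ⊆ ball 0 ρ' := ball_subset_ball hq2ρ.le
  have hcs : closedBall (0 : ℂ) q₁ ⊆ ball 0 q₂ := closedBall_subset_ball hq12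
  have hss : sphere (0 : ℂ) q₁ ⊆ closedBall 0 q₁ := sphere_subset_closedBall
  have hs0 : ∀ τ ∈ sphere (0 : ℂ) q₁, τ ≠ 0 := by
    rintro τ hτ rfl
    rw [mem_sphere_zero_iff_norm, norm_zero] at hτ
    exact hq₁0.ne hτ
  -- the hits of the curves
  have hnear := gd_near S z₀ (4 * ρ) (lt_min hε (half_pos hr₁))
  have hex : ∀ᶠ n in (𝒰 : Filter ℕ), ∃ z₁ : ℂ, ∀ z ∈ ball (0 : ℂ) (2 * ρ), h n (z₀ + z) ∈ D → z = z₁ := by
    filter_upwards [hnear] with n hn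
    obtain ⟨z₁, -, -, h7⟩ := H1 _ hn.1 fun z hz => (hn.2.2.2 z hz).trans_le (min_le_left _ _)
    exact ⟨z₁, h7⟩
  choose! z₁ hz₁ using fun n (hn : ∃ z₁ : ℂ, ∀ z ∈ ball (0 : ℂ) (2 * ρ), h n (z₀ + z) ∈ D → z = z₁) => hn
  have hz₁t : Tendsto z₁ 𝒰 (𝓝 0) := by
    rw [Metric.tendsto_nhds]
    intro κ hκ
    obtain ⟨ε', hε', H2⟩ := H0 (min ρ κ) (lt_min hρ hκ) ((min_le_left _ _).trans hρρ₀)
    filter_upwards [gd_near S z₀ (4 * min ρ κ) hε', hex] with n h1 h2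
    obtain ⟨z, h3, h4, -⟩ := H2 _ h1.1 h1.2.2.2
    have h5 := min_le_left ρ κ
    have h6 := min_le_right ρ κ
    have h7 := hz₁ n h2 z (mem_ball_zero_iff.2 (by linarith)) h4
    rw [dist_zero_right, ← h7]
    linarith
  have hpt : ∀ᶠ n in (𝒰 : Filter ℕ), ∀ τ ∈ ball (0 : ℂ) q₂, z₁ n + τ ^ N ∈ ball (0 : ℂ) (2 * ρ) := by
    have h1 : 0 < ρ' ^ N - q₂ ^ N := sub_pos.2 (pow_lt_pow_left₀ hq2ρ hq₂0.le hN.ne')
    filter_upwards [hz₁t.eventually (ball_mem_nhds 0 h1)] with n h2 τ hτ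
    rw [dist_zero_right] at h2
    rw [mem_ball_zero_iff] at hτ ⊢
    have h3 := norm_add_le (z₁ n) (τ ^ N)
    rw [norm_pow] at h3
    have h4 := pow_lt_pow_left₀ hτ (norm_nonneg _) hN.ne'
    linarith
  obtain ⟨γ, hγe⟩ : ∃ γ : ℕ → ℂ → Vd (k + 1), γ = fun n τ => h n (z₀ + (z₁ n + τ ^ N)) := ⟨_, rfl⟩
  have h24 : ball (0 : ℂ) (2 * ρ) ⊆ ball 0 (4 * ρ) := ball_subset_ball (by linarith)
  have hγK : ∀ᶠ n in (𝒰 : Filter ℕ), ∀ τ ∈ ball (0 : ℂ) q₂, γ n τ ∈ closedBall p r₁ := by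
    filter_upwards [hpt, hnear] with n h1 h2 τ hτ
    have hz' := h24 (h1 τ hτ)
    rw [mem_closedBall_iff_norm, hγe]
    have h5 := (h2.2.2.2 _ hz').trans_le (min_le_right _ _)
    have h6 := hρa _ (mem_ball_zero_iff.1 hz')
    have h7 : h n (z₀ + (z₁ n + τ ^ N)) - p = (h n (z₀ + (z₁ n + τ ^ N)) - (y + z₀ • a + (z₁ n + τ ^ N) • a)) + (z₁ n + τ ^ N) • a := by
      rw [hp]; abel
    simp only
    rw [h7]
    have := norm_add_le (h n (z₀ + (z₁ n + τ ^ N)) - (y + z₀ • a + (z₁ n + τ ^ N) • a)) ((z₁ n + τ ^ N) • a)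
    linarith
  have hγD : ∀ᶠ n in (𝒰 : Filter ℕ), ∀ τ ∈ ball (0 : ℂ) q₂, τ ≠ 0 → γ n τ ∉ D := by
    filter_upwards [hpt, hex] with n h1 h2 τ hτ h0 h3
    rw [hγe] at h3
    have h4 := hz₁ n h2 _ (h1 τ hτ) h3
    exact hpow0 τ h0 (by simpa using h4)
  have hpd : ∀ n, DifferentiableOn ℂ (fun τ : ℂ => z₁ n + τ ^ N) (ball 0 q₂) := fun n => by fun_prop
  have hγd : ∀ᶠ n in (𝒰 : Filter ℕ), DifferentiableOn ℂ (γ n) (ball 0 q₂) := by
    filter_upwards [hpt, hnear] with n h1 h2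
    rw [hγe]
    exact h2.1.comp (hpd n) fun τ hτ => h24 (h1 τ hτ)
  have hγw : ∀ᶠ n in (𝒰 : Filter ℕ), DifferentiableOn ℂ (fun τ => w n (z₀ + (z₁ n + τ ^ N))) (ball 0 q₂) := by
    filter_upwards [hpt, hnear] with n h1 h2
    exact h2.2.1.comp (hpd n) fun τ hτ => h24 (h1 τ hτ)
  have hγn : ∀ᶠ n in (𝒰 : Filter ℕ), ∀ τ ∈ ball (0 : ℂ) q₂, rs (tv θ (γ n τ)) (w n (z₀ + (z₁ n + τ ^ N))) ≠ 0 := by
    filter_upwards [hpt, hnear] with n h1 h2 τ hτ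
    rw [hγe]
    exact h2.2.2.1 _ (h24 (h1 τ hτ))
  have hγc : ∀ η : ℝ, 0 < η → ∀ᶠ n in (𝒰 : Filter ℕ), ∀ τ ∈ closedBall (0 : ℂ) q₁, ‖γ n τ - L (τ ^ N)‖ < η := by
    intro η hη
    have h1 : Tendsto (fun n => ‖z₁ n • a‖) 𝒰 (𝓝 0) := by
      have := (hz₁t.smul_const a).norm
      simpa using this
    filter_upwards [hpt, gd_near S z₀ (4 * ρ) (half_pos hη), h1.eventually (gt_mem_nhds (half_pos hη))] with n h2 h3 h4 τ hτ
    have h5 := h3.2.2.2 _ (h24 (h2 τ (hcs hτ)))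
    have h6 : γ n τ - L (τ ^ N) = (h n (z₀ + (z₁ n + τ ^ N)) - (y + z₀ • a + (z₁ n + τ ^ N) • a)) + z₁ n • a := by
      rw [hγe]
      simp only [hL, hp, add_smul]
      abel
    rw [h6]
    have := norm_add_le (h n (z₀ + (z₁ n + τ ^ N)) - (y + z₀ • a + (z₁ n + τ ^ N) • a)) (z₁ n • a)
    linarith
  -- the families over the curves
  obtain ⟨cn, hcn⟩ : ∃ cn : ℕ → Fin d → ℂ → ℂ, cn = fun n => cf θ c b (γ n) := ⟨_, rfl⟩
  have hcnd : ∀ᶠ n in (𝒰 : Filter ℕ), ∀ i, DifferentiableOn ℂ (cn n i) (ball 0 q₂) := by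
    filter_upwards [hγd, hγK] with n h1 h2 i
    rw [hcn]
    simp only
    unfold cf
    refine DifferentiableOn.div ?_ ?_ fun z hz => hFr _ (h2 z hz)
    · exact (hcd i).comp_differentiableOn h1
    · exact hFb.comp_differentiableOn h1
  have hcns : ∀ᶠ n in (𝒰 : Filter ℕ), ∀ τ ∈ ball (0 : ℂ) q₂, τ ≠ 0 → ∀ t, Pt (cn n) τ t = 0 → deriv (Pt (cn n) τ) t ≠ 0 := by
    filter_upwards [hγD, hγK] with n h1 h2 τ hτ h0 t ht
    rw [hcn] at ht ⊢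
    exact simple_pt P.an hbe hc (hFr _ (h2 τ hτ)) (P.simple _ (h1 τ hτ h0)) t ht
  obtain ⟨cT, hcT⟩ : ∃ cT : Fin d → ℂ → ℂ, cT = fun i τ => cL i (τ ^ N) := ⟨_, rfl⟩
  have hcTd : ∀ i, DifferentiableOn ℂ (cT i) (ball 0 q₂) := by
    intro i
    rw [hcT]
    exact (hLan i).comp (by fun_prop) fun τ hτ => hpow τ (hsub hτ)
  have hcTE : ∀ τ ∈ ball (0 : ℂ) ρ', ∀ t, (Pol cT τ).eval t = ∏ i, (t - E i τ) := by
    intro τ hτ t
    rw [eval_Pol, ← hEp τ hτ, hcT]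
    rfl
  have hconv : ∀ i, TendstoUniformlyOn (fun n z => (Pol (cn n) z).coeff i) (fun z => (Pol cT z).coeff i) 𝒰 (closedBall 0 q₁) := by
    refine conv_Pol fun i => ?_
    rw [hcn, hcT, hcL]
    unfold cf
    refine conv_comp (isCompact_closedBall p r₁) (ψ := fun y' => c i y' / Fo θ y' b) ((hcd i).continuous.continuousOn.div hFb.continuous.continuousOn hFr) hγc ?_
      fun z hz => hLK _ (hpow z (hsub (hcs hz)))
    filter_upwards [hγK] with n h2 z hz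
    exact h2 z (hcs hz)
  -- the bounds
  have hcK : ∃ M : ℝ, ∀ y' ∈ closedBall p r₁, ∀ i, ‖c i y' / Fo θ y' b‖ ≤ M := by
    have h1 : ∀ i, ∃ M : ℝ, ∀ y' ∈ closedBall p r₁, ‖c i y' / Fo θ y' b‖ ≤ M := by
      intro i
      exact (isCompact_closedBall p r₁).exists_bound_of_continuousOn ((hcd i).continuous.continuousOn.div hFb.continuous.continuousOn hFr)
    choose M hM using h1
    refine ⟨∑ i, |M i|, fun y' hy' i => ?_⟩
    refine (hM i _ hy').trans ((le_abs_self _).trans ?_)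
    exact Finset.single_le_sum (f := fun i => |M i|) (fun j _ => abs_nonneg _) (Finset.mem_univ i)
  obtain ⟨M₁, hM₁⟩ := hcK
  obtain ⟨M, hM⟩ : ∃ M : ℝ, M = max 1 (d * M₁) := ⟨_, rfl⟩
  have hM0 : 0 ≤ M := by rw [hM]; exact zero_le_one.trans (le_max_left _ _)
  have hEM : ∀ τ ∈ ball (0 : ℂ) ρ', ∀ i, ‖E i τ‖ ≤ M := by
    intro τ hτ i
    rw [hM]
    refine Pt_bound (c := cL) (z := τ ^ N) hd1 (fun l => ?_) ?_
    · exact hM₁ _ (hLK _ (hpow τ hτ)) l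
    · rw [hEp τ hτ, Finset.prod_eq_zero (Finset.mem_univ i) (sub_self _)]
  have hnM : ∀ᶠ n in (𝒰 : Filter ℕ), ∀ τ ∈ ball (0 : ℂ) q₂, ∀ t, Pt (cn n) τ t = 0 → ‖t‖ ≤ M := by
    filter_upwards [hγK] with n h1 τ hτ t ht
    rw [hM]
    refine Pt_bound (c := cn n) (z := τ) hd1 (fun l => ?_) ht
    rw [hcn]
    exact hM₁ _ (h1 τ hτ) l
  obtain ⟨δ, hδ, hsep⟩ := gd_sep (f := fun i j τ => E i τ - E j τ) hq₁0.le
    (fun i j => ((((hEd i).sub (hEd j)).continuousOn).mono ((hss.trans hcs).trans hsub)))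
    fun i j hij τ hτ => sub_ne_zero.2 (hinj τ (hsub (hcs (hss hτ))) (hs0 τ hτ) i j hij)
  obtain ⟨η, hη⟩ : ∃ η, η = δ / 4 := ⟨_, rfl⟩
  have hη0 : 0 < η := by rw [hη]; linarith
  have hsep4 : ∀ τ ∈ sphere (0 : ℂ) q₁, ∀ i j, i ≠ j → 4 * η < ‖E i τ - E j τ‖ := by
    intro τ hτ i j hij
    have h1 := hsep i j hij τ hτ
    rw [hη]
    linarith
  have hmatch : ∀ ε' : ℝ, 0 < ε' → ε' ≤ η → ∀ᶠ n in (𝒰 : Filter ℕ), ∀ τ ∈ sphere (0 : ℂ) q₁, (∀ i, ∃ x, Pt (cn n) τ x = 0 ∧ ‖x - E i τ‖ < ε') ∧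
      (∀ x, Pt (cn n) τ x = 0 → ∃ i, ‖x - E i τ‖ < ε') ∧
      ∀ i x x', Pt (cn n) τ x = 0 → Pt (cn n) τ x' = 0 → ‖x - E i τ‖ ≤ 2 * ε' → ‖x' - E i τ‖ ≤ 2 * ε' → x = x' := by
    intro ε' hε' hle
    have hce := conv_eval (l := (𝒰 : Filter ℕ)) (P := fun n => Pol (cn n)) (P' := Pol cT) (d := d) (ρ := q₂) hq12
      (hcnd.mono fun n h1 => LFam_Pol hd1 h1) (LFam_Pol hd1 hcTd) hconv hM0 (half_pos (pow_pos hε' d))
    filter_upwards [hce, hnM] with n h1 h2 τ hτ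
    have h3 := hsub (hcs (hss hτ))
    refine gd_match hε' (hEM τ h3) (h2 τ (hcs (hss hτ))) (fun i j hij => ?_) fun x hx => ?_
    · have := hsep4 τ hτ i j hij
      linarith
    · have h4 := (h1 τ (hss hτ) x hx).1
      rw [hcTE τ h3, eval_Pol] at h4
      exact h4.trans_lt (half_lt_self (pow_pos hε' d))
  have hnr : ∀ τ ∈ sphere (0 : ℂ) q₁, ∀ (ε' : ℝ) (x : ℂ) (i l : Fin d), ε' ≤ η → ‖x - E i τ‖ ≤ 2 * η → ‖x - E l τ‖ < ε' → i = l := by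
    intro τ hτ ε' x i l h1 h2 h3
    by_contra hne
    have h4 := hsep4 τ hτ i l hne
    have h5 : E i τ - E l τ = (x - E l τ) - (x - E i τ) := by ring
    rw [h5] at h4
    have h6 := norm_sub_le (x - E l τ) (x - E i τ)
    linarith
  have hQ : ∀ ε' : ℝ, 0 < ε' → ∀ᶠ n in (𝒰 : Filter ℕ), ∀ τ ∈ sphere (0 : ℂ) q₁, ∀ t, Pt (cn n) τ t = 0 →
      (‖t - E i τ‖ ≤ η → ‖t - E i τ‖ < ε') ∧ (‖t - E j τ‖ ≤ η → ‖t - E j τ‖ < ε') := by
    intro ε' hε'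
    filter_upwards [hmatch (min ε' η) (lt_min hε' hη0) (min_le_right _ _)] with n h1 τ hτ t ht
    obtain ⟨l, hl⟩ := (h1 τ hτ).2.1 t ht
    refine ⟨fun h2 => ?_, fun h2 => ?_⟩
    · rw [hnr τ hτ _ t i l (min_le_right _ _) (by linarith) hl]
      exact hl.trans_le (min_le_left _ _)
    · rw [hnr τ hτ _ t j l (min_le_right _ _) (by linarith) hl]
      exact hl.trans_le (min_le_left _ _)
  have hEc : ∀ i, ContinuousOn (E i) (sphere 0 q₁) := fun i => ((hEd i).continuousOn).mono ((hss.trans hcs).trans hsub)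
  have hlt := gd_lt S P.D_closed hz₁t (N := N) (s := q₁) (η := η) (fun τ hτ => hoff τ (hsub (hcs (hss hτ))) (hs0 τ hτ)) (hEc i) (hEc j) (b := b) (v := e) (by
    intro τ hτ x hx0 hxg
    have h1 := hsub (hcs (hss hτ))
    have h2 := hoff τ h1 (hs0 τ hτ)
    refine ⟨((hx _ h2 _ (line_ne hbe _)).2 (hi τ h1)).2 x hx0 hxg, fun h3 => ?_⟩
    refine hjG τ h1 (hs0 τ hτ) ((hx _ h2 _ (line_ne hbe _)).1 ⟨?_, fun x' hx' hxg' => ?_⟩)
    · rw [hGH.mul, hj τ h1, mul_zero]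
    · obtain ⟨s, -, rfl⟩ := (pr_eq_iff hx' hx0).1 (hxg'.trans hxg.symm)
      rw [bf_smul, h3, mul_zero]) (Q := fun n τ t => Pt (cn n) τ t = 0) hQ
  obtain ⟨n₀, h1, h2, h3, h4, h5, h6, h7, h8⟩ := (hlt.and ((hmatch η hη0 le_rfl).and (hcnd.and (hcns.and (hγw.and (hγn.and (hγK.and hγd))))))).exists
  refine gd_core hq₁0 hq12 hη0 h3 h4 (e := E) (fun i => (hEd i).mono hsub) (fun i τ hτ => ?_) (fun i τ hτ t ht hle => ?_) (fun i τ hτ t t' => (h2 τ hτ).2.2 i t t')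
    (i := i) (j := j) (fun τ hτ => hsep4 τ hτ i j hij) (B := fun τ t => bf (w n₀ (z₀ + (z₁ n₀ + τ ^ N))) (t • b + e)) (fun f hf => ?_) (fun τ hτ t ht h0 => ?_) h1 (hi0.trans hj0.symm)
  · obtain ⟨t, ht, hle⟩ := (h2 τ hτ).1 i
    exact ⟨t, ht, hle.le⟩
  · obtain ⟨l, hl⟩ := (h2 τ hτ).2.1 t ht
    rw [hnr τ hτ _ t i l le_rfl hle hl]
    exact hl.le
  · exact (bf_diff (n := m)).comp_differentiableOn (h5.prodMk ((hf.smul_const b).add_const e))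
  · refine h6 τ hτ ((rs_zero (by omega) _ _).2 ⟨_, line_ne hbe t, ?_, h0⟩)
    rw [bf_tv, fo_pt (γ := γ n₀) hc (hFr _ (h7 τ hτ))]
    rw [hcn] at ht
    rw [ht, mul_zero]

end Pool.Agent.TM
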