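import Pool.Agent.TM.Mult
import Pool.Agent.G4.U.UStar
import Pool.Agent.G4.A.GeoC

/-!
# TM NoGH: there is no such factorization

As `PX/NoR.lean` (`core`, `PD.no_root`), with `K z = rs (G z) (H z)`, `κ z = ‖(fun j => (G z j) ^ (n' - n) / K z)‖ * exp (n * wt W (y + z a))`, `j : Fin (n + 1)` in the place of `Fin 2`, the exponent `n' - n > 0` in the place of `d - 2`, the weight `n * wt W`, `n > 0`, in the place of `wt W`
(for the lemma `kmax` use the weight `n * wt W = wt W'`, `W' i = √n • W i`), `rs_lo` and `mult_gh` in the place of `grad_lo` and `mult`.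
-/

set_option autoImplicit false

open Topology Filter Metric

namespace Pool.Agent.TM

open Pool.Agent.H36.BP (EN)
open Pool.Agent.AD (Vd)
open Pool.Agent.TG (Lat Gd)
open Pool.Agent.G3 (wt TT)
open Pool.Agent.G4.A (LG LC exists_lc hits_closed)
open Pool.Agent.PX (Fo dt PD)

variable {k d r n m n' : ℕ} {Λ : AddSubgroup (Vd (k + 1))} {D : Set (Vd (k + 1))} {Bad : Vd (k + 1) → Set (Vd (k + 1))} {θ : Fin (d + 1) → Vd (k + 1) → ℂ} {W : Fin r → Vd (k + 1) →L[ℂ] ℂ}

/-- the weighted norm of a vector of functions -/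
private noncomputable def kp (W : Fin r → Vd (k + 1) →L[ℂ] ℂ) (F : Fin (n + 1) → ℂ → ℂ) (y a : Vd (k + 1)) (x : ℂ) : ℝ :=
  ‖(fun j => F j x : Fin (n + 1) → ℂ)‖ * Real.exp (wt W (y + x • a))

private theorem kp_nonneg (F : Fin (n + 1) → ℂ → ℂ) (y a : Vd (k + 1)) (x : ℂ) : 0 ≤ kp W F y a x := mul_nonneg (norm_nonneg _) (Real.exp_pos _).le

private theorem nsq_add (A h : ℂ) : ‖A + h‖ ^ 2 = ‖A‖ ^ 2 + (2 * (starRingEnd ℂ) A * h).re + ‖h‖ ^ 2 := by
  rw [Complex.sq_norm, Complex.sq_norm, Complex.sq_norm, Complex.normSq_apply, Complex.normSq_apply, Complex.normSq_apply]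
  simp only [Complex.add_re, Complex.add_im, Complex.mul_re, Complex.mul_im, Complex.conj_re, Complex.conj_im, Complex.re_ofNat, Complex.im_ofNat]
  ring

/-- the weight along a line is a quadratic polynomial -/
private theorem qexp (W : Fin r → Vd (k + 1) →L[ℂ] ℂ) (y a : Vd (k + 1)) (z : ℂ) :
    ∃ L : ℂ, ∀ h : ℂ, wt W (y + (z + h) • a) = wt W (y + z • a) + (L * h).re + wt W a * ‖h‖ ^ 2 := by
  refine ⟨∑ i, 2 * (starRingEnd ℂ) (W i (y + z • a)) * W i a, fun h => ?_⟩
  simp only [wt]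
  rw [Finset.sum_mul, Complex.re_sum, Finset.sum_mul, ← Finset.sum_add_distrib, ← Finset.sum_add_distrib]
  refine Finset.sum_congr rfl fun i _ => ?_
  have e : W i (y + (z + h) • a) = W i (y + z • a) + h * W i a := by
    rw [add_smul, ← add_assoc, map_add, map_smul, smul_eq_mul]
  rw [e, nsq_add, norm_mul, mul_pow]
  have e2 : 2 * (starRingEnd ℂ) (W i (y + z • a)) * (h * W i a) = 2 * (starRingEnd ℂ) (W i (y + z • a)) * W i a * h := by ring
  rw [e2]
  ring

/-- the maximum principle -/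
private theorem kmax {F : Fin (n + 1) → ℂ → ℂ} {y a : Vd (k + 1)} {z : ℂ} {s s' : ℝ} (hs : 0 < s) (hs' : s < s') (hF : ∀ j, ∀ x ∈ closedBall z s, DifferentiableAt ℂ (F j) x)
    {g : ℂ → ℂ} (hg : DifferentiableOn ℂ g (ball z s')) {S : ℝ} (hS : ∀ w : ℂ, dist w z = s → kp W F y a w * ‖g w‖ ≤ S) :
    kp W F y a z * ‖g z‖ ≤ Real.exp (-(wt W a * s ^ 2)) * S := by
  obtain ⟨L, hL⟩ := qexp W y a z
  have hQL : ∀ x : ℂ, dist x z = s → wt W (y + x • a) = wt W (y + z • a) + (L * (x - z)).re + wt W a * s ^ 2 := by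
    intro x hx
    have h1 := hL (x - z)
    rw [add_sub_cancel] at h1
    rw [← dist_eq_norm, hx] at h1
    exact h1
  have hS0 : 0 ≤ S := by
    have h1 := hS (z + s) (by rw [dist_eq_norm, add_sub_cancel_left, Complex.norm_real, Real.norm_eq_abs, abs_of_pos hs])
    exact (mul_nonneg (kp_nonneg F y a _) (norm_nonneg _)).trans h1
  have hj : ∀ j, ‖F j z‖ * ‖g z‖ ≤ Real.exp (-wt W (y + z • a) - wt W a * s ^ 2) * S := by
    intro j
    set H : ℂ → ℂ := fun x => F j x * g x * Complex.exp (L * (x - z)) with hH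
    have hHd : DiffContOnCl ℂ H (ball z s) := by
      have h1 : ∀ x ∈ closedBall z s, DifferentiableAt ℂ H x := by
        intro x hx
        have h2 : DifferentiableAt ℂ g x := hg.differentiableAt (isOpen_ball.mem_nhds (closedBall_subset_ball hs' hx))
        have h3 : DifferentiableAt ℂ (fun x : ℂ => Complex.exp (L * (x - z))) x := by fun_prop
        exact ((hF j x hx).mul h2).mul h3
      refine ⟨fun x hx => (h1 x (ball_subset_closedBall hx)).differentiableWithinAt, ?_⟩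
      rw [closure_ball z hs.ne']
      exact fun x hx => (h1 x hx).continuousAt.continuousWithinAt
    have h4 : ‖H z‖ ≤ Real.exp (-wt W (y + z • a) - wt W a * s ^ 2) * S := by
      refine Complex.norm_le_of_forall_mem_frontier_norm_le isBounded_ball hHd (fun x hx => ?_) (subset_closure (mem_ball_self hs))
      rw [frontier_ball z hs.ne'] at hx
      have hxr : dist x z = s := mem_sphere.1 hx
      have h5 := hS x hxr
      have h6 : ‖H x‖ = ‖F j x‖ * ‖g x‖ * Real.exp (L * (x - z)).re := by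
        rw [hH]
        simp only
        rw [norm_mul, norm_mul, Complex.norm_exp]
      have h7 : (L * (x - z)).re = wt W (y + x • a) + (-wt W (y + z • a) - wt W a * s ^ 2) := by
        rw [hQL x hxr]
        ring
      rw [h6, h7, Real.exp_add]
      have h8 : ‖F j x‖ ≤ ‖(fun j => F j x : Fin (n + 1) → ℂ)‖ := norm_le_pi_norm (fun j => F j x : Fin (n + 1) → ℂ) j
      calc ‖F j x‖ * ‖g x‖ * (Real.exp (wt W (y + x • a)) * Real.exp (-wt W (y + z • a) - wt W a * s ^ 2))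
          ≤ ‖(fun j => F j x : Fin (n + 1) → ℂ)‖ * ‖g x‖ * (Real.exp (wt W (y + x • a)) * Real.exp (-wt W (y + z • a) - wt W a * s ^ 2)) := by gcongr
        _ = Real.exp (-wt W (y + z • a) - wt W a * s ^ 2) * (kp W F y a x * ‖g x‖) := by
            rw [kp]
            ring
        _ ≤ Real.exp (-wt W (y + z • a) - wt W a * s ^ 2) * S := mul_le_mul_of_nonneg_left h5 (Real.exp_pos _).le
    have h5 : ‖H z‖ = ‖F j z‖ * ‖g z‖ := by
      rw [hH]
      simp only
      rw [sub_self, mul_zero, Complex.exp_zero, mul_one, norm_mul]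
    rwa [h5] at h4
  have hall : ‖(fun j => F j z : Fin (n + 1) → ℂ)‖ * ‖g z‖ ≤ Real.exp (-wt W (y + z • a) - wt W a * s ^ 2) * S := by
    rcases eq_or_ne (g z) 0 with h0 | h0
    · rw [h0, norm_zero, mul_zero]
      positivity
    · have hg0 : 0 < ‖g z‖ := norm_pos_iff.2 h0
      rw [← le_div_iff₀ hg0, pi_norm_le_iff_of_nonneg (by positivity)]
      intro j
      rw [le_div_iff₀ hg0]
      exact hj j
  have e : Real.exp (-wt W (y + z • a) - wt W a * s ^ 2) = Real.exp (-(wt W a * s ^ 2)) * (Real.exp (wt W (y + z • a)))⁻¹ := by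
    rw [← Real.exp_neg, ← Real.exp_add]
    congr 1
    ring
  calc kp W F y a z * ‖g z‖ = (‖(fun j => F j z : Fin (n + 1) → ℂ)‖ * ‖g z‖) * Real.exp (wt W (y + z • a)) := by
        rw [kp]
        ring
    _ ≤ (Real.exp (-wt W (y + z • a) - wt W a * s ^ 2) * S) * Real.exp (wt W (y + z • a)) := mul_le_mul_of_nonneg_right hall (Real.exp_pos _).le
    _ = Real.exp (-(wt W a * s ^ 2)) * S := by
        rw [e]
        have := (Real.exp_pos (wt W (y + z • a))).ne'
        field_simp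

private theorem fin_of_card {T : Set ℂ} {b : ℝ} (h : ∀ S : Finset ℂ, (∀ z ∈ S, z ∈ T) → (S.card : ℝ) ≤ b) : T.Finite ∧ (T.ncard : ℝ) ≤ b := by
  have hf : T.Finite := by
    by_contra hinf
    obtain ⟨S, hST, hSc⟩ := Set.Infinite.exists_subset_card_eq hinf (⌊b⌋₊ + 1)
    have h1 := h S (fun z hz => hST hz)
    rw [hSc] at h1
    push_cast at h1
    have := Nat.lt_floor_add_one b
    linarith
  refine ⟨hf, ?_⟩
  have h1 := h hf.toFinset (fun z hz => hf.mem_toFinset.1 hz)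
  rwa [← Set.ncard_eq_toFinset_card T hf] at h1

private theorem few_ncard {B : Set (Vd (k + 1))} {a : Vd (k + 1)} (hL : LG Λ D B a) (y : Vd (k + 1)) {ε : ℝ} (hε : 0 < ε) :
    ∃ C : ℝ, ∀ (z : ℂ) (R : ℝ), 0 ≤ R → ({x : ℂ | y + x • a ∈ B} ∩ closedBall z R).Finite ∧
    ((({x : ℂ | y + x • a ∈ B} ∩ closedBall z R).ncard : ℕ) : ℝ) ≤ ε * R ^ 2 + C := by
  obtain ⟨C, hC⟩ := hL.few ε hε
  refine ⟨C, fun z R hR => fin_of_card fun S hS => ?_⟩
  have h1 := hC (y + z • a) R hR (S.image fun x => x - z) (fun x hx => by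
    obtain ⟨x', hx', rfl⟩ := Finset.mem_image.1 hx
    obtain ⟨h2, h3⟩ := hS x' hx'
    rw [mem_closedBall, dist_eq_norm] at h3
    have e : y + z • a + (x' - z) • a = y + x' • a := by rw [sub_smul]; abel
    exact ⟨h3, by rw [e]; exact h2⟩)
  rwa [Finset.card_image_of_injective S (fun x x' h => by simpa using h)] at h1

/-- the product which removes the poles -/
private theorem div_diff {P₁ K : ℂ → ℂ} (hP : Differentiable ℂ P₁) (hK : Differentiable ℂ K) {M : ℕ} {x : ℂ} (hM : analyticOrderAt K x ≤ (M : ℕ∞))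
    (hx : K x ≠ 0 ∨ ∃ Q : ℂ → ℂ, Differentiable ℂ Q ∧ ∀ w, P₁ w = (w - x) ^ (M + 1) * Q w) : DifferentiableAt ℂ (fun w => P₁ w / K w) x := by
  rcases hx with hx | ⟨Q, hQ, hPQ⟩
  · exact (hP x).div (hK x) hx
  · have hKa : AnalyticAt ℂ K x := hK.analyticAt x
    have hne : analyticOrderAt K x ≠ ⊤ := fun h => by
      rw [h] at hM
      exact absurd hM (by simp)
    obtain ⟨m, hm⟩ := ENat.ne_top_iff_exists.1 hne
    have hmM : m ≤ M := by
      rw [← hm] at hM
      exact_mod_cast hM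
    obtain ⟨K₁, hK₁, hK₁0, hKK⟩ := hKa.analyticOrderAt_eq_natCast.1 hm.symm
    have h1 : DifferentiableAt ℂ (fun w => (w - x) ^ (M + 1 - m) * Q w / K₁ w) x := by
      refine DifferentiableAt.div (DifferentiableAt.mul (by fun_prop) (hQ x)) hK₁.differentiableAt hK₁0
    refine h1.congr_of_eventuallyEq ?_
    filter_upwards [hKK, hK₁.continuousAt.eventually_ne hK₁0] with w hw hw0
    rw [hPQ, hw, smul_eq_mul]
    by_cases hwx : w = x
    · subst hwx
      have h2 : M + 1 - m ≠ 0 := by omega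
      simp [h2]
    · have h2 : (w - x) ^ m ≠ 0 := pow_ne_zero _ (sub_ne_zero.2 hwx)
      have h3 : (w - x) ^ (M + 1) = (w - x) ^ m * (w - x) ^ (M + 1 - m) := by
        rw [← pow_add]
        congr 1
        omega
      rw [h3]
      field_simp

/-- the weight `n * wt W` -/
private theorem exists_wt (W : Fin r → Vd (k + 1) →L[ℂ] ℂ) (n : ℕ) : ∃ W' : Fin r → Vd (k + 1) →L[ℂ] ℂ, ∀ x, wt W' x = n * wt W x := by
  refine ⟨fun i => ((Real.sqrt n : ℝ) : ℂ) • W i, fun x => ?_⟩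
  unfold wt
  rw [Finset.mul_sum]
  refine Finset.sum_congr rfl fun i _ => ?_
  rw [_root_.smul_apply, smul_eq_mul, norm_mul, mul_pow, Complex.norm_real, Real.norm_eq_abs, sq_abs, Real.sq_sqrt (Nat.cast_nonneg n)]

/-- the case of a unit vector `a` -/
private theorem core (P : PD Λ D Bad θ W) (hn : n + n' = d) (h0 : 0 < n) (hlt' : n < n') {B : Set (Vd (k + 1))} {y a : Vd (k + 1)} (hL : LG Λ D B a) {G : ℂ → EN n} {H : ℂ → EN n'} (hGH : GH θ y a G H)
    (hK0' : ∀ z : ℂ, y + z • a ∉ B → rs (G z) (H z) ≠ 0) : False := by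
  have hG : Differentiable ℂ G := hGH.G_diff
  have hG0 : ∀ z, G z ≠ 0 := hGH.G_ne
  obtain ⟨K, hKdef⟩ : ∃ K : ℂ → ℂ, K = fun z => rs (G z) (H z) := ⟨_, rfl⟩
  have hKz : ∀ z, K z = rs (G z) (H z) := fun z => by rw [hKdef]
  have hK : Differentiable ℂ K := by
    rw [hKdef]
    have h1 := (rs_diff (n := n) (m := n')).comp (hGH.G_diff.prodMk hGH.H_diff)
    exact h1
  have hK0 : ∀ z : ℂ, y + z • a ∉ B → K z ≠ 0 := fun z hz => by
    rw [hKz]
    exact hK0' z hz
  obtain ⟨W', hW'⟩ : ∃ W' : Fin r → Vd (k + 1) →L[ℂ] ℂ, ∀ x, wt W' x = n * wt W x := exists_wt W n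
  have ha : ‖a‖ = 1 := hL.norm
  have ha0 : a ≠ 0 := by
    rintro rfl
    rw [norm_zero] at ha
    exact zero_ne_one ha
  have hsm : ∀ z : ℂ, ‖z • a‖ = ‖z‖ := fun z => by rw [norm_smul, ha, mul_one]
  have hW₀ : 0 < wt W a := by
    unfold wt
    refine lt_of_le_of_ne (Finset.sum_nonneg fun i _ => sq_nonneg _) fun h => ha0 (P.pos a fun i => ?_)
    have h1 := (Finset.sum_eq_zero_iff_of_nonneg (fun i _ => sq_nonneg ‖W i a‖)).1 h.symm i (Finset.mem_univ i)
    exact norm_eq_zero.1 (pow_eq_zero_iff (two_ne_zero) |>.1 h1)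
  have hW : 0 < wt W' a := by
    rw [hW']
    have : (0 : ℝ) < n := by exact_mod_cast h0
    positivity
  obtain ⟨M, hM⟩ := mult_gh P hn hlt'.le ha0
  have hMz : ∀ z, analyticOrderAt K z ≤ (M : ℕ∞) := by
    rw [hKdef]
    exact hM y G H hGH
  -- the geometry
  obtain ⟨δ, hδ, hlc⟩ := exists_lc hL (ρ := 1 / 8) (by norm_num) le_rfl
  have hC := hlc δ hδ le_rfl
  have hδρ := hC.δ_le
  have hδ64 : δ ≤ 1 / 64 := by linarith
  set E : Set ℂ := {z : ℂ | y + z • a ∈ B} with hE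
  have hEc : IsClosed E := hits_closed hL.iso hL.bad_sub y
  obtain ⟨C₂, hC₂⟩ := few_ncard hL y one_pos
  obtain ⟨M₀, hM₀⟩ : ∃ M₀ : ℕ, M₀ = ⌈1 * (2 : ℝ) ^ 2 + C₂⌉₊ := ⟨_, rfl⟩
  have hM₀' : ∀ z : ℂ, (E ∩ closedBall z 2).ncard ≤ M₀ := by
    intro z
    have h1 := (hC₂ z 2 (by norm_num)).2
    rw [hM₀]
    have h2 := h1.trans (Nat.le_ceil _)
    exact_mod_cast h2
  -- a point off `D`
  obtain ⟨c, hc⟩ : ∃ c : ℂ, y + c • a ∉ D := by
    have h1 : ∀ᶠ z in 𝓝[≠] (0 : ℂ), y + z • a ∉ D := hL.iso y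
    exact h1.exists
  have hcE : c ∉ E := fun h => hc (hL.bad_sub h)
  obtain ⟨d₀, hd₀, hd₁⟩ : ∃ d₀ : ℝ, 0 < d₀ ∧ ∀ e ∈ E, d₀ ≤ dist c e := by
    obtain ⟨d₀, h1, h2⟩ := Metric.isOpen_iff.1 hEc.isOpen_compl c hcE
    refine ⟨d₀, h1, fun e he => ?_⟩
    by_contra h3
    push Not at h3
    exact h2 (mem_ball'.2 h3) he
  obtain ⟨r₀, hr₀, hr₁, hr₂⟩ : ∃ r₀ : ℝ, 0 < r₀ ∧ r₀ ≤ d₀ ∧ r₀ ≤ δ ^ (M₀ + 1) := ⟨min d₀ (δ ^ (M₀ + 1)), lt_min hd₀ (by positivity), min_le_left _ _, min_le_right _ _⟩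
  have hr₃ : r₀ / (2 * δ) * (1 / δ) ^ M₀ ≤ 1 / 2 := by
    have h1 : r₀ / (2 * δ) * (1 / δ) ^ M₀ ≤ δ ^ (M₀ + 1) / (2 * δ) * (1 / δ) ^ M₀ := by gcongr
    refine h1.trans (le_of_eq ?_)
    rw [pow_succ, one_div, inv_pow]
    have := hδ.ne'
    have := pow_ne_zero M₀ hδ.ne'
    field_simp
  have hr₄ : r₀ ≤ 1 / 64 := (hr₂.trans (pow_le_of_le_one hδ.le (by linarith) (Nat.succ_ne_zero _))).trans hδ64
  -- the circles
  obtain ⟨δ₁, hδ₁, hcirc⟩ := hC.circ (r₀ / 4) (by positivity)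
  have hcirc' : ∀ z : ℂ, ∃ s : ℝ, 0 < s ∧ s < r₀ / 4 ∧ ∀ w : ℂ, dist w z = s → y + w • a ∈ Gd D δ₁ := by
    intro z
    obtain ⟨s, h1, h2, h3⟩ := hcirc (y + z • a)
    refine ⟨s, h1, h2, fun w hw => ?_⟩
    have h4 := h3 (w - z) (by rw [← dist_eq_norm, hw])
    have e : y + z • a + (w - z) • a = y + w • a := by rw [sub_smul]; abel
    rwa [e] at h4
  have hcircC : ∀ z : ℂ, ∃ s : ℝ, 0 < s ∧ s ≤ 1 / 4 ∧ ∀ w : ℂ, dist w z = s → ∀ e ∈ E, 4 * δ ≤ dist w e := by
    intro z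
    obtain ⟨s, h1, h2, h3⟩ := hC.circC (y + z • a)
    refine ⟨s, h1, by linarith, fun w hw e he => ?_⟩
    have h4 := h3 (w - z) (by rw [← dist_eq_norm, hw])
    have e1 : y + z • a + (w - z) • a = y + w • a := by rw [sub_smul]; abel
    rw [e1] at h4
    have h5 := h4 (y + e • a) (hL.bad_sub he)
    have e2 : y + w • a - (y + e • a) = (w - e) • a := by rw [sub_smul]; abel
    rw [e2, hsm] at h5
    rwa [dist_eq_norm]
  obtain ⟨c₁, hc₁, hlo⟩ := rs_lo P hn hlt'.le hδ₁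
  -- the functions
  set F : Fin (n + 1) → ℂ → ℂ := fun j x => (G x j) ^ (n' - n) / K x with hF
  have hGj : ∀ j : Fin (n + 1), Differentiable ℂ (fun x => (G x j) ^ (n' - n)) := fun j =>
    ((EuclideanSpace.proj (𝕜 := ℂ) j).differentiable.comp hG).pow _
  have hFd : ∀ j, ∀ x : ℂ, x ∉ E → DifferentiableAt ℂ (F j) x := fun j x hx => (hGj j x).div (hK x) (hK0 x hx)
  -- the bound over `Gd D δ₁`
  have hkb : ∀ w : ℂ, y + w • a ∈ Gd D δ₁ → kp W' F y a w ≤ 1 / c₁ := by
    intro w hw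
    have h1 := hlo _ hw (G w) (H w) (hGH.mul w)
    rw [← hKz, ← hW'] at h1
    have hG1 : 0 < ‖G w‖ := norm_pos_iff.2 (hG0 w)
    have hK1 : 0 < ‖K w‖ := lt_of_lt_of_le (by positivity) h1
    have h2 : ‖(fun j => F j w : Fin (n + 1) → ℂ)‖ ≤ ‖G w‖ ^ (n' - n) / ‖K w‖ := by
      rw [pi_norm_le_iff_of_nonneg (by positivity)]
      intro j
      rw [hF]
      simp only
      rw [norm_div, norm_pow]
      have h3 : ‖G w j‖ ≤ ‖G w‖ := PiLp.norm_apply_le (G w) j
      gcongr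
    unfold kp
    calc ‖(fun j => F j w : Fin (n + 1) → ℂ)‖ * Real.exp (wt W' (y + w • a)) ≤ ‖G w‖ ^ (n' - n) / ‖K w‖ * Real.exp (wt W' (y + w • a)) := by gcongr
      _ ≤ 1 / c₁ := by
        rw [div_mul_eq_mul_div, div_le_div_iff₀ hK1 hc₁, one_mul]
        linarith
  have hlt : ∀ s : ℝ, Real.exp (-(wt W' a * s ^ 2)) ≤ 1 := by
    intro s
    rw [Real.exp_le_one_iff]
    have : 0 ≤ wt W' a * s ^ 2 := by positivity
    linarith
  have hdisc : ∀ z : ℂ, (∀ e ∈ E, r₀ / 2 ≤ dist z e) → ∀ s : ℝ, s ≤ r₀ / 4 → ∀ j, ∀ x ∈ closedBall z s, DifferentiableAt ℂ (F j) x := by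
    intro z hz s hs j x hx
    refine hFd j x fun hxB => ?_
    have h1 := hz x hxB
    rw [mem_closedBall, dist_comm] at hx
    linarith
  have hzero := Pool.Agent.G4.U.ustar (E := E) hEc (fun z R => by
      rcases le_or_gt 0 R with hR | hR
      · exact (hC₂ z R hR).1
      · rw [closedBall_eq_empty.2 hR, Set.inter_empty]
        exact Set.finite_empty) (M := M₀) hM₀' (fun ε hε => by
      obtain ⟨C, hC'⟩ := few_ncard hL y hε
      exact ⟨C, fun z R hR => (hC' z R (by linarith)).2⟩) hδ (by linarith) (ρ := 1 / 2) (by norm_num) le_rfl hr₀ hr₃ (q := Real.exp (-(wt W' a * (r₀ / 4) ^ 2)))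
      (by
        rw [Real.exp_lt_one_iff]
        have : 0 < wt W' a * (r₀ / 4) ^ 2 := by positivity
        linarith) (κ := kp W' F y a) (C₁ := max (1 / c₁) ((2 / r₀) ^ ((M + 1) * M₀))) (kp_nonneg F y a) ?_ ?_ ?_ c (fun e he => hr₁.trans (hd₁ e he))
  · -- the contradiction
    have h1 : (fun j => F j c : Fin (n + 1) → ℂ) = 0 := by
      rw [kp, mul_eq_zero] at hzero
      rcases hzero with h1 | h1
      · exact norm_eq_zero.1 h1
      · exact absurd h1 (Real.exp_pos _).ne'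
    refine hG0 c ?_
    ext j
    have h2 := congrFun h1 j
    rw [hF] at h2
    simp only [Pi.zero_apply, div_eq_zero_iff] at h2
    rcases h2 with h2 | h2
    · exact pow_eq_zero_iff (by omega) |>.1 h2
    · exact absurd h2 (hK0 c hcE)
  · intro z hz
    obtain ⟨s, hs, hs', hcz⟩ := hcirc' z
    have h1 := kmax (W := W') (F := F) (y := y) (a := a) (z := z) (s' := s + 1) hs (by linarith) (hdisc z hz s hs'.le) (g := fun _ => 1) (differentiableOn_const _)
      (S := 1 / c₁) (fun w hw => by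
        rw [norm_one, mul_one]
        exact hkb w (hcz w hw))
    rw [norm_one, mul_one] at h1
    refine h1.trans (le_trans ?_ (le_max_left _ _))
    have : 0 ≤ 1 / c₁ := by positivity
    exact mul_le_of_le_one_left this (hlt s)
  · intro z hz G₁ hG₁ _ T hT
    refine kmax (s' := r₀ / 2) (by positivity) (by linarith) (hdisc z (fun e he => by linarith [hz e he]) _ le_rfl) hG₁ hT
  · intro z hz _ G₁ hG₁ _ T hT
    obtain ⟨s, hs, hs', hcz⟩ := hcircC z
    -- `T` is not negative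
    have hT0 : 0 ≤ T := by
      have h1 : dist (z + s) z = s := by rw [dist_eq_norm, add_sub_cancel_left, Complex.norm_real, Real.norm_eq_abs, abs_of_pos hs]
      refine (mul_nonneg (kp_nonneg F y a _) (norm_nonneg _)).trans (hT (z + s) (by rw [h1]; linarith) fun e he => ?_)
      have := hcz (z + s) h1 e he
      linarith
    -- the exceptional points in the disc
    have hfin : (E ∩ closedBall z (1 / 4)).Finite := (hC₂ z (1 / 4) (by norm_num)).1
    obtain ⟨A, hA⟩ : ∃ A : Finset ℂ, A = hfin.toFinset := ⟨_, rfl⟩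
    have hAm : ∀ e, e ∈ A ↔ e ∈ E ∧ dist e z ≤ 1 / 4 := fun e => by
      rw [hA, Set.Finite.mem_toFinset]
      rfl
    have hAc : A.card ≤ M₀ := by
      rw [hA, ← Set.ncard_eq_toFinset_card _ hfin]
      have hsub : E ∩ closedBall z (1 / 4) ⊆ E ∩ closedBall z 2 :=
        Set.inter_subset_inter_right E (closedBall_subset_closedBall (by norm_num))
      exact (Set.ncard_le_ncard hsub (hC₂ z 2 (by norm_num)).1).trans (hM₀' z)
    set P₁ : ℂ → ℂ := fun w => ∏ e ∈ A, (w - e) ^ (M + 1) with hP₁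
    have hP₁d : Differentiable ℂ P₁ := by
      rw [hP₁]
      fun_prop
    have hdiff : ∀ j, ∀ x ∈ closedBall z s, DifferentiableAt ℂ (fun w => (G w j) ^ (n' - n) * P₁ w / K w) x := by
      intro j x hx
      refine div_diff ((hGj j).mul hP₁d) hK (hMz x) ?_
      by_cases hxE : x ∈ E
      · right
        have hxA : x ∈ A := (hAm x).2 ⟨hxE, by
          rw [mem_closedBall] at hx
          linarith⟩
        refine ⟨fun w => (G w j) ^ (n' - n) * ∏ e ∈ A.erase x, (w - e) ^ (M + 1), (hGj j).mul (by fun_prop), fun w => ?_⟩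
        show (G w j) ^ (n' - n) * ∏ e ∈ A, (w - e) ^ (M + 1) = _
        rw [← Finset.mul_prod_erase A (fun e => (w - e) ^ (M + 1)) hxA]
        ring
      · left
        exact hK0 x hxE
    have hkpP : ∀ w, kp W' (fun j w => (G w j) ^ (n' - n) * P₁ w / K w) y a w = kp W' F y a w * ‖P₁ w‖ := by
      intro w
      unfold kp
      have h1 : (fun j => (G w j) ^ (n' - n) * P₁ w / K w : Fin (n + 1) → ℂ) = P₁ w • (fun j => F j w : Fin (n + 1) → ℂ) := by
        funext j
        rw [Pi.smul_apply, smul_eq_mul, hF]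
        ring
      rw [h1, norm_smul]
      ring
    have h1 := kmax (W := W') (F := fun j w => (G w j) ^ (n' - n) * P₁ w / K w) (y := y) (a := a) (z := z) (s := s) (s' := 1) hs (by linarith) hdiff hG₁ (S := T)
      (fun w hw => by
        rw [hkpP]
        have h2 : ‖P₁ w‖ ≤ 1 := by
          rw [hP₁]
          simp only
          rw [norm_prod]
          refine Finset.prod_le_one (fun e _ => norm_nonneg _) fun e he => ?_
          rw [norm_pow]
          refine pow_le_one₀ (norm_nonneg _) ?_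
          have h3 := ((hAm e).1 he).2
          have h4 := dist_triangle w z e
          rw [dist_comm z e, hw, dist_eq_norm] at h4
          linarith
        have h3 := hT w (by rw [hw]; linarith) fun e he => by
          have := hcz w hw e he
          linarith
        have h4 := kp_nonneg (W := W') F y a w
        calc kp W' F y a w * ‖P₁ w‖ * ‖G₁ w‖ ≤ kp W' F y a w * 1 * ‖G₁ w‖ := by gcongr
          _ ≤ T := by
            rw [mul_one]
            exact h3)
    rw [hkpP] at h1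
    have h2 : kp W' F y a z * ‖P₁ z‖ * ‖G₁ z‖ ≤ T := h1.trans (mul_le_of_le_one_left hT0 (hlt s))
    have h3 : (r₀ / 2) ^ ((M + 1) * M₀) ≤ ‖P₁ z‖ := by
      rw [hP₁]
      simp only
      rw [norm_prod]
      have hr2 : r₀ / 2 ≤ 1 := by linarith
      calc (r₀ / 2) ^ ((M + 1) * M₀) ≤ (r₀ / 2) ^ ((M + 1) * A.card) := pow_le_pow_of_le_one (by positivity) hr2 (Nat.mul_le_mul_left _ hAc)
        _ = ∏ _e ∈ A, (r₀ / 2) ^ (M + 1) := by rw [Finset.prod_const, pow_mul]
        _ ≤ ∏ e ∈ A, ‖(z - e) ^ (M + 1)‖ := by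
          refine Finset.prod_le_prod (fun e _ => by positivity) fun e he => ?_
          rw [norm_pow]
          have h4 := hz e ((hAm e).1 he).1
          rw [dist_eq_norm] at h4
          gcongr
    have h4 : 0 < (r₀ / 2) ^ ((M + 1) * M₀) := by positivity
    have h5 := kp_nonneg (W := W') F y a z
    have h6 : kp W' F y a z * ‖G₁ z‖ * (r₀ / 2) ^ ((M + 1) * M₀) ≤ T := by
      refine le_trans ?_ h2
      calc kp W' F y a z * ‖G₁ z‖ * (r₀ / 2) ^ ((M + 1) * M₀) ≤ kp W' F y a z * ‖G₁ z‖ * ‖P₁ z‖ := by gcongr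
        _ = kp W' F y a z * ‖P₁ z‖ * ‖G₁ z‖ := by ring
    have h7 : kp W' F y a z * ‖G₁ z‖ ≤ (2 / r₀) ^ ((M + 1) * M₀) * T := by
      rw [← le_div_iff₀ h4] at h6
      refine h6.trans (le_of_eq ?_)
      rw [div_eq_inv_mul, ← inv_pow, inv_div]
    exact h7.trans (mul_le_mul_of_nonneg_right (le_max_right _ _) hT0)

theorem no_gh (P : PD Λ D Bad θ W) (hn : n + n' = d) (h0 : 0 < n) (hlt : n < n') {y a : Vd (k + 1)} (ha : a ≠ 0) {G : ℂ → EN n} {H : ℂ → EN n'} (h : GH θ y a G H)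
    (hne : ∀ z : ℂ, y + z • a ∉ Bad a → rs (G z) (H z) ≠ 0) : False := by
  have hn1 : 0 < ‖a‖ := norm_pos_iff.2 ha
  have hnc : (‖a‖ : ℂ) ≠ 0 := by exact_mod_cast hn1.ne'
  set t : ℂ := (‖a‖ : ℂ)⁻¹ with ht
  have ht0 : t ≠ 0 := inv_ne_zero hnc
  have htn : ‖t‖ = ‖a‖⁻¹ := by rw [ht, norm_inv, Complex.norm_real, norm_norm]
  have e : ∀ z : ℂ, z • (t • a) = (z * t) • a := fun z => by rw [smul_smul]
  have hLG : LG Λ D (Bad a) (t • a) :=
    { norm := by rw [norm_smul, htn, inv_mul_cancel₀ hn1.ne']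
      lat := P.lat
      D_closed := P.D_closed
      D_inv := P.D_inv
      bad_sub := P.bad_sub a
      bad_inv := P.bad_inv a
      iso := P.iso (t • a) (smul_ne_zero ht0 ha)
      few := fun ε hε => by
        obtain ⟨C, hC⟩ := P.few a ha (ε * ‖a‖ ^ 2) (by positivity)
        refine ⟨C, fun y' R hR S hS => ?_⟩
        have h1 := hC y' (R / ‖a‖) (by positivity) (S.image fun z => z * t) (fun z hz => by
          obtain ⟨z', hz', rfl⟩ := Finset.mem_image.1 hz
          obtain ⟨h2, h3⟩ := hS z' hz'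
          refine ⟨?_, by rw [← e]; exact h3⟩
          rw [norm_mul, htn, div_eq_mul_inv]
          gcongr)
        rw [Finset.card_image_of_injective S (mul_left_injective₀ ht0)] at h1
        refine h1.trans (le_of_eq ?_)
        rw [div_pow]
        field_simp }
  refine core P hn h0 hlt (y := y) hLG (G := fun z => G (z * t)) (H := fun z => H (z * t)) ⟨h.G_diff.comp (by fun_prop), h.H_diff.comp (by fun_prop), fun z => h.G_ne _, fun z v => ?_⟩ fun z hz => ?_
  · rw [e]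
    exact h.mul _ v
  · rw [e] at hz
    exact hne _ hz

end Pool.Agent.TM
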