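import Pool.Agent.TM.Sel
import Pool.Agent.TM.Ext
import Pool.Agent.TM.Good
import Pool.Agent.TM.NoGH
import Pool.Agent.TM.Fibr
import Pool.Agent.HE.Bound

/-!
# TM HDm: the data `HD` for `T_m`, and the bound for discs
-/

set_option autoImplicit false

open Topology Filter Metric

namespace Pool.Agent.TM

open Pool.Agent.H36.BP (EN)
open Pool.Agent.H62.EF (MN pr)
open Pool.Agent.AD (Vd)
open Pool.Agent.TG (Lat Gd)
open Pool.Agent.G3 (wt TT LLift)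
open Pool.Agent.PX (Fo Fd dt PD)

variable {k d r n m n' : ℕ} {Λ : AddSubgroup (Vd (k + 1))} {D : Set (Vd (k + 1))} {Bad : Vd (k + 1) → Set (Vd (k + 1))} {θ : Fin (d + 1) → Vd (k + 1) → ℂ} {W : Fin r → Vd (k + 1) →L[ℂ] ℂ}

/-- the limit curve is not contained in the zeros of the resultant -/
theorem no_zr (P : PD Λ D Bad θ W) (hm : 0 < m) (hd : 2 * m < d) {y a : Vd (k + 1)} (ha : a ≠ 0) {𝒰 : Ultrafilter ℕ} {w : ℕ → ℂ → EN m} {h : ℕ → ℂ → Vd (k + 1)} {g : ℂ → MN m} (S : LT m θ D y a 𝒰 w h g) :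
    ¬ HE.Zr (FT m θ) D y a g := by
  intro hZ
  obtain ⟨n, h0, hnm, hnd, hS⟩ := sel P hm ha S hZ
  obtain ⟨n', hn⟩ := Nat.exists_eq_add_of_le hnd
  obtain ⟨G, hG, hG0, hGZ⟩ := ext_g P ha hS
  obtain ⟨H, hGH⟩ := ext_h P hn.symm ha hS hG hG0 hGZ
  refine no_gh P hn.symm h0 (by omega) ha hGH fun z hz => ?_
  by_cases hzD : y + z • a ∈ D
  · exact good P hm ha S hn.symm hGH hGZ hzD hz
  · exact rs_off P hn.symm hzD (hGH.mul z)

theorem an_ft (m : ℕ) (han : ∀ i, Differentiable ℂ (θ i)) : Differentiable ℂ (FT m θ) := by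
  have h1 : Differentiable ℂ fun p : Vd (k + 1) × EN m => (tv θ p.1, p.2) := ((tv_diff han).comp differentiable_fst).prodMk differentiable_snd
  exact Differentiable.comp (g := fun q : EN d × EN m => rs q.1 q.2) (f := fun p : Vd (k + 1) × EN m => (tv θ p.1, p.2)) rs_diff h1

theorem fn_rm (m : ℕ) (θ : Fin (d + 1) → Vd (k + 1) → ℂ) : HE.fn (fun y => RM m (tv θ y)) = FT m θ := by
  funext p
  exact RM_eval _ _

theorem hol_rm (m : ℕ) (han : ∀ i, Differentiable ℂ (θ i)) : HEF.IsHolomorphicForm Set.univ (fun y => RM m (tv θ y)) d :=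
  ⟨fun y _ => RM_hom m _, fun α => ((RM_diff m α).comp (tv_diff han)).differentiableOn⟩

/-- the form over a point off `D` -/
theorem off_roots (P : PD Λ D Bad θ W) {y : Vd (k + 1)} (hy : y ∉ D) : (∃ i, θ i y ≠ 0) ∧ ∃ r : Fin d → EN 1, (∀ i j, i ≠ j → dt (r i) (r j) ≠ 0) ∧ (∀ i, r i ≠ 0 ∧ Fo θ y (r i) = 0) := by
  have hd : 0 < d := by have := P.deg; omega
  refine ⟨?_, ?_⟩
  · by_contra hn
    push Not at hn
    obtain ⟨v, hv⟩ := P.simple y hy (WithLp.toLp 2 ![1, 0]) (fun h => by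
      have := congrArg (fun x : EN 1 => x 0) h
      simp at this) (by
      unfold Fo
      exact Finset.sum_eq_zero fun i _ => by rw [hn i]; ring)
    refine hv ?_
    rw [Pool.Agent.PX.fd_eq]
    exact Finset.sum_eq_zero fun i _ => by rw [hn i]; ring
  · obtain ⟨ρ, r, hρ, -, h1, h2, -⟩ := roots_near hd P.an (P.simple y hy)
    exact ⟨fun i => r i y, h2 y (mem_ball_self hρ), h1 y (mem_ball_self hρ)⟩

/-- the pieces in the form of `HE.Pc` -/
theorem pc_m (han : ∀ i, Differentiable ℂ (θ i)) {y₀ : Vd (k + 1)} (h : HEF.HasHyperbolicFibre Λ (Set.univ : Set ((Pool.Agent.PXF.Cn (k + 1) ⧸ Λ) × Pool.Agent.H17.PN m)) (fun _ : Fin 1 => fun y => RM m (tv θ y)) y₀) :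
    ∃ (s : ℕ) (Q : Fin s → Vd (k + 1) × EN m → ℂ) (e : Fin s → ℕ) (ρ : ℝ), HE.Pc (Set.univ : Set (Vd (k + 1) × EN m)) (fun _ : Fin 1 => FT m θ) y₀ Q e ρ := by
  obtain ⟨ρ, s, Q, e, hρ, hQ, hQF, hgp⟩ := h
  have hy₀b : y₀ ∈ ball y₀ ρ := mem_ball_self hρ
  refine ⟨s, fun s => HE.fn (Q s), e, ρ, ⟨hρ, fun s => HE.fn_diff (hQ s), fun s y hy c x => HE.fn_hom (hQ s) hy c x, fun s y hy x hx _ hF h4 => ?_, fun G hG hG0 _ hL hs z w => ?_⟩⟩
  · obtain ⟨j, hj⟩ := hQF s y hy (Projectivization.mk ℂ x.ofLp (HE.ofLp_ne hx)) (Set.mem_univ _) (by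
      rw [HE.van_mk ((hQ s).homogeneous y hy)]
      exact h4)
    rw [HE.van_mk (RM_hom m _)] at hj
    refine hF 0 ?_
    rw [← fn_rm]
    exact hj
  · obtain ⟨L, hL⟩ := hL
    have hv : ∀ s z, Pool.Agent.H17.VanishesAt (Q s y₀) (Projectivization.mk ℂ (G z).ofLp (HE.ofLp_ne (hG0 z))) ↔ HE.fn (Q s) (y₀, G z) = 0 := fun s z => HE.van_mk ((hQ s).homogeneous y₀ hy₀b) (HE.ofLp_ne (hG0 z))
    have h5 := hgp _ (HE.brody_of hG hG0 hL) (fun z => Set.mem_univ _) (fun s => by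
      rcases hs s with h6 | h6
      · exact Or.inl fun z => (hv s z).2 (h6 z)
      · exact Or.inr fun z h7 => h6 z ((hv s z).1 h7)) z w
    rw [Projectivization.mk_eq_mk_iff'] at h5
    obtain ⟨c, hc⟩ := h5
    refine ⟨c, ?_⟩
    ext i
    exact (congrFun hc i).symm

theorem wt_sqrt (m : ℕ) (W : Fin r → Vd (k + 1) →L[ℂ] ℂ) (y : Vd (k + 1)) : wt (fun i => (Real.sqrt m : ℂ) • W i) y = m * wt W y := by
  unfold wt
  rw [Finset.mul_sum]
  refine Finset.sum_congr rfl fun i _ => ?_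
  rw [ContinuousLinearMap.smul_apply, norm_smul, mul_pow, Complex.norm_real, Real.norm_of_nonneg (Real.sqrt_nonneg _), Real.sq_sqrt (Nat.cast_nonneg m)]

theorem per_ft (m : ℕ) {e : ℂ} {y l : Vd (k + 1)} (he : ‖e‖ * Real.exp (-wt W (y + l)) = Real.exp (-wt W y)) (h : ∀ i, θ i (y + l) = e * θ i y) :
    ‖e ^ m‖ * Real.exp (-wt (fun i => (Real.sqrt m : ℂ) • W i) (y + l)) = Real.exp (-wt (fun i => (Real.sqrt m : ℂ) • W i) y) ∧ ∀ x : EN m, FT m θ (y + l, x) = e ^ m * FT m θ (y, x) := by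
  refine ⟨?_, fun x => ?_⟩
  · rw [wt_sqrt, wt_sqrt]
    have h1 : ∀ t : ℝ, Real.exp (-(m * t)) = Real.exp (-t) ^ m := by
      intro t
      rw [← Real.exp_nat_mul]
      congr 1
      ring
    rw [h1, h1, norm_pow, ← mul_pow, he]
  · have h1 : tv θ (y + l) = e • tv θ y := by
      ext i
      exact h i
    show rs (tv θ (y + l)) x = _
    rw [h1, rs_smul_left]
    rfl

theorem hd_m (P : PD Λ D Bad θ W) (hm : 0 < m) (hd : 2 * m < d) :
    HE.HD Λ D (Set.univ : Set (Vd (k + 1) × EN m)) (fun _ : Fin 1 => FT m θ) (fun _ => d) (fun _ i => (Real.sqrt m : ℂ) • W i) := by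
  refine ⟨P.lat, isClosed_univ, fun _ _ _ _ _ => Set.mem_univ _, fun _ _ _ _ => Set.mem_univ _, fun _ => an_ft m P.an, fun _ => by omega, fun _ c y x => rs_smul_right c _ x, fun _ l hl y => ?_,
    P.D_closed, P.D_inv, P.iso, fun y a ha g _ _ _ ⟨𝒰, w, h, S⟩ => ⟨0, fun y' hy' => P.pos y' fun i => ?_, no_zr P hm hd ha S⟩, fun y₀ hy₀ => ?_⟩
  · obtain ⟨e, he, h1⟩ := P.per l hl y
    exact ⟨e ^ m, per_ft m he h1⟩
  · have h1 := hy' i
    rw [ContinuousLinearMap.smul_apply, smul_eq_mul, mul_eq_zero] at h1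
    exact h1.resolve_left (Complex.ofReal_ne_zero.2 (Real.sqrt_pos.2 (by exact_mod_cast hm)).ne')
  · obtain ⟨h1, r, h2, h3⟩ := off_roots P hy₀
    have hle : 2 * m + 1 ≤ d := hd
    exact pc_m (Λ := Λ) P.an (fibre_hyp P.an hm h1 (fun i => r (Fin.castLE hle i)) (fun i j hij => h2 _ _ fun h => hij (Fin.castLE_injective hle h)) fun i => (h3 _).2)

theorem bound (P : PD Λ D Bad θ W) (hm : 0 < m) (hd : 2 * m < d) : ∃ C : ℝ, 0 < C ∧ ∀ (w : ℂ → EN m) (h : ℂ → Vd (k + 1)), HE.Cw (Set.univ : Set (Vd (k + 1) × EN m)) (fun _ : Fin 1 => FT m θ) (ball 0 1) w h → ‖deriv h 0‖ ≤ C :=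
  (hd_m P hm hd).bound

end Pool.Agent.TM
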