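import Pool.Agent.TM.Bf

/-!
# TM Bg: binary forms: division, norms

`exists_quo`: the form `c` is `0` or splits (`exists_split`): each root `r i` of `c` is proportional to one of its linear factors, different `i` give different factors; or divide the polynomials; or: the linear map `H ↦ G * H` from `EN n'` to the space of the forms `c` with `bf c (r i) = 0` is injective, count
dimensions.  `exists_mult`: from `exists_split`: `A` is the product of the factors proportional to `dt r ·` (move the constants to `B`), `A v = dt r v ^ μ`.  `cf_le`: all norms are equivalent: `c ↦ sup_{‖v‖ = 1} |bf c v|` is a norm (`bf_ext`); or the values at `n + 1` pairwise independent unit vectors determine `c`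
(`bf_roots_le`), and the inverse of this linear map is bounded.  `mul_lo`: compactness of the unit spheres: a product of two forms which are not `0` is not `0` (`bf_roots_le` or an infinite set of points).
-/

set_option autoImplicit false

open Topology Filter Metric

namespace Pool.Agent.TM

open Pool.Agent.H36.BP (EN)
open Pool.Agent.AD (Vd)
open Pool.Agent.PX (Fo dt)

variable {k d n m n' : ℕ}

private theorem dt_smul_left (c : ℂ) (r v : EN 1) : dt (c • r) v = c * dt r v := by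
  simp only [dt, PiLp.smul_apply, smul_eq_mul]
  ring

private theorem dt_smul_right (c : ℂ) (r v : EN 1) : dt r (c • v) = c * dt r v := by
  simp only [dt, PiLp.smul_apply, smul_eq_mul]
  ring

private theorem dt_zero_right (r : EN 1) : dt r 0 = 0 := by
  simp [dt]

/-- splitting off one root -/
private theorem exists_div_one {N : ℕ} (c : EN (N + 1)) {r : EN 1} (hr : r ≠ 0) (h0 : bf c r = 0) :
    ∃ c' : EN N, ∀ v, bf c v = dt r v * bf c' v := by
  rcases eq_or_ne c 0 with rfl | hc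
  · exact ⟨0, fun v => by rw [bf_zero, bf_zero, mul_zero]⟩
  · obtain ⟨a, s, ha, hs, hsp⟩ := exists_split hc
    obtain ⟨φ, -, hφ⟩ := exists_pf N
    rw [hsp, mul_eq_zero, or_iff_right ha, Finset.prod_eq_zero_iff] at h0
    obtain ⟨j, -, hj⟩ := h0
    obtain ⟨κ, hκ⟩ := (PX.dt_eq_zero (hs j)).1 hj
    have hκ0 : κ ≠ 0 := by
      rintro rfl
      exact hr (by rw [hκ, zero_smul])
    refine ⟨(a * κ⁻¹) • φ fun i => s (j.succAbove i), fun v => ?_⟩
    rw [hsp, bf_smul, hφ, Fin.prod_univ_succAbove _ j, hκ, dt_smul_left]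
    field_simp

private theorem exists_div : ∀ (n n' N : ℕ), N = n + n' → ∀ (c : EN N) (r : Fin n → EN 1),
    (∀ i j, i ≠ j → dt (r i) (r j) ≠ 0) → (∀ i, r i ≠ 0) → (∀ i, bf c (r i) = 0) →
    ∃ H : EN n', ∀ v, bf c v = (∏ i, dt (r i) v) * bf H v := by
  intro n
  induction n with
  | zero =>
    intro n' N hN c r _ _ _
    obtain rfl : N = n' := by omega
    exact ⟨c, fun v => by simp⟩
  | succ n ih =>
    intro n' N hN c r hr h0 hc
    obtain ⟨N', rfl⟩ : ∃ N', N = N' + 1 := ⟨n + n', by omega⟩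
    obtain ⟨c', hc'⟩ := exists_div_one c (h0 0) (hc 0)
    obtain ⟨H, hH⟩ := ih n' N' (by omega) c' (fun i => r i.succ)
      (fun i j hij => hr _ _ fun h => hij (Fin.succ_injective _ h)) (fun i => h0 _) fun i => by
        have := hc i.succ
        rw [hc', mul_eq_zero, or_iff_right (hr _ _ (Fin.succ_ne_zero i).symm)] at this
        exact this
    refine ⟨H, fun v => ?_⟩
    rw [hc', hH, Fin.prod_univ_succ]
    ring

/-- division by a form with simple roots -/
theorem exists_quo {G : EN n} {c : EN (n + n')} (hG : G ≠ 0) (r : Fin n → EN 1) (hr : ∀ i j, i ≠ j → dt (r i) (r j) ≠ 0) (h0 : ∀ i, r i ≠ 0) (hg : ∀ i, bf G (r i) = 0) (hc : ∀ i, bf c (r i) = 0) :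
    ∃ H : EN n', ∀ v, bf c v = bf G v * bf H v := by
  obtain ⟨H, hH⟩ := exists_div n n' (n + n') rfl c r hr h0 hc
  obtain ⟨K, hK⟩ := exists_div n 0 n rfl G r hr h0 hg
  have hK0 : ∀ v, bf K v = K 0 := fun v => by simp [bf]
  have hb : K 0 ≠ 0 := by
    intro h
    refine hG (bf_ext fun v => ?_)
    rw [hK, hK0, h, mul_zero, bf_zero]
  refine ⟨(K 0)⁻¹ • H, fun v => ?_⟩
  rw [hH, hK, hK0, bf_smul]
  field_simp

private theorem exists_pow (μ : ℕ) (r : EN 1) : ∃ A : EN μ, ∀ v, bf A v = dt r v ^ μ := by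
  obtain ⟨φ, -, hφ⟩ := exists_pf μ
  exact ⟨φ fun _ => r, fun v => by rw [hφ]; simp⟩

/-- splitting off a root with its multiplicity -/
theorem exists_mult {c : EN d} (hc : c ≠ 0) {r : EN 1} (hr : r ≠ 0) (h0 : bf c r = 0) :
    ∃ (μ ν : ℕ) (A : EN μ) (B : EN ν), μ + ν = d ∧ 0 < μ ∧ (∀ v, bf c v = bf A v * bf B v) ∧ (∀ v, bf A v = dt r v ^ μ) ∧ bf B r ≠ 0 := by
  induction d with
  | zero =>
    exfalso
    refine hc (bf_ext fun v => ?_)
    rw [bf_zero]
    have h1 : bf c r = c 0 := by simp [bf]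
    have h2 : bf c v = c 0 := by simp [bf]
    rw [h2, ← h1, h0]
  | succ d ih =>
    obtain ⟨c', hc'⟩ := exists_div_one c hr h0
    have hc'0 : c' ≠ 0 := by
      rintro rfl
      refine hc (bf_ext fun v => ?_)
      rw [hc', bf_zero, bf_zero, mul_zero]
    by_cases h : bf c' r = 0
    · obtain ⟨μ, ν, A, B, h1, h2, h3, h4, h5⟩ := ih hc'0 h
      obtain ⟨A', hA'⟩ := exists_pow (μ + 1) r
      refine ⟨μ + 1, ν, A', B, by omega, by omega, fun v => ?_, hA', h5⟩
      rw [hc', h3, hA', h4]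
      ring
    · obtain ⟨A', hA'⟩ := exists_pow 1 r
      refine ⟨1, d, A', c', by omega, by omega, fun v => ?_, hA', h⟩
      rw [hc', hA', pow_one]

/-- the point `(i, 1)` -/
private noncomputable def wp (i : ℕ) : EN 1 := WithLp.toLp 2 ![(i : ℂ), 1]

private theorem dt_wp {i j : ℕ} (h : i ≠ j) : dt (wp i) (wp j) ≠ 0 := by
  have : dt (wp i) (wp j) = (i : ℂ) - j := by simp [dt, wp]
  rw [this, sub_ne_zero]
  exact_mod_cast h

private theorem wp_ne (i : ℕ) : wp i ≠ 0 := by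
  intro h
  have := congrArg (fun x : EN 1 => x 1) h
  simp [wp] at this

private theorem roots_finite {c : EN n} (hc : c ≠ 0) : {i : ℕ | bf c (wp i) = 0}.Finite := by
  by_contra h
  obtain ⟨t, ht, hcard⟩ := Set.Infinite.exists_subset_card_eq h (n + 1)
  let e := t.equivFinOfCardEq hcard
  refine hc (bf_roots_le (s := n + 1) (fun i => wp (e.symm i)) (fun i j hij => dt_wp fun h => hij ?_) (fun i => ht (e.symm i).2) (Nat.lt_succ_self n))
  exact e.symm.injective (Subtype.ext h)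

private theorem mul_ne {G : EN n} {H : EN n'} {F : EN (n + n')} (hG : G ≠ 0) (hH : H ≠ 0) (h : ∀ v, bf F v = bf G v * bf H v) : F ≠ 0 := by
  rintro rfl
  have hfin := (roots_finite hG).union (roots_finite hH)
  obtain ⟨i, hi⟩ := hfin.infinite_compl.nonempty
  simp only [Set.mem_compl_iff, Set.mem_union, Set.mem_ofPred_eq, not_or] at hi
  have := h (wp i)
  rw [bf_zero] at this
  exact mul_ne_zero hi.1 hi.2 this.symm

/-- the values of a form -/
private noncomputable def evL (n : ℕ) (u : Fin (n + 1) → EN 1) : EN n →ₗ[ℂ] (Fin (n + 1) → ℂ) where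
  toFun c i := bf c (u i)
  map_add' c c' := funext fun i => bf_add c c' (u i)
  map_smul' s c := funext fun i => bf_smul s c (u i)

/-- the norm of the coefficients -/
theorem cf_le (n : ℕ) : ∃ C : ℝ, 0 < C ∧ ∀ (c : EN n) (A : ℝ), (∀ v : EN 1, ‖v‖ = 1 → ‖bf c v‖ ≤ A) → ‖c‖ ≤ C * A := by
  let u : Fin (n + 1) → EN 1 := fun i => ((‖wp i‖⁻¹ : ℝ) : ℂ) • wp i
  have hw : ∀ i : ℕ, ‖wp i‖ ≠ 0 := fun i => norm_ne_zero_iff.2 (wp_ne i)
  have hu1 : ∀ i, ‖u i‖ = 1 := fun i => by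
    simp only [u, norm_smul, Complex.norm_real, norm_inv, norm_norm]
    exact inv_mul_cancel₀ (hw i)
  have hur : ∀ i j, i ≠ j → dt (u i) (u j) ≠ 0 := fun i j hij => by
    simp only [u, dt_smul_left, dt_smul_right]
    refine mul_ne_zero ?_ (mul_ne_zero ?_ (dt_wp fun h => hij (Fin.ext h)))
    · exact_mod_cast inv_ne_zero (hw j)
    · exact_mod_cast inv_ne_zero (hw i)
  have hker : LinearMap.ker (evL n u) = ⊥ := by
    rw [LinearMap.ker_eq_bot']
    intro c hc
    exact bf_roots_le u hur (fun i => congrFun hc i) (Nat.lt_succ_self n)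
  obtain ⟨K, hK, hanti⟩ := (evL n u).exists_antilipschitzWith hker
  refine ⟨K, by exact_mod_cast hK, fun c A hA => ?_⟩
  have hA0 : 0 ≤ A := (norm_nonneg _).trans (hA (u 0) (hu1 0))
  have h1 := hanti.le_mul_dist c 0
  rw [map_zero, dist_zero_right, dist_zero_right] at h1
  refine h1.trans (mul_le_mul_of_nonneg_left ?_ K.2)
  rw [pi_norm_le_iff_of_nonneg hA0]
  exact fun i => hA (u i) (hu1 i)

theorem bf_le (n : ℕ) : ∃ C : ℝ, 0 < C ∧ ∀ (c : EN n) (v : EN 1), ‖bf c v‖ ≤ C * ‖c‖ * ‖v‖ ^ n := by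
  refine ⟨n + 1, by positivity, fun c v => ?_⟩
  have h : ∀ i : Fin (n + 1), ‖c i * v 0 ^ (i : ℕ) * v 1 ^ (n - (i : ℕ))‖ ≤ ‖c‖ * ‖v‖ ^ n := fun i => by
    have hi : (i : ℕ) + (n - (i : ℕ)) = n := by have := i.2; omega
    rw [norm_mul, norm_mul, norm_pow, norm_pow]
    calc ‖c i‖ * ‖v 0‖ ^ (i : ℕ) * ‖v 1‖ ^ (n - (i : ℕ))
        ≤ ‖c‖ * ‖v‖ ^ (i : ℕ) * ‖v‖ ^ (n - (i : ℕ)) := by
          gcongr
          · exact PiLp.norm_apply_le c i
          · exact PiLp.norm_apply_le v 0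
          · exact PiLp.norm_apply_le v 1
      _ = ‖c‖ * ‖v‖ ^ n := by rw [mul_assoc, ← pow_add, hi]
  calc ‖bf c v‖ ≤ ∑ i : Fin (n + 1), ‖c i * v 0 ^ (i : ℕ) * v 1 ^ (n - (i : ℕ))‖ := norm_sum_le _ _
    _ ≤ ∑ _i : Fin (n + 1), ‖c‖ * ‖v‖ ^ n := Finset.sum_le_sum fun i _ => h i
    _ = (n + 1) * ‖c‖ * ‖v‖ ^ n := by
      rw [Finset.sum_const, Finset.card_univ, Fintype.card_fin, nsmul_eq_mul]
      push_cast
      ring

/-- the norm of a product (compactness of the unit spheres: a product of two forms which are not `0` is not `0`) -/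
theorem mul_lo (n n' : ℕ) : ∃ c : ℝ, 0 < c ∧ ∀ (G : EN n) (H : EN n') (F : EN (n + n')), (∀ v, bf F v = bf G v * bf H v) → c * (‖G‖ * ‖H‖) ≤ ‖F‖ := by
  obtain ⟨φ, hφd, hφ⟩ := exists_ml n n'
  have hcomp : IsCompact (sphere (0 : EN n) 1 ×ˢ sphere (0 : EN n') 1) := (isCompact_sphere _ _).prod (isCompact_sphere _ _)
  have hne : (sphere (0 : EN n) 1 ×ˢ sphere (0 : EN n') 1).Nonempty :=
    (NormedSpace.sphere_nonempty.2 zero_le_one).prod (NormedSpace.sphere_nonempty.2 zero_le_one)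
  obtain ⟨p, hp, hmin⟩ := hcomp.exists_isMinOn hne (f := fun p => ‖φ p‖) hφd.continuous.norm.continuousOn
  have hp1 : p.1 ≠ 0 := fun h => by
    have := mem_sphere_zero_iff_norm.1 hp.1
    rw [h, norm_zero] at this
    exact zero_ne_one this
  have hp2 : p.2 ≠ 0 := fun h => by
    have := mem_sphere_zero_iff_norm.1 hp.2
    rw [h, norm_zero] at this
    exact zero_ne_one this
  refine ⟨‖φ p‖, norm_pos_iff.2 (mul_ne hp1 hp2 fun v => hφ p.1 p.2 v), fun G H F hF => ?_⟩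
  rcases eq_or_ne G 0 with rfl | hG
  · simp
  rcases eq_or_ne H 0 with rfl | hH
  · simp
  have hG0 : ‖G‖ ≠ 0 := norm_ne_zero_iff.2 hG
  have hH0 : ‖H‖ ≠ 0 := norm_ne_zero_iff.2 hH
  set e : EN n := ((‖G‖⁻¹ : ℝ) : ℂ) • G with he
  set e' : EN n' := ((‖H‖⁻¹ : ℝ) : ℂ) • H with he'
  have h1 : ‖e‖ = 1 := by
    rw [he, norm_smul, Complex.norm_real, norm_inv, norm_norm]
    exact inv_mul_cancel₀ hG0
  have h2 : ‖e'‖ = 1 := by
    rw [he', norm_smul, Complex.norm_real, norm_inv, norm_norm]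
    exact inv_mul_cancel₀ hH0
  have h3 : ‖φ p‖ ≤ ‖φ (e, e')‖ := hmin (a := (e, e')) ⟨mem_sphere_zero_iff_norm.2 h1, mem_sphere_zero_iff_norm.2 h2⟩
  have h4 : F = ((‖G‖ * ‖H‖ : ℝ) : ℂ) • φ (e, e') := by
    refine bf_ext fun v => ?_
    rw [hF, bf_smul, hφ, he, he', bf_smul, bf_smul]
    push_cast
    have hG1 : (‖G‖ : ℂ) ≠ 0 := by exact_mod_cast hG0
    have hH1 : (‖H‖ : ℂ) ≠ 0 := by exact_mod_cast hH0
    field_simp
  rw [h4, norm_smul, Complex.norm_real, Real.norm_of_nonneg (by positivity), mul_comm]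
  gcongr

theorem mul_up (n n' : ℕ) : ∃ C : ℝ, 0 < C ∧ ∀ (G : EN n) (H : EN n') (F : EN (n + n')), (∀ v, bf F v = bf G v * bf H v) → ‖F‖ ≤ C * (‖G‖ * ‖H‖) := by
  obtain ⟨C, hC, h⟩ := cf_le (n + n')
  obtain ⟨C1, hC1, h1⟩ := bf_le n
  obtain ⟨C2, hC2, h2⟩ := bf_le n'
  refine ⟨C * (C1 * C2), by positivity, fun G H F hF => ?_⟩
  refine (h F (C1 * C2 * (‖G‖ * ‖H‖)) fun v hv => ?_).trans (le_of_eq (by ring))
  rw [hF, norm_mul]
  have a1 := h1 G v
  have a2 := h2 H v
  rw [hv, one_pow, mul_one] at a1 a2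
  calc ‖bf G v‖ * ‖bf H v‖ ≤ (C1 * ‖G‖) * (C2 * ‖H‖) := by gcongr
    _ = C1 * C2 * (‖G‖ * ‖H‖) := by ring

end Pool.Agent.TM
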