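import Pool.Agent.HE.Defs
import Pool.Agent.PX.Bas

/-!
# TM Defs: the spaces `T_m` (note 4194)

`Fo θ y` is a binary form of degree `d` whose coefficients are theta functions on `A = ℂ^(k+1) / Λ` (`PX/Defs`).  The points of `ℙ^m` are the binary forms `x ∈ EN m` of degree `m`, up to scalars: `bf x v = ∑ x_j v_0^j v_1^(m-j)`.  `T_m` is the set of the
points `(y, x)` of `A × ℙ^m` such that `Fo θ y` and `x` have no common zero in `ℙ¹`; it is the complement of the zeros of the resultant `FT θ (y, x) = rs (tv θ y) x`, of degree `d` in `x`, whose coefficients are theta functions of weight `m * wt W`.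

`GH θ y a G H`: a factorization `Fo θ (y + z a) = G z * H z` on a line.
-/

set_option autoImplicit false

open Topology Filter Metric

namespace Pool.Agent.TM

open Pool.Agent.H36.BP (EN)
open Pool.Agent.H62.EF (MN pr)
open Pool.Agent.AD (Vd)
open Pool.Agent.PX (Fo dt)

variable {k d n m n' : ℕ}

/-- the polynomial with the coefficients `c` -/
noncomputable def pl (c : EN n) : Polynomial ℂ := ∑ i : Fin (n + 1), Polynomial.C (c i) * Polynomial.X ^ (i : ℕ)

/-- the binary form with the coefficients `c` -/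
noncomputable def bf (c : EN n) (v : EN 1) : ℂ := ∑ i : Fin (n + 1), c i * v 0 ^ (i : ℕ) * v 1 ^ (n - (i : ℕ))

/-- the resultant of the binary forms `c`, `x` of the degrees `n`, `m` -/
noncomputable def rs (c : EN n) (x : EN m) : ℂ := Polynomial.resultant (pl c) (pl x) n m

/-- the resultant of `c` and the form of degree `m` with indeterminate coefficients -/
noncomputable def RM (m : ℕ) (c : EN n) : MvPolynomial (Fin (m + 1)) ℂ :=
  Polynomial.resultant ((pl c).map MvPolynomial.C) (∑ j : Fin (m + 1), Polynomial.C (MvPolynomial.X j) * Polynomial.X ^ (j : ℕ)) n m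

/-- the coefficients of the form `Fo θ y` -/
noncomputable def tv (θ : Fin (d + 1) → Vd (k + 1) → ℂ) (y : Vd (k + 1)) : EN d := WithLp.toLp 2 fun i => θ i y

/-- the equation of the complement of `T_m` -/
noncomputable def FT (m : ℕ) (θ : Fin (d + 1) → Vd (k + 1) → ℂ) (p : Vd (k + 1) × EN m) : ℂ := rs (tv θ p.1) p.2

/-- `(G z, H z)` is a factorization of the form over the line `z ↦ y + z • a` -/
structure GH (θ : Fin (d + 1) → Vd (k + 1) → ℂ) (y a : Vd (k + 1)) (G : ℂ → EN n) (H : ℂ → EN n') : Prop where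
  G_diff : Differentiable ℂ G
  H_diff : Differentiable ℂ H
  G_ne : ∀ z, G z ≠ 0
  mul : ∀ (z : ℂ) (v : EN 1), Fo θ (y + z • a) v = bf (G z) v * bf (H z) v

/-- the limit situation for curves in `T_m` -/
abbrev LT (m : ℕ) (θ : Fin (d + 1) → Vd (k + 1) → ℂ) (D : Set (Vd (k + 1))) (y a : Vd (k + 1)) (𝒰 : Ultrafilter ℕ) (w : ℕ → ℂ → EN m) (h : ℕ → ℂ → Vd (k + 1)) (g : ℂ → MN m) : Prop :=
  HE.LS (Set.univ : Set (Vd (k + 1) × EN m)) (fun _ : Fin 1 => FT m θ) D y a 𝒰 w h g

/-- `v` is a common zero of the form over `y + z a` and of the limit form `g z` -/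
def Zc (θ : Fin (d + 1) → Vd (k + 1) → ℂ) (y a : Vd (k + 1)) (g : ℂ → MN m) (z : ℂ) (v : EN 1) : Prop := Fo θ (y + z • a) v = 0 ∧ ∀ x : EN m, x ≠ 0 → pr x = g z → bf x v = 0

/-- over the line off `D` the zeros `v` of the form with `Z z v` are locally `n` different holomorphic functions -/
def Sl (θ : Fin (d + 1) → Vd (k + 1) → ℂ) (D : Set (Vd (k + 1))) (y a : Vd (k + 1)) (n : ℕ) (Z : ℂ → EN 1 → Prop) : Prop :=
  ∀ z₀ : ℂ, y + z₀ • a ∉ D → ∃ (ρ : ℝ) (r : Fin n → ℂ → EN 1), 0 < ρ ∧ (∀ i, DifferentiableOn ℂ (r i) (ball z₀ ρ)) ∧ ∀ z ∈ ball z₀ ρ, y + z • a ∉ D ∧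
    (∀ i, r i z ≠ 0 ∧ Fo θ (y + z • a) (r i z) = 0) ∧ (∀ i j, i ≠ j → dt (r i z) (r j z) ≠ 0) ∧ ∀ v : EN 1, v ≠ 0 → (Z z v ↔ ∃ i, dt (r i z) v = 0)

theorem bf_tv (θ : Fin (d + 1) → Vd (k + 1) → ℂ) (y : Vd (k + 1)) (v : EN 1) : bf (tv θ y) v = Fo θ y v := rfl

end Pool.Agent.TM
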