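import Pool.Agent.TM.Lo
import Pool.Agent.PX.Circ
import Pool.Agent.PX.Mult

/-!
# TM Mult: the characteristic of a factor is bounded on discs; the zeros of the resultant have bounded multiplicity

Let `Fo θ (y + z a) = G z * H z` (`GH`), `n + n' = d`.  `tt_gh`: at a point `z` with `y + z a ∈ Gd D δ`: circle averages over `‖ζ - z‖ = ρ`: `log ‖G‖ + log ‖H‖ ≤ log ‖tv θ‖ + C ≤ wt + C'` (`mul_lo`, `tv_up`; valid where `H ≠ 0`), `avg log ‖H‖ ≥ log ‖H z‖` (subharmonic; Jensen for a coordinate `H i`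
with `‖H z‖ ≤ C |H i z|`, `log ‖H‖ ≥ log |H i|`), `log ‖G z‖ + log ‖H z‖ ≥ log ‖tv θ (y + z a)‖ - C ≥ wt (y + z a) - C'` (`mul_up`, `tv_lo`), `avg wt ≤ wt (y + z a) + C''`: so `TT G z ρ = avg log ‖G‖ - log ‖G z‖ ≤ T`.  See `PX/TTb.lean` (`tt_mono`, `tt_codisc`, `tt_int`, `tt_wt`).
`mult_gh`: as `PX/Mult.lean` (`PD.mult`), with `K z = rs (G z) (H z)`, `rs_up`, `rs_lo` in the place of `grad_up`, `grad_lo`, the exponent `n' - n` in the place of `d - 2`, the weight `n * wt W` in the place of `wt W`, and `tt_gh`.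
-/

set_option autoImplicit false

open Topology Filter Metric

namespace Pool.Agent.TM

open Pool.Agent.H36.BP (EN)
open Pool.Agent.AD (Vd)
open Pool.Agent.TG (Lat Gd)
open Pool.Agent.G3 (wt TT)
open Pool.Agent.PX (Fo dt PD)

variable {k d r n m n' : ℕ} {Λ : AddSubgroup (Vd (k + 1))} {D : Set (Vd (k + 1))} {Bad : Vd (k + 1) → Set (Vd (k + 1))} {θ : Fin (d + 1) → Vd (k + 1) → ℂ} {W : Fin r → Vd (k + 1) →L[ℂ] ℂ}

/-- an inequality off a discrete set of the circle -/
private theorem tt_mono {u v : ℂ → ℝ} {z : ℂ} {s : ℝ} (hs : 0 < s) (hu : CircleIntegrable u z s) (hv : CircleIntegrable v z s)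
    (h : ∀ᶠ w in codiscreteWithin (sphere z |s|), u w ≤ v w) : Real.circleAverage u z s ≤ Real.circleAverage v z s := by
  have h3 := circleMap_preimage_codiscrete hs.ne' h
  have h4 := ae_restrict_le_codiscreteWithin (μ := MeasureTheory.volume) measurableSet_uIoc (codiscreteWithin_mono (U₁ := Set.uIoc 0 (2 * Real.pi)) (by simp) h3)
  have h5 : ∀ᵐ θ ∂(MeasureTheory.volume.restrict (Set.uIoc 0 (2 * Real.pi))), u (circleMap z s θ) ≤ v (circleMap z s θ) := by
    filter_upwards [h4] with θ hθ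
    exact hθ
  rw [Real.circleAverage, Real.circleAverage, smul_eq_mul, smul_eq_mul]
  refine mul_le_mul_of_nonneg_left ?_ (by positivity)
  refine intervalIntegral.integral_mono_ae_restrict (by positivity) hu hv ?_
  rw [Set.uIoc_of_le (by positivity)] at h5
  rw [MeasureTheory.Measure.restrict_congr_set MeasureTheory.Ioc_ae_eq_Icc.symm]
  exact h5

/-- an analytic function which is not zero at the centre is not zero outside a discrete set of the circle -/
private theorem tt_codisc {a : ℂ → ℂ} {z : ℂ} {s : ℝ} (hs : 0 < s) (ha : Differentiable ℂ a) (ha0 : a z ≠ 0) :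
    a ⁻¹' {0}ᶜ ∈ codiscreteWithin (sphere z |s|) := by
  have h0 : AnalyticOnNhd ℂ a (closedBall z s) := fun w _ => ha.analyticAt w
  have h1 : a ⁻¹' {0}ᶜ ∈ codiscreteWithin (closedBall z s) :=
    h0.preimage_zero_mem_codiscreteWithin ha0 (mem_closedBall_self hs.le) ((convex_closedBall z s).isConnected ⟨z, mem_closedBall_self hs.le⟩)
  rw [abs_of_pos hs]
  exact codiscreteWithin_mono sphere_subset_closedBall h1

/-- the logarithm of the norm of an entire function is circle integrable -/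
private theorem tt_int {a : ℂ → ℂ} {z : ℂ} {s : ℝ} (hs : 0 < s) (ha : Differentiable ℂ a) : CircleIntegrable (fun w => Real.log ‖a w‖) z s := by
  apply MeromorphicOn.circleIntegrable_log_norm_of_nonneg _ hs.le
  have h0 : AnalyticOnNhd ℂ a (sphere z s) := fun w _ => ha.analyticAt w
  exact h0.meromorphicOn

/-- the mean of `‖g‖ ^ 2` -/
private theorem tt_sq {g : ℂ → ℂ} {z : ℂ} {s : ℝ} (hs : 0 < s) (hg : Differentiable ℂ g) :
    Real.circleAverage (fun w => ‖g w‖ ^ 2) z s = ‖g z‖ ^ 2 + Real.circleAverage (fun w => ‖g w - g z‖ ^ 2) z s := by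
  have hgc : ContinuousOn g (sphere z s) := hg.continuous.continuousOn
  have hmean : Real.circleAverage g z s = g z := hg.diffContOnCl.circleAverage
  have hIg : CircleIntegrable g z s := hgc.circleIntegrable hs.le
  -- the linear term
  set L : ℂ →L[ℝ] ℝ := Complex.reCLM.comp ((ContinuousLinearMap.mul ℂ ℂ ((starRingEnd ℂ) (g z))).restrictScalars ℝ) with hL
  have hLv : ∀ w, L w = ((starRingEnd ℂ) (g z) * w).re := fun w => by
    simp [hL]
  have hlin : Real.circleAverage (fun w => L (g w)) z s = L (g z) := by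
    have := L.circleAverage_comp_comm hIg
    rw [hmean] at this
    exact this
  have hIL : CircleIntegrable (fun w => L (g w)) z s := (L.continuous.comp_continuousOn hgc).circleIntegrable hs.le
  have hIn : CircleIntegrable (fun w => ‖g w - g z‖ ^ 2) z s := ((hgc.sub continuousOn_const).norm.pow 2).circleIntegrable hs.le
  have hpt : (fun w => ‖g w‖ ^ 2) = fun w => ((2 : ℝ) • (L (g w)) + ‖g w - g z‖ ^ 2) + (-‖g z‖ ^ 2) := by
    funext w
    rw [hLv, Complex.sq_norm, Complex.sq_norm, Complex.sq_norm, Complex.normSq_apply, Complex.normSq_apply, Complex.normSq_apply]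
    simp only [Complex.sub_re, Complex.sub_im, Complex.mul_re, Complex.conj_re, Complex.conj_im, smul_eq_mul]
    ring
  have hI1 : CircleIntegrable (fun w => (2 : ℝ) • (L (g w))) z s := hIL.const_fun_smul
  rw [hpt, Real.circleAverage_fun_add (hI1.fun_add hIn) (circleIntegrable_const _ _ _), Real.circleAverage_fun_add hI1 hIn,
    Real.circleAverage_fun_smul, Real.circleAverage_const, hlin, hLv]
  have h1 : ((starRingEnd ℂ) (g z) * g z).re = ‖g z‖ ^ 2 := by
    rw [Complex.sq_norm, Complex.normSq_apply]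
    simp [Complex.mul_re]
  rw [h1, smul_eq_mul]
  ring

/-- the mean of the weight on a line -/
private theorem tt_wt (W : Fin r → Vd (k + 1) →L[ℂ] ℂ) {y a : Vd (k + 1)} {A : ℝ} (ha : ‖a‖ ≤ A) {z : ℂ} {s : ℝ} (hs : 0 < s) :
    CircleIntegrable (fun w : ℂ => wt W (y + w • a)) z s ∧
      Real.circleAverage (fun w : ℂ => wt W (y + w • a)) z s ≤ wt W (y + z • a) + s ^ 2 * (∑ i, ‖W i‖ ^ 2) * A ^ 2 := by
  have hd : ∀ i : Fin r, Differentiable ℂ fun w : ℂ => W i (y + w • a) := fun i =>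
    (W i).differentiable.comp ((differentiable_const y).add (differentiable_id.smul_const a))
  have hIi : ∀ i : Fin r, CircleIntegrable (fun w : ℂ => ‖W i (y + w • a)‖ ^ 2) z s := fun i =>
    ((hd i).continuous.norm.pow 2).continuousOn.circleIntegrable hs.le
  have hIW : CircleIntegrable (fun w : ℂ => wt W (y + w • a)) z s := by
    unfold wt
    exact CircleIntegrable.fun_sum _ fun i _ => hIi i
  refine ⟨hIW, ?_⟩
  have h1 : Real.circleAverage (fun w : ℂ => wt W (y + w • a)) z s = ∑ i, Real.circleAverage (fun w : ℂ => ‖W i (y + w • a)‖ ^ 2) z s := by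
    unfold wt
    exact Real.circleAverage_fun_sum fun i _ => hIi i
  rw [h1, wt, Finset.mul_sum, Finset.sum_mul, ← Finset.sum_add_distrib]
  refine Finset.sum_le_sum fun i _ => ?_
  rw [tt_sq hs (hd i)]
  have h2 : Real.circleAverage (fun w : ℂ => ‖W i (y + w • a) - W i (y + z • a)‖ ^ 2) z s ≤ s ^ 2 * ‖W i‖ ^ 2 * A ^ 2 := by
    refine Real.circleAverage_mono_on_of_le_circle ?_ fun w hw => ?_
    · exact ((((hd i).continuous.sub continuous_const).norm.pow 2).continuousOn).circleIntegrable hs.le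
    · rw [abs_of_pos hs, mem_sphere, dist_eq_norm] at hw
      have h3 : W i (y + w • a) - W i (y + z • a) = (w - z) • W i a := by
        rw [← map_sub, ← map_smul]
        congr 1
        rw [sub_smul]
        abel
      rw [h3, norm_smul, hw, mul_pow, mul_assoc]
      refine mul_le_mul_of_nonneg_left ?_ (by positivity)
      rw [← mul_pow]
      exact pow_le_pow_left₀ (norm_nonneg _) (((W i).le_opNorm a).trans (mul_le_mul_of_nonneg_left ha (norm_nonneg _))) 2
  linarith

/-- Jensen: the order of a zero -/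
private theorem order_le {K : ℂ → ℂ} (hK : Differentiable ℂ K) {z z₀ : ℂ} (hz : K z ≠ 0) (h1 : ‖z - z₀‖ ≤ 1) (hne : z ≠ z₀) {m : ℕ} (hm : analyticOrderAt K z₀ = m) :
    (m : ℝ) ≤ Real.circleAverage (fun w => Real.log ‖K w‖) z 3 - Real.log ‖K z‖ := by
  have hs : (0 : ℝ) < 3 := by norm_num
  have hmerOn : MeromorphicOn K (closedBall z |(3 : ℝ)|) := fun ζ _ => (hK.analyticAt ζ).meromorphicAt
  have hJ := MeromorphicOn.circleAverage_log_norm hs.ne' hmerOn
  have hzm : z ∈ closedBall z |(3 : ℝ)| := mem_closedBall_self (abs_nonneg _)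
  have hdz : MeromorphicOn.divisor K (closedBall z |(3 : ℝ)|) z = 0 := by
    rw [MeromorphicOn.divisor_apply hmerOn hzm, (hK.analyticAt z).meromorphicOrderAt_eq, (hK.analyticAt z).analyticOrderAt_eq_zero.2 hz]
    simp
  have hnn : ∀ u, 0 ≤ (MeromorphicOn.divisor K (closedBall z |(3 : ℝ)|) u : ℝ) * Real.log (3 * ‖z - u‖⁻¹) := by
    intro u
    by_cases hu : u ∈ closedBall z |(3 : ℝ)|
    · apply mul_nonneg
      · have h1 : 0 ≤ MeromorphicOn.divisor K (closedBall z |(3 : ℝ)|) u := by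
          rw [MeromorphicOn.divisor_apply hmerOn hu, (hK.analyticAt u).meromorphicOrderAt_eq]
          refine WithTop.untop₀_nonneg.2 ?_
          have h5 := (hK.analyticAt u).meromorphicOrderAt_nonneg
          rwa [(hK.analyticAt u).meromorphicOrderAt_eq] at h5
        exact_mod_cast h1
      · by_cases huc : u = z
        · simp [huc]
        · apply Real.log_nonneg
          have h2 : 0 < ‖z - u‖ := by
            rw [norm_pos_iff, sub_ne_zero]
            exact fun h => huc h.symm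
          have h3 : ‖z - u‖ ≤ 3 := by
            rw [mem_closedBall, dist_eq_norm, abs_of_pos hs, norm_sub_rev] at hu
            exact hu
          rw [← div_eq_mul_inv, le_div_iff₀ h2]
          linarith
    · have : MeromorphicOn.divisor K (closedBall z |(3 : ℝ)|) u = 0 := Function.locallyFinsuppWithin.apply_eq_zero_of_notMem _ hu
      simp [this]
  have hfin : (Function.support fun u => (MeromorphicOn.divisor K (closedBall z |(3 : ℝ)|) u : ℝ) * Real.log (3 * ‖z - u‖⁻¹)).Finite := by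
    refine ((MeromorphicOn.divisor K (closedBall z |(3 : ℝ)|)).finiteSupport (isCompact_closedBall _ _)).subset ?_
    intro u hu h0
    apply hu
    simp only
    rw [h0]
    simp
  have hsum := single_le_finsum z₀ hfin hnn
  have hz₀ : z₀ ∈ closedBall z |(3 : ℝ)| := by
    rw [mem_closedBall, dist_eq_norm, abs_of_pos hs, norm_sub_rev]
    linarith
  have hd₀ : (MeromorphicOn.divisor K (closedBall z |(3 : ℝ)|) z₀ : ℝ) = m := by
    rw [MeromorphicOn.divisor_apply hmerOn hz₀, (hK.analyticAt z₀).meromorphicOrderAt_eq, hm]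
    simp
  have hpos : 0 < ‖z - z₀‖ := by
    rw [norm_pos_iff, sub_ne_zero]
    exact hne
  have hlog : 1 ≤ Real.log (3 * ‖z - z₀‖⁻¹) := by
    rw [Real.le_log_iff_exp_le (by positivity)]
    have h2 : (1 : ℝ) ≤ ‖z - z₀‖⁻¹ := (one_le_inv₀ hpos).2 h1
    have h3 := Real.exp_one_lt_d9
    nlinarith
  have h4 : (m : ℝ) ≤ (MeromorphicOn.divisor K (closedBall z |(3 : ℝ)|) z₀ : ℝ) * Real.log (3 * ‖z - z₀‖⁻¹) := by
    rw [hd₀]
    exact le_mul_of_one_le_right (Nat.cast_nonneg _) hlog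
  rw [hdz, (hK.analyticAt z).meromorphicTrailingCoeffAt_of_ne_zero hz] at hJ
  push_cast at hJ
  linarith

/-- the mean value inequality for `log ‖a‖` -/
private theorem log_norm_le_cA {a : ℂ → ℂ} {z : ℂ} {s : ℝ} (hs : 0 < s) (ha : AnalyticOnNhd ℂ a (closedBall z s)) (ha0 : a z ≠ 0) :
    Real.log ‖a z‖ ≤ Real.circleAverage (fun w => Real.log ‖a w‖) z s := by
  have har : |s| = s := abs_of_pos hs
  have hana : AnalyticOnNhd ℂ a (closedBall z |s|) := by rwa [har]
  rw [AnalyticOnNhd.circleAverage_log_norm hs.ne' hana ha0]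
  have h1 : 0 ≤ ∑ᶠ u, (MeromorphicOn.divisor a (closedBall z |s|) u : ℝ) * Real.log (s * ‖z - u‖⁻¹) := by
    apply finsum_nonneg
    intro u
    by_cases hu : u ∈ closedBall z |s|
    · apply mul_nonneg
      · have := MeromorphicOn.AnalyticOnNhd.divisor_nonneg hana u
        exact_mod_cast this
      · by_cases huc : u = z
        · simp [huc]
        · apply Real.log_nonneg
          have h2 : 0 < ‖z - u‖ := by
            rw [norm_pos_iff, sub_ne_zero]
            exact fun h => huc h.symm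
          have h3 : ‖z - u‖ ≤ s := by
            rw [mem_closedBall, dist_eq_norm, abs_of_pos hs, norm_sub_rev] at hu
            exact hu
          rw [← div_eq_mul_inv, le_div_iff₀ h2]
          linarith
    · have : MeromorphicOn.divisor a (closedBall z |s|) u = 0 := Function.locallyFinsuppWithin.apply_eq_zero_of_notMem _ hu
      simp [this]
  linarith

/-- the largest coordinate -/
private theorem tt_co (x : EN n') : ∃ i, ‖x‖ ≤ (n' + 1) * ‖x i‖ := by
  obtain ⟨i, hi⟩ := Finite.exists_max fun i => ‖x i‖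
  refine ⟨i, ?_⟩
  rw [← pow_le_pow_iff_left₀ (norm_nonneg _) (by positivity) two_ne_zero, EuclideanSpace.norm_sq_eq]
  have h1 : ∑ j, ‖x j‖ ^ 2 ≤ (Finset.univ : Finset (Fin (n' + 1))).card • ‖x i‖ ^ 2 :=
    Finset.sum_le_card_nsmul _ _ _ fun j _ => pow_le_pow_left₀ (norm_nonneg _) (hi j) 2
  rw [Finset.card_univ, Fintype.card_fin, nsmul_eq_mul] at h1
  refine h1.trans ?_
  rw [mul_pow]
  refine mul_le_mul_of_nonneg_right ?_ (by positivity)
  push_cast
  nlinarith [(Nat.cast_nonneg n' : (0 : ℝ) ≤ n')]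

theorem tt_gh (P : PD Λ D Bad θ W) (hn : n + n' = d) {δ A ρ : ℝ} (hδ : 0 < δ) (hρ : 0 < ρ) : ∃ T : ℝ, ∀ y a : Vd (k + 1), ‖a‖ ≤ A → ∀ (G : ℂ → EN n) (H : ℂ → EN n'), GH θ y a G H →
    ∀ z : ℂ, y + z • a ∈ Gd D δ → TT G z ρ ≤ T := by
  subst hn
  obtain ⟨C₁, hC₁, hup⟩ := tv_up P
  obtain ⟨c, hc, hlo⟩ := tv_lo P hδ
  obtain ⟨c₂, hc₂, hml⟩ := mul_lo n n'
  obtain ⟨C₃, hC₃, hmu⟩ := mul_up n n'
  refine ⟨Real.log C₁ - Real.log c₂ - Real.log c + Real.log C₃ + Real.log (n' + 1) + ρ ^ 2 * (∑ i, ‖W i‖ ^ 2) * A ^ 2, fun y a ha G H hGH z hz => ?_⟩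
  have hF : ∀ (w : ℂ) (v : EN 1), bf (tv θ (y + w • a)) v = bf (G w) v * bf (H w) v := fun w v => by
    rw [bf_tv]
    exact hGH.mul w v
  have hnG : ∀ ζ, 0 < ‖G ζ‖ := fun ζ => norm_pos_iff.2 (hGH.G_ne ζ)
  have hFz := hlo _ hz
  have hFz' := hFz.trans (hmu _ _ _ (hF z))
  have hHz : 0 < ‖H z‖ := by
    rcases (norm_nonneg (H z)).eq_or_lt with h | h
    · rw [← h, mul_zero, mul_zero] at hFz'
      exact absurd hFz' (not_le.2 (by positivity))
    · exact h
  obtain ⟨i, hi⟩ := tt_co (H z)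
  set g : ℂ → ℂ := fun ζ => H ζ i with hgdef
  have hg : Differentiable ℂ g := (EuclideanSpace.proj i : EN n' →L[ℂ] ℂ).differentiable.comp hGH.H_diff
  have hgz : 0 < ‖g z‖ := by
    rcases (norm_nonneg (g z)).eq_or_lt with h | h
    · have h2 : ‖H z i‖ = 0 := h.symm
      rw [h2, mul_zero] at hi
      exact absurd hi (not_le.2 hHz)
    · exact h
  have hgz0 : g z ≠ 0 := norm_pos_iff.1 hgz
  have hgle : ∀ w, ‖g w‖ ≤ ‖H w‖ := fun w => PiLp.norm_apply_le (H w) i
  obtain ⟨hIW, hW⟩ := tt_wt W (y := y) ha (z := z) hρ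
  have hIG : CircleIntegrable (fun w => Real.log ‖G w‖) z ρ :=
    (hGH.G_diff.continuous.norm.log fun w => (hnG w).ne').continuousOn.circleIntegrable hρ.le
  have hIg := tt_int (z := z) hρ hg
  have hIc : CircleIntegrable (fun _ : ℂ => Real.log C₁ - Real.log c₂) z ρ := circleIntegrable_const _ _ _
  have hmono : Real.circleAverage (fun w => Real.log ‖G w‖) z ρ ≤ Real.circleAverage (fun w => (Real.log C₁ - Real.log c₂) + wt W (y + w • a) - Real.log ‖g w‖) z ρ := by
    refine tt_mono hρ hIG ((hIc.fun_add hIW).fun_sub hIg) ?_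
    filter_upwards [tt_codisc hρ hg hgz0] with w h1
    have h3 : 0 < ‖g w‖ := norm_pos_iff.2 h1
    have h4 : c₂ * (‖G w‖ * ‖g w‖) ≤ C₁ * Real.exp (wt W (y + w • a)) := by
      refine le_trans (mul_le_mul_of_nonneg_left (mul_le_mul_of_nonneg_left (hgle w) (hnG w).le) hc₂.le) ?_
      exact (hml _ _ _ (hF w)).trans (hup _)
    have h5 := Real.log_le_log (by have := hnG w; positivity) h4
    rw [Real.log_mul hc₂.ne' (mul_pos (hnG w) h3).ne', Real.log_mul (hnG w).ne' h3.ne', Real.log_mul hC₁.ne' (Real.exp_pos _).ne', Real.log_exp] at h5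
    linarith
  rw [Real.circleAverage_fun_sub (hIc.fun_add hIW) hIg, Real.circleAverage_fun_add hIc hIW, Real.circleAverage_const] at hmono
  have hJ : Real.log ‖g z‖ ≤ Real.circleAverage (fun w => Real.log ‖g w‖) z ρ := log_norm_le_cA hρ (fun w _ => hg.analyticAt w) hgz0
  have h6 := Real.log_le_log (by positivity) hFz'
  rw [Real.log_mul hc.ne' (Real.exp_pos _).ne', Real.log_exp, Real.log_mul hC₃.ne' (mul_pos (hnG z) hHz).ne', Real.log_mul (hnG z).ne' hHz.ne'] at h6
  have h7 := Real.log_le_log hHz hi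
  rw [Real.log_mul (by positivity) hgz.ne'] at h7
  rw [TT]
  linarith

theorem mult_gh (P : PD Λ D Bad θ W) (hn : n + n' = d) (hle : n ≤ n') {a : Vd (k + 1)} (ha : a ≠ 0) : ∃ M : ℕ, ∀ (y : Vd (k + 1)) (G : ℂ → EN n) (H : ℂ → EN n'), GH θ y a G H →
    ∀ z, analyticOrderAt (fun z => rs (G z) (H z)) z ≤ (M : ℕ∞) := by
  have hs : (0 : ℝ) < 3 := by norm_num
  obtain ⟨δ, hδ, hcirc⟩ := P.circ (A₁ := ‖a‖) (A₂ := ‖a‖) (ρ := 1) (norm_pos_iff.2 ha) one_pos
  obtain ⟨c, hc, hlo⟩ := rs_lo P hn hle hδ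
  obtain ⟨C, hC, hup⟩ := rs_up P hn hle
  obtain ⟨T, hT⟩ := tt_gh P hn (A := ‖a‖) hδ hs
  obtain ⟨B, hB⟩ : ∃ B : ℝ, B = Real.log C - Real.log c + ((n' - n : ℕ) : ℝ) * T + n * (3 ^ 2 * (∑ i, ‖W i‖ ^ 2) * ‖a‖ ^ 2) := ⟨_, rfl⟩
  refine ⟨⌈B⌉₊, fun y G H hGH z₀ => ?_⟩
  obtain ⟨K, hKdef⟩ : ∃ K : ℂ → ℂ, K = fun z => rs (G z) (H z) := ⟨_, rfl⟩
  have hK : Differentiable ℂ K := by
    rw [hKdef]
    exact Differentiable.comp (g := fun p : EN n × EN n' => rs p.1 p.2) (f := fun z : ℂ => (G z, H z)) rs_diff (hGH.G_diff.prodMk hGH.H_diff)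
  rw [← hKdef]
  obtain ⟨s, hs0, hs1, hsG⟩ := hcirc (y + z₀ • a) a le_rfl le_rfl
  obtain ⟨z, hz⟩ : ∃ z : ℂ, z = z₀ + s := ⟨_, rfl⟩
  have hzs : z - z₀ = s := by
    rw [hz]
    ring
  have hzn : ‖z - z₀‖ = s := by
    rw [hzs, Complex.norm_real, Real.norm_of_nonneg hs0.le]
  have hzG : y + z • a ∈ Gd D δ := by
    have h1 := hsG (s : ℂ) (by rw [Complex.norm_real, Real.norm_of_nonneg hs0.le])
    rw [hz, add_smul, ← add_assoc]
    exact h1
  have hnG : ∀ ζ, 0 < ‖G ζ‖ := fun ζ => norm_pos_iff.2 (hGH.G_ne ζ)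
  have hlow : c * ‖G z‖ ^ (n' - n) * Real.exp (n * wt W (y + z • a)) ≤ ‖K z‖ := by
    rw [hKdef]
    exact hlo _ hzG _ _ (hGH.mul z)
  have hKup : ∀ w, ‖K w‖ ≤ C * ‖G w‖ ^ (n' - n) * Real.exp (n * wt W (y + w • a)) := by
    rw [hKdef]
    exact fun w => hup _ _ _ (hGH.G_ne w) (hGH.mul w)
  have hKz : K z ≠ 0 := by
    intro h
    rw [h, norm_zero] at hlow
    exact absurd hlow (not_le.2 (by have := hnG z; positivity))
  have hne : z ≠ z₀ := by
    intro h
    rw [h, sub_self, norm_zero] at hzn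
    exact hs0.ne hzn
  -- finite order
  have hord : analyticOrderAt K z₀ ≠ ⊤ := by
    intro h
    rw [analyticOrderAt_eq_top] at h
    have h1 : AnalyticOnNhd ℂ K Set.univ := fun w _ => hK.analyticAt w
    exact hKz (h1.eqOn_zero_of_preconnected_of_eventuallyEq_zero isPreconnected_univ (Set.mem_univ z₀) h (Set.mem_univ z))
  obtain ⟨m, hm⟩ := ENat.ne_top_iff_exists.1 hord
  have hJ := order_le hK hKz (by rw [hzn]; exact hs1) hne hm.symm
  -- the upper bound
  have hIG : CircleIntegrable (fun w => Real.log ‖G w‖) z 3 :=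
    (hGH.G_diff.continuous.norm.log fun w => (hnG w).ne').continuousOn.circleIntegrable hs.le
  obtain ⟨hIW, hW⟩ := tt_wt W (y := y) (a := a) le_rfl (z := z) hs
  have hIK := tt_int (z := z) hs hK
  have hIc : CircleIntegrable (fun _ : ℂ => Real.log C) z 3 := circleIntegrable_const _ _ _
  have hIG2 : CircleIntegrable (fun w => ((n' - n : ℕ) : ℝ) * Real.log ‖G w‖) z 3 := hIG.const_mul _
  have hIW2 : CircleIntegrable (fun w : ℂ => (n : ℝ) * wt W (y + w • a)) z 3 := hIW.const_mul _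
  have hmono : Real.circleAverage (fun w => Real.log ‖K w‖) z 3 ≤
      Real.circleAverage (fun w => Real.log C + ((n' - n : ℕ) : ℝ) * Real.log ‖G w‖ + (n : ℝ) * wt W (y + w • a)) z 3 := by
    refine tt_mono hs hIK ((hIc.fun_add hIG2).fun_add hIW2) ?_
    filter_upwards [tt_codisc hs hK hKz] with w h1
    have h3 : 0 < ‖K w‖ := norm_pos_iff.2 h1
    have h5 := Real.log_le_log h3 (hKup w)
    rw [Real.log_mul (mul_pos hC (pow_pos (hnG w) _)).ne' (Real.exp_pos _).ne', Real.log_mul hC.ne' (pow_pos (hnG w) _).ne', Real.log_exp, Real.log_pow] at h5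
    exact h5
  rw [Real.circleAverage_fun_add (hIc.fun_add hIG2) hIW2, Real.circleAverage_fun_add hIc hIG2, Real.circleAverage_const] at hmono
  have hsm : Real.circleAverage (fun w => ((n' - n : ℕ) : ℝ) * Real.log ‖G w‖) z 3 = ((n' - n : ℕ) : ℝ) * Real.circleAverage (fun w => Real.log ‖G w‖) z 3 := by
    have := Real.circleAverage_fun_smul (a := ((n' - n : ℕ) : ℝ)) (f := fun w => Real.log ‖G w‖) (c := z) (R := 3)
    simpa [smul_eq_mul] using this
  have hsm2 : Real.circleAverage (fun w : ℂ => (n : ℝ) * wt W (y + w • a)) z 3 = (n : ℝ) * Real.circleAverage (fun w : ℂ => wt W (y + w • a)) z 3 := by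
    have := Real.circleAverage_fun_smul (a := (n : ℝ)) (f := fun w : ℂ => wt W (y + w • a)) (c := z) (R := 3)
    simpa [smul_eq_mul] using this
  rw [hsm, hsm2] at hmono
  have hTT := hT y a le_rfl G H hGH z hzG
  unfold TT at hTT
  have h6 := Real.log_le_log (by have := hnG z; positivity) hlow
  rw [Real.log_mul (mul_pos hc (pow_pos (hnG z) _)).ne' (Real.exp_pos _).ne', Real.log_mul hc.ne' (pow_pos (hnG z) _).ne', Real.log_exp, Real.log_pow] at h6
  have h7 : ((n' - n : ℕ) : ℝ) * (Real.circleAverage (fun w => Real.log ‖G w‖) z 3 - Real.log ‖G z‖) ≤ ((n' - n : ℕ) : ℝ) * T :=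
    mul_le_mul_of_nonneg_left hTT (Nat.cast_nonneg _)
  have h7' : (n : ℝ) * Real.circleAverage (fun w : ℂ => wt W (y + w • a)) z 3 ≤ n * (wt W (y + z • a) + 3 ^ 2 * (∑ i, ‖W i‖ ^ 2) * ‖a‖ ^ 2) :=
    mul_le_mul_of_nonneg_left hW (Nat.cast_nonneg _)
  have h8 : (m : ℝ) ≤ B := by
    rw [hB]
    rw [mul_sub] at h7
    rw [mul_add] at h7'
    linarith
  rw [← hm]
  have h9 : (m : ℝ) ≤ (⌈B⌉₊ : ℝ) := h8.trans (Nat.le_ceil B)
  exact_mod_cast h9

end Pool.Agent.TM
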