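import Pool.Agent.TM.Loc
import Pool.Agent.TM.Lo
import Pool.Agent.HE.Lim

/-!
# TM Sel: the common zeros of the limit form and of the form over the line

`S : LT m θ D y a 𝒰 w h g`: the curves `(h n, w n)` in `T_m` converge to `g` over the line `z ↦ y + z a` off `D`; `g z = pr x`, `x` a binary form of degree `m`; assume that `x` and `Fo θ (y + z a)` have a common zero for all `z` off `D` (`HE.Zr`; `rs_zero`).
`sel_loc`: let `R i` be the roots near `y + z₀ a` (`roots_near`, `PD.simple`), `r i z = R i (y + z a)`.  For each `i` the functions `bf (w n z) (R i (h n z))` have no zeros near `z₀` (`n` large, `rs_zero`); divided by a coordinate of `w n z` which is not `0` near `z₀` they converge uniformly near `z₀` to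
`bf (Φ z) (r i z)` divided by this coordinate of `Φ z`, where `Φ` is the lift of `g` near `z₀` (`S.lift`): by Hurwitz the limit is `0` near `z₀` or has no zero near `z₀`.  (See the proof of `HD.ls_zr` in `HE/Lim.lean`.)  `K` is the set of the `i` for which it is `0`.
`sel`: the number of the elements of `K` is locally constant on the connected set `{z | y + z a ∉ D}` (the complement of a closed discrete set: `P.iso`; connectedness as in the proof of `ls_zr`), it is `n`; `0 < n` by `hZ`, `n ≤ m` by `bf_roots_le`.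
-/

set_option autoImplicit false

open Topology Filter Metric

namespace Pool.Agent.TM

open Pool.Agent.H36.BP (EN)
open Pool.Agent.H62.EF (MN pr)
open Pool.Agent.AD (Vd)
open Pool.Agent.TG (Lat Gd)
open Pool.Agent.G3 (wt TT LLift)
open Pool.Agent.PX (Fo Fd dt PD)

variable {k d r n m n' : ℕ} {Λ : AddSubgroup (Vd (k + 1))} {D : Set (Vd (k + 1))} {Bad : Vd (k + 1) → Set (Vd (k + 1))} {θ : Fin (d + 1) → Vd (k + 1) → ℂ} {W : Fin r → Vd (k + 1) →L[ℂ] ℂ}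

private theorem sl_countable (P : PD Λ D Bad θ W) {a : Vd (k + 1)} (ha : a ≠ 0) (y : Vd (k + 1)) : {z : ℂ | y + z • a ∈ D}.Countable := by
  have h : ∀ z ∈ {z : ℂ | y + z • a ∈ D}, ∀ᶠ w in 𝓝[≠] z, w ∉ {z : ℂ | y + z • a ∈ D} := by
    intro z _
    have h1 := P.iso a ha (y + z • a)
    rw [eventually_nhdsWithin_iff, Metric.eventually_nhds_iff] at h1 ⊢
    obtain ⟨ε, hε, h1⟩ := h1
    refine ⟨ε, hε, fun w hw hwz => ?_⟩
    have h2 : w - z ∈ ({0}ᶜ : Set ℂ) := fun h3 => hwz (sub_eq_zero.1 h3)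
    have h3 := @h1 (w - z) (by rwa [dist_zero_right, ← dist_eq_norm]) h2
    intro h4
    refine h3 ?_
    have h5 : y + z • a + (w - z) • a = y + w • a := by rw [sub_smul]; abel
    rw [h5]
    exact h4
  have hd : DiscreteTopology {z : ℂ | y + z • a ∈ D} := by
    rw [discreteTopology_subtype_iff]
    intro z hz
    rw [Filter.inf_principal_eq_bot]
    exact h z hz
  rw [← Set.countable_coe_iff]
  exact countable_of_Lindelof_of_discrete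

private theorem sl_dich {U : Set ℂ} (hU : IsPreconnected U) {p : ℂ → Prop}
    (h : ∀ z₀ ∈ U, ∃ r : ℝ, 0 < r ∧ ((∀ z ∈ ball z₀ r, p z) ∨ ∀ z ∈ ball z₀ r, ¬ p z)) {z₀ : ℂ} (hz₀ : z₀ ∈ U) (hp₀ : p z₀) : ∀ z ∈ U, p z := by
  set V : Set ℂ := {z | ∀ᶠ w in 𝓝 z, p w} with hV
  have hVo : IsOpen V := by
    rw [isOpen_iff_mem_nhds]
    intro z hz
    exact hz.eventually_nhds
  have hpV : ∀ z ∈ U, p z → z ∈ V := by
    intro z hz hp
    obtain ⟨r, hr, h1 | h1⟩ := h z hz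
    · exact Filter.eventually_of_mem (isOpen_ball.mem_nhds (mem_ball_self hr)) h1
    · exact absurd hp (h1 z (mem_ball_self hr))
  have hsub : U ⊆ V := by
    refine hU.subset_of_closure_inter_subset hVo ⟨z₀, hz₀, hpV z₀ hz₀ hp₀⟩ ?_
    rintro z ⟨hzc, hz⟩
    obtain ⟨r, hr, h1 | h1⟩ := h z hz
    · exact hpV z hz (h1 z (mem_ball_self hr))
    · obtain ⟨w, hw1, hw2⟩ := _root_.mem_closure_iff.1 hzc (ball z r) isOpen_ball (mem_ball_self hr)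
      exact absurd hw2.self_of_nhds (h1 w hw1)
  exact fun z hz => (hsub hz : z ∈ V).self_of_nhds

/-- the curves in `T_m` have no common zeros with the form -/
private theorem sl_ne (hd : 0 < d) {y : Vd (k + 1)} {x : EN m} {v : EN 1} (hv : v ≠ 0) (h0 : Fo θ y v = 0) (h : FT m θ (y, x) ≠ 0) : bf x v ≠ 0 := fun h1 =>
  h ((rs_zero (by omega) (tv θ y) x).2 ⟨v, hv, by rw [bf_tv]; exact h0, h1⟩)

private theorem sl_tend {E F : Type*} [TopologicalSpace E] [TopologicalSpace F] {b : E → F → ℂ} (hF : Continuous fun p : E × F => b p.1 p.2) {l : Filter ℕ} {f : ℕ → E} {g : ℕ → F}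
    {p : E} {q : F} (hf : Tendsto f l (𝓝 p)) (hg : Tendsto g l (𝓝 q)) : Tendsto (fun n => b (f n) (g n)) l (𝓝 (b p q)) := by
  have h1 : Tendsto (fun n => (f n, g n)) l (𝓝 (p, q)) := hf.prodMk_nhds hg
  have h2 := (hF.tendsto (p, q)).comp h1
  exact h2

/-- the theorem of Hurwitz for the values of forms -/
private theorem sl_hur (𝒰 : Ultrafilter ℕ) {z₀ : ℂ} {ρ : ℝ} {u : ℕ → ℂ → EN m} {ℓ : ℂ → EN m} {s : ℕ → ℂ → EN 1} {s0 : ℂ → EN 1}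
    (hu : ∀ᶠ n in (𝒰 : Filter ℕ), DifferentiableOn ℂ (u n) (ball z₀ ρ)) (hs : ∀ᶠ n in (𝒰 : Filter ℕ), DifferentiableOn ℂ (s n) (ball z₀ ρ))
    (hne : ∀ᶠ n in (𝒰 : Filter ℕ), ∀ z ∈ ball z₀ ρ, bf (u n z) (s n z) ≠ 0) (hℓ : DifferentiableOn ℂ ℓ (ball z₀ ρ)) (hs0 : DifferentiableOn ℂ s0 (ball z₀ ρ))
    (hcu : ∀ (zs : ℕ → ℂ) (z' : ℂ), z' ∈ ball z₀ ρ → Tendsto zs (𝒰 : Filter ℕ) (𝓝 z') → Tendsto (fun n => u n (zs n)) (𝒰 : Filter ℕ) (𝓝 (ℓ z')))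
    (hcs : ∀ (zs : ℕ → ℂ) (z' : ℂ), z' ∈ ball z₀ ρ → Tendsto zs (𝒰 : Filter ℕ) (𝓝 z') → Tendsto (fun n => s n (zs n)) (𝒰 : Filter ℕ) (𝓝 (s0 z'))) :
    (∀ z ∈ ball z₀ ρ, bf (ℓ z) (s0 z) = 0) ∨ ∀ z ∈ ball z₀ ρ, bf (ℓ z) (s0 z) ≠ 0 := by
  have hbfc : Continuous fun p : EN m × EN 1 => bf p.1 p.2 := bf_diff.continuous
  refine Pool.Agent.H62.Log.hurwitz 𝒰 (a := z₀) (r := ρ) (φ := fun n z => bf (u n z) (s n z)) (ψ := fun z => bf (ℓ z) (s0 z)) ?_ hne ?_ ?_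
  · filter_upwards [hu, hs] with n h1 h2
    exact bf_diff.comp_differentiableOn (h1.prodMk h2)
  · exact bf_diff.comp_differentiableOn (hℓ.prodMk hs0)
  · intro zs z' hz' hzs
    exact sl_tend hbfc (hcu zs z' hz' hzs) (hcs zs z' hz' hzs)

theorem sel_loc (P : PD Λ D Bad θ W) (hm : 0 < m) {y a : Vd (k + 1)} (ha : a ≠ 0) {𝒰 : Ultrafilter ℕ} {w : ℕ → ℂ → EN m} {h : ℕ → ℂ → Vd (k + 1)} {g : ℂ → MN m} (S : LT m θ D y a 𝒰 w h g) {z₀ : ℂ} (hz₀ : y + z₀ • a ∉ D) :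
    ∃ (ρ : ℝ) (r : Fin d → ℂ → EN 1) (K : Finset (Fin d)), 0 < ρ ∧ (∀ i, DifferentiableOn ℂ (r i) (ball z₀ ρ)) ∧ ∀ z ∈ ball z₀ ρ, y + z • a ∉ D ∧ (∀ i, r i z ≠ 0 ∧ Fo θ (y + z • a) (r i z) = 0) ∧
      (∀ i j, i ≠ j → dt (r i z) (r j z) ≠ 0) ∧ (∀ v : EN 1, v ≠ 0 → Fo θ (y + z • a) v = 0 → ∃ i, dt (r i z) v = 0) ∧ ∀ x : EN m, x ≠ 0 → pr x = g z → ∀ i, bf x (r i z) = 0 ↔ i ∈ K := by
  classical
  have hHc : Continuous fun z : ℂ => y + z • a := by fun_prop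
  have hHd : Differentiable ℂ fun z : ℂ => y + z • a := by fun_prop
  have hUo : IsOpen {z : ℂ | y + z • a ∉ D} := P.D_closed.isOpen_compl.preimage hHc
  have hd : 0 < d := lt_of_lt_of_le (by norm_num) P.deg
  obtain ⟨σ, R, hσ, hRd, hR0, hRp, hRc⟩ := roots_near (θ := θ) hd P.an (P.simple _ hz₀)
  have hgcont : ∀ z : ℂ, y + z • a ∉ D → ContinuousAt g z := by
    intro z hz
    obtain ⟨Φ, hΦ, hΦe⟩ := S.lift z hz
    have h1 : ContinuousAt (fun v => pr (Φ v)) z := (Pool.Agent.H62.EF.continuousAt_pr hΦe.self_of_nhds.1).comp hΦ.continuousAt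
    exact h1.congr (hΦe.mono fun v hv => hv.2.symm)
  obtain ⟨Φ, hΦ, hΦe⟩ := S.lift z₀ hz₀
  obtain ⟨v, hv⟩ : ∃ v, v = Φ z₀ := ⟨_, rfl⟩
  have hv0 : v ≠ 0 := by rw [hv]; exact hΦe.self_of_nhds.1
  have hin : ∀ᶠ z in 𝓝 z₀, (inner ℂ v (Φ z) : ℂ) ≠ 0 := by
    have h1 : ContinuousAt (fun z => (inner ℂ v (Φ z) : ℂ)) z₀ := continuousAt_const.inner hΦ.continuousAt
    refine h1.eventually_ne ?_
    rw [← hv]
    exact inner_self_ne_zero.2 hv0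
  have hUe : ∀ᶠ z in 𝓝 z₀, y + z • a ∉ D := hUo.mem_nhds hz₀
  have hbe : ∀ᶠ z in 𝓝 z₀, y + z • a ∈ ball (y + z₀ • a) (σ / 2) :=
    (hHc.continuousAt (x := z₀)) (isOpen_ball.mem_nhds (mem_ball_self (by positivity)))
  obtain ⟨r₀, hr₀, hr⟩ := Metric.eventually_nhds_iff_ball.1 ((hΦe.and hin).and ((hUe.and hbe).and hΦ.eventually_analyticAt))
  obtain ⟨ρ, hρdef⟩ : ∃ ρ : ℝ, ρ = r₀ / 2 := ⟨_, rfl⟩
  have hρ0 : 0 < ρ := by rw [hρdef]; positivity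
  have hKr : closedBall z₀ ρ ⊆ ball z₀ r₀ := closedBall_subset_ball (by rw [hρdef]; linarith)
  have hbr : ball z₀ ρ ⊆ closedBall z₀ ρ := ball_subset_closedBall
  have hK : IsCompact (closedBall z₀ ρ) := isCompact_closedBall _ _
  have hgpr : ∀ z ∈ closedBall z₀ ρ, Φ z ≠ 0 ∧ g z = pr (Φ z) ∧ (inner ℂ v (Φ z) : ℂ) ≠ 0 ∧ y + z • a ∉ D := fun z hz =>
    ⟨(hr z (hKr hz)).1.1.1, (hr z (hKr hz)).1.1.2, (hr z (hKr hz)).1.2, (hr z (hKr hz)).2.1.1⟩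
  have hys : ∀ z ∈ closedBall z₀ ρ, y + z • a ∈ ball (y + z₀ • a) (σ / 2) := fun z hz => (hr z (hKr hz)).2.1.2
  have hys' : ∀ z ∈ closedBall z₀ ρ, y + z • a ∈ ball (y + z₀ • a) σ := fun z hz => ball_subset_ball (by linarith) (hys z hz)
  have hnv : ∀ z ∈ closedBall z₀ ρ, Pool.Agent.G3.C.nv v (g z) = (inner ℂ v (Φ z) : ℂ)⁻¹ • Φ z := by
    intro z hz
    rw [(hgpr z hz).2.1, Pool.Agent.G3.C.nv_pr (hgpr z hz).2.2.1]
  have hnd : ∀ z ∈ closedBall z₀ ρ, Pool.Agent.G3.C.nd v (g z) ≠ 0 := by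
    intro z hz
    rw [(hgpr z hz).2.1]
    exact (Pool.Agent.G3.C.nd_pr_ne (hgpr z hz).1).2 (hgpr z hz).2.2.1
  obtain ⟨ε, hε, hεs⟩ : ∃ ε : ℝ, 0 < ε ∧ thickening ε (g '' closedBall z₀ ρ) ⊆ {m : MN m | Pool.Agent.G3.C.nd v m ≠ 0} := by
    refine (hK.image_of_continuousOn fun z hz => (hgcont z (hgpr z hz).2.2.2).continuousWithinAt).exists_thickening_subset_open
      (isOpen_ne.preimage (Pool.Agent.G3.C.nd_cont v)) ?_
    rintro m ⟨z, hz, rfl⟩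
    exact hnd z hz
  have hball0 : ball z₀ ρ ⊆ ball (0 : ℂ) (‖z₀‖ + ρ) := by
    intro z hz
    rw [mem_ball, dist_zero_right]
    have h1 : dist z z₀ < ρ := mem_ball.mp hz
    have h2 := norm_le_norm_add_norm_sub' z z₀
    rw [← dist_eq_norm] at h2
    linarith
  have hcurve : ∀ᶠ n in (𝒰 : Filter ℕ), HE.Cw (Set.univ : Set (Vd (k + 1) × EN m)) (fun _ : Fin 1 => FT m θ) (ball z₀ ρ) (w n) (h n) := by
    filter_upwards [S.cv (‖z₀‖ + ρ)] with n hn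
    exact hn.mono hball0
  have hin2 : ∀ᶠ n in (𝒰 : Filter ℕ), ∀ z ∈ ball z₀ ρ, w n z ≠ 0 ∧ (inner ℂ v (w n z) : ℂ) ≠ 0 := by
    filter_upwards [hcurve, S.lim (closedBall z₀ ρ) hK (fun z hz => (hgpr z hz).2.2.2) ε hε] with n h1 h2 z hz
    have h3 : w n z ≠ 0 := h1.w_ne _ hz
    refine ⟨h3, (Pool.Agent.G3.C.nd_pr_ne h3).1 (hεs ?_)⟩
    rw [mem_thickening_iff]
    exact ⟨g z, ⟨z, hbr hz, rfl⟩, h2 z (hbr hz)⟩
  have hhb : ∀ᶠ n in (𝒰 : Filter ℕ), ∀ z ∈ ball z₀ ρ, h n z ∈ ball (y + z₀ • a) σ := by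
    filter_upwards [S.hh (‖z₀‖ + ρ) (σ / 2) (by positivity)] with n hn z hz
    have h1 := hn z (ball_subset_closedBall (hball0 hz))
    have h2 := hys z (hbr hz)
    rw [mem_ball] at h2 ⊢
    rw [← dist_eq_norm] at h1
    have h3 := dist_triangle (h n z) (y + z • a) (y + z₀ • a)
    linarith
  have hRat : ∀ i, ∀ u ∈ ball (y + z₀ • a) σ, ContinuousAt (R i) u := fun i u hu =>
    ((hRd i).differentiableAt (isOpen_ball.mem_nhds hu)).continuousAt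
  have hu : ∀ᶠ n in (𝒰 : Filter ℕ), DifferentiableOn ℂ (fun z => Pool.Agent.G3.C.nv v (pr (w n z))) (ball z₀ ρ) := by
    filter_upwards [hcurve, hin2] with n h1 h2
    have h4 : DifferentiableOn ℂ (fun z => (inner ℂ v (w n z) : ℂ)) (ball z₀ ρ) := (innerSL ℂ v).differentiable.comp_differentiableOn h1.w_diff
    have h5 : DifferentiableOn ℂ (fun z => (inner ℂ v (w n z) : ℂ)⁻¹ • w n z) (ball z₀ ρ) := (h4.inv fun z hz => (h2 z hz).2).smul h1.w_diff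
    exact h5.congr fun z hz => Pool.Agent.G3.C.nv_pr (h2 z hz).2
  have hℓ : DifferentiableOn ℂ (fun z => Pool.Agent.G3.C.nv v (g z)) (ball z₀ ρ) := by
    have h3 : DifferentiableOn ℂ Φ (ball z₀ ρ) := fun z hz => (hr z (hKr (hbr hz))).2.2.differentiableAt.differentiableWithinAt
    have h4 : DifferentiableOn ℂ (fun z => (inner ℂ v (Φ z) : ℂ)) (ball z₀ ρ) := (innerSL ℂ v).differentiable.comp_differentiableOn h3
    have h5 : DifferentiableOn ℂ (fun z => (inner ℂ v (Φ z) : ℂ)⁻¹ • Φ z) (ball z₀ ρ) := (h4.inv fun z hz => (hgpr z (hbr hz)).2.2.1).smul h3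
    exact h5.congr fun z hz => hnv z (hbr hz)
  have hcu : ∀ (zs : ℕ → ℂ) (z' : ℂ), z' ∈ ball z₀ ρ → Tendsto zs (𝒰 : Filter ℕ) (𝓝 z') →
      Tendsto (fun n => Pool.Agent.G3.C.nv v (pr (w n (zs n)))) (𝒰 : Filter ℕ) (𝓝 (Pool.Agent.G3.C.nv v (g z'))) := by
    intro zs z' hz' hzs
    have hbn : ∀ᶠ n in (𝒰 : Filter ℕ), zs n ∈ ball z₀ ρ := hzs.eventually (isOpen_ball.mem_nhds hz')
    have e2 : Tendsto (fun n => pr (w n (zs n))) (𝒰 : Filter ℕ) (𝓝 (g z')) := by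
      have h1 : Tendsto (fun n => g (zs n)) (𝒰 : Filter ℕ) (𝓝 (g z')) := (hgcont z' (hgpr z' (hbr hz')).2.2.2).tendsto.comp hzs
      refine h1.congr_dist ?_
      rw [Metric.tendsto_nhds]
      intro ε' hε'
      filter_upwards [hbn, S.lim (closedBall z₀ ρ) hK (fun z hz => (hgpr z hz).2.2.2) ε' hε'] with n hn1 hn2
      rw [dist_zero_right, Real.norm_of_nonneg dist_nonneg, dist_comm]
      exact hn2 _ (hbr hn1)
    exact (Pool.Agent.G3.C.nv_continuousAt (hnd z' (hbr hz'))).tendsto.comp e2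
  have hch : ∀ (zs : ℕ → ℂ) (z' : ℂ), z' ∈ ball z₀ ρ → Tendsto zs (𝒰 : Filter ℕ) (𝓝 z') →
      Tendsto (fun n => h n (zs n)) (𝒰 : Filter ℕ) (𝓝 (y + z' • a)) := by
    intro zs z' hz' hzs
    have hbn : ∀ᶠ n in (𝒰 : Filter ℕ), zs n ∈ ball z₀ ρ := hzs.eventually (isOpen_ball.mem_nhds hz')
    have h1 : Tendsto (fun n => y + zs n • a) (𝒰 : Filter ℕ) (𝓝 (y + z' • a)) := (hHc.tendsto z').comp hzs
    have h2 : Tendsto (fun n => h n (zs n) - (y + zs n • a)) (𝒰 : Filter ℕ) (𝓝 0) := by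
      rw [Metric.tendsto_nhds]
      intro ε' hε'
      filter_upwards [hbn, S.hh (‖z₀‖ + ρ) ε' hε'] with n hn1 hn2
      rw [dist_zero_right]
      exact hn2 _ (ball_subset_closedBall (hball0 hn1))
    have h3 := h2.add h1
    simp only [sub_add_cancel, zero_add] at h3
    exact h3
  have hkey : ∀ i : Fin d, (∀ z ∈ ball z₀ ρ, bf (Pool.Agent.G3.C.nv v (g z)) (R i (y + z • a)) = 0) ∨ ∀ z ∈ ball z₀ ρ, bf (Pool.Agent.G3.C.nv v (g z)) (R i (y + z • a)) ≠ 0 := by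
    intro i
    refine sl_hur 𝒰 (s := fun n z => R i (h n z)) (s0 := fun z => R i (y + z • a)) hu ?_ ?_ hℓ ?_ hcu ?_
    · filter_upwards [hcurve, hhb] with n h1 h3
      exact (hRd i).comp h1.h_diff fun z hz => h3 z hz
    · filter_upwards [hcurve, hin2, hhb] with n h1 h2 h3 z hz
      have h4 := sl_ne hd (hR0 _ (h3 z hz) i).1 (hR0 _ (h3 z hz) i).2 (h1.ne 0 z hz)
      have h5 : Pool.Agent.G3.C.nv v (pr (w n z)) = (inner ℂ v (w n z) : ℂ)⁻¹ • w n z := Pool.Agent.G3.C.nv_pr (h2 z hz).2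
      rw [h5, bf_smul]
      exact mul_ne_zero (inv_ne_zero (h2 z hz).2) h4
    · exact (hRd i).comp hHd.differentiableOn fun z hz => hys' z (hbr hz)
    · intro zs z' hz' hzs
      exact (hRat i _ (hys' z' (hbr hz'))).tendsto.comp (hch zs z' hz' hzs)
  refine ⟨ρ, fun i z => R i (y + z • a), Finset.univ.filter fun i => ∀ z ∈ ball z₀ ρ, bf (Pool.Agent.G3.C.nv v (g z)) (R i (y + z • a)) = 0, hρ0, fun i => (hRd i).comp hHd.differentiableOn fun z hz => hys' z (hbr hz),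
    fun z hz => ⟨(hgpr z (hbr hz)).2.2.2, hR0 _ (hys' z (hbr hz)), hRp _ (hys' z (hbr hz)), hRc _ (hys' z (hbr hz)), fun x hx hxg i => ?_⟩⟩
  have hxi : (inner ℂ v x : ℂ) ≠ 0 := by
    refine (Pool.Agent.G3.C.nd_pr_ne hx).1 ?_
    rw [hxg]
    exact hnd z (hbr hz)
  have hbx : bf (Pool.Agent.G3.C.nv v (g z)) (R i (y + z • a)) = (inner ℂ v x : ℂ)⁻¹ * bf x (R i (y + z • a)) := by
    rw [← hxg, Pool.Agent.G3.C.nv_pr hxi, bf_smul]
  rw [Finset.mem_filter]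
  constructor
  · intro h0
    refine ⟨Finset.mem_univ _, (hkey i).resolve_right fun h1 => h1 z hz ?_⟩
    rw [hbx, h0, mul_zero]
  · rintro ⟨-, h0⟩
    have h1 := h0 z hz
    rw [hbx] at h1
    exact (mul_eq_zero.1 h1).resolve_left (inv_ne_zero hxi)

/-- a complete system of `n` common zeros -/
private def Qs (θ : Fin (d + 1) → Vd (k + 1) → ℂ) (y a : Vd (k + 1)) (g : ℂ → MN m) (n : ℕ) (z : ℂ) : Prop :=
  ∃ r : Fin n → EN 1, (∀ i, r i ≠ 0 ∧ Zc θ y a g z (r i)) ∧ (∀ i j, i ≠ j → dt (r i) (r j) ≠ 0) ∧ ∀ v : EN 1, v ≠ 0 → Zc θ y a g z v → ∃ i, dt (r i) v = 0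

private theorem dt_trans {x v v' : EN 1} (hx : x ≠ 0) (h : dt x v = 0) (h' : dt x v' = 0) : dt v v' = 0 := by
  obtain ⟨c, rfl⟩ := (Pool.Agent.PX.dt_eq_zero hx).1 h
  obtain ⟨c', rfl⟩ := (Pool.Agent.PX.dt_eq_zero hx).1 h'
  unfold dt
  simp only [PiLp.smul_apply, smul_eq_mul]
  ring

private theorem Qs_le {y a : Vd (k + 1)} {g : ℂ → MN m} {n n' : ℕ} {z : ℂ} (h : Qs θ y a g n z) (h' : Qs θ y a g n' z) : n ≤ n' := by
  obtain ⟨r, hr, hp, -⟩ := h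
  obtain ⟨r', hr', -, hc'⟩ := h'
  choose f hf using fun i => hc' (r i) (hr i).1 (hr i).2
  have hinj : Function.Injective f := by
    intro i j hij
    by_contra hne
    refine hp i j hne (dt_trans (hr' (f i)).1 (hf i) ?_)
    rw [hij]
    exact hf j
  simpa using Fintype.card_le_of_injective f hinj

theorem sel (P : PD Λ D Bad θ W) (hm : 0 < m) {y a : Vd (k + 1)} (ha : a ≠ 0) {𝒰 : Ultrafilter ℕ} {w : ℕ → ℂ → EN m} {h : ℕ → ℂ → Vd (k + 1)} {g : ℂ → MN m} (S : LT m θ D y a 𝒰 w h g)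
    (hZ : HE.Zr (FT m θ) D y a g) : ∃ n, 0 < n ∧ n ≤ m ∧ n ≤ d ∧ Sl θ D y a n (Zc θ y a g) := by
  classical
  have hd : 0 < d := lt_of_lt_of_le (by norm_num) P.deg
  have hUconn := Set.Countable.isConnected_compl_of_one_lt_rank (E := ℂ) (by rw [Complex.rank_real_complex]; exact_mod_cast one_lt_two) (sl_countable P ha y)
  have hUc : IsPreconnected {z : ℂ | y + z • a ∉ D} := hUconn.isPreconnected
  obtain ⟨z₁, hz₁⟩ : ∃ z₁ : ℂ, y + z₁ • a ∉ D := hUconn.nonempty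
  -- the local structure
  have hloc : ∀ z₀ : ℂ, y + z₀ • a ∉ D → ∃ (n : ℕ) (ρ : ℝ) (r : Fin n → ℂ → EN 1), n ≤ d ∧ 0 < ρ ∧ (∀ i, DifferentiableOn ℂ (r i) (ball z₀ ρ)) ∧ ∀ z ∈ ball z₀ ρ, y + z • a ∉ D ∧
      (∀ i, r i z ≠ 0 ∧ Fo θ (y + z • a) (r i z) = 0) ∧ (∀ i j, i ≠ j → dt (r i z) (r j z) ≠ 0) ∧ ∀ v : EN 1, v ≠ 0 → (Zc θ y a g z v ↔ ∃ i, dt (r i z) v = 0) := by
    intro z₀ hz₀
    obtain ⟨ρ, r, K, hρ, hrd, hz⟩ := sel_loc P hm ha S hz₀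
    have e : K ≃ Fin K.card := K.equivFin
    refine ⟨K.card, ρ, fun i => r (e.symm i).1, ?_, hρ, fun i => hrd _, fun z hzb => ?_⟩
    · simpa using K.card_le_univ
    obtain ⟨h1, h2, h3, h4, h5⟩ := hz z hzb
    refine ⟨h1, fun i => h2 _, fun i j hij => h3 _ _ fun h6 => hij (e.symm.injective (Subtype.ext h6)), fun v hv => ?_⟩
    obtain ⟨Φ, -, hΦe⟩ := S.lift z h1
    have hΦ0 : Φ z ≠ 0 := hΦe.self_of_nhds.1
    have hΦg : pr (Φ z) = g z := hΦe.self_of_nhds.2.symm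
    constructor
    · rintro ⟨h6, h7⟩
      obtain ⟨i, hi⟩ := h4 v hv h6
      obtain ⟨c, hc⟩ := (Pool.Agent.PX.dt_eq_zero (h2 i).1).1 hi
      have hc0 : c ≠ 0 := by
        rintro rfl
        exact hv (by rw [hc, zero_smul])
      have h8 := h7 (Φ z) hΦ0 hΦg
      rw [hc, bf_smul_v] at h8
      have h9 : i ∈ K := (h5 (Φ z) hΦ0 hΦg i).1 ((mul_eq_zero.1 h8).resolve_left (pow_ne_zero _ hc0))
      refine ⟨e ⟨i, h9⟩, ?_⟩
      have h10 : (e.symm (e ⟨i, h9⟩)).1 = i := by rw [Equiv.symm_apply_apply]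
      show dt (r (e.symm (e ⟨i, h9⟩)).1 z) v = 0
      rw [h10]
      exact hi
    · rintro ⟨i, hi⟩
      obtain ⟨c, hc⟩ := (Pool.Agent.PX.dt_eq_zero (h2 _).1).1 hi
      refine ⟨?_, fun x hx hxg => ?_⟩
      · rw [hc, Pool.Agent.PX.fo_smul, (h2 _).2, mul_zero]
      · rw [hc, bf_smul_v, (h5 x hx hxg _).2 (e.symm i).2, mul_zero]
  have hQ : ∀ z₀ : ℂ, y + z₀ • a ∉ D → ∃ (n : ℕ) (ρ : ℝ), 0 < ρ ∧ ∀ z ∈ ball z₀ ρ, Qs θ y a g n z := by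
    intro z₀ hz₀
    obtain ⟨n, ρ, r, -, hρ, -, hz⟩ := hloc z₀ hz₀
    refine ⟨n, ρ, hρ, fun z hzb => ?_⟩
    obtain ⟨-, h2, h3, h4⟩ := hz z hzb
    refine ⟨fun i => r i z, fun i => ⟨(h2 i).1, (h4 _ (h2 i).1).2 ⟨i, ?_⟩⟩, h3, fun v hv hvz => (h4 v hv).1 hvz⟩
    unfold dt
    ring
  obtain ⟨n, ρ₁, r₁, hnd, hρ₁, -, hr₁⟩ := hloc z₁ hz₁
  have hQ1 : Qs θ y a g n z₁ := by
    obtain ⟨-, h2, h3, h4⟩ := hr₁ z₁ (mem_ball_self hρ₁)
    refine ⟨fun i => r₁ i z₁, fun i => ⟨(h2 i).1, (h4 _ (h2 i).1).2 ⟨i, ?_⟩⟩, h3, fun v hv hvz => (h4 v hv).1 hvz⟩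
    unfold dt
    ring
  have hall : ∀ z ∈ {z : ℂ | y + z • a ∉ D}, Qs θ y a g n z := by
    refine sl_dich hUc ?_ hz₁ hQ1
    intro z₀ hz₀
    obtain ⟨n', ρ, hρ, hq⟩ := hQ z₀ hz₀
    refine ⟨ρ, hρ, ?_⟩
    by_cases hnn : n' = n
    · left
      rw [← hnn]
      exact hq
    · right
      intro z hzb hqz
      exact hnn (le_antisymm (Qs_le (hq z hzb) hqz) (Qs_le hqz (hq z hzb)))
  obtain ⟨Φ, -, hΦe⟩ := S.lift z₁ hz₁
  have hΦ0 : Φ z₁ ≠ 0 := hΦe.self_of_nhds.1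
  have hΦg : pr (Φ z₁) = g z₁ := hΦe.self_of_nhds.2.symm
  refine ⟨n, ?_, ?_, hnd, fun z₀ hz₀ => ?_⟩
  · -- there is a common zero
    obtain ⟨v, hv, hv1, hv2⟩ := (rs_zero (by omega) (tv θ (y + z₁ • a)) (Φ z₁)).1 (hZ z₁ hz₁ (Φ z₁) hΦ0 hΦg)
    have hzc : Zc θ y a g z₁ v := by
      refine ⟨by rw [← bf_tv]; exact hv1, fun x hx hxg => ?_⟩
      obtain ⟨c, -, hc⟩ := (Pool.Agent.H62.EF.pr_eq_iff hx hΦ0).1 (hxg.trans hΦg.symm)
      rw [hc, bf_smul, hv2, mul_zero]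
    obtain ⟨i, -⟩ := ((hr₁ z₁ (mem_ball_self hρ₁)).2.2.2 v hv).1 hzc
    exact Fin.pos_iff_nonempty.2 ⟨i⟩
  · -- at most `m`
    by_contra hlt
    push Not at hlt
    obtain ⟨r, hr, hp, -⟩ := hQ1
    exact hΦ0 (bf_roots_le r hp (fun i => (hr i).2.2 (Φ z₁) hΦ0 hΦg) hlt)
  · obtain ⟨n', ρ, r, -, hρ, hrd, hz⟩ := hloc z₀ hz₀
    have hq' : Qs θ y a g n' z₀ := by
      obtain ⟨-, h2, h3, h4⟩ := hz z₀ (mem_ball_self hρ)
      refine ⟨fun i => r i z₀, fun i => ⟨(h2 i).1, (h4 _ (h2 i).1).2 ⟨i, ?_⟩⟩, h3, fun v hv hvz => (h4 v hv).1 hvz⟩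
      unfold dt
      ring
    have hnn : n' = n := le_antisymm (Qs_le hq' (hall z₀ hz₀)) (Qs_le (hall z₀ hz₀) hq')
    subst hnn
    exact ⟨ρ, r, hρ, hrd, hz⟩

end Pool.Agent.TM
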